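import Mathlib

-- part MP_b9de27_nt.Good
section

/-!
Sublevel estimates for real polynomials and the abstract marking theorem of Kleinbock and
Margulis on intervals of the real line.
-/

set_option autoImplicit false

open MeasureTheory Set Polynomial Metric

namespace Pool.Agent.MP_b9de27_nt

/-- `ψ` is good with exponent `1 / N` and constant `C` on every interval. -/
def IsGood (N : ℕ) (C : ℝ) (ψ : ℝ → ℝ) : Prop :=
  ∀ a b c u : ℝ, a ≤ b → 0 < c → 0 < u → (∃ t ∈ Icc a b, c ≤ ψ t) →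
    volume {t | t ∈ Icc a b ∧ ψ t < u ^ N * c} ≤ ENNReal.ofReal (C * u * (b - a))

lemma multiset_prod_le (R : Multiset ℂ) (u : ℝ) (hu : 0 ≤ u) (x y : ℂ)
    (h : ∀ z ∈ R, u * ‖x - z‖ ≤ ‖y - z‖) :
    u ^ Multiset.card R * ‖(R.map (fun z => x - z)).prod‖ ≤ ‖(R.map (fun z => y - z)).prod‖ := by
  induction R using Multiset.induction_on with
  | empty => simp
  | cons a s ih =>
    simp only [Multiset.card_cons, Multiset.map_cons, Multiset.prod_cons, norm_mul, pow_succ]
    have h1 := h a (Multiset.mem_cons_self a s)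
    have h2 := ih (fun z hz => h z (Multiset.mem_cons_of_mem hz))
    calc u ^ Multiset.card s * u * (‖x - a‖ * ‖(s.map (fun z => x - z)).prod‖)
        = (u * ‖x - a‖) * (u ^ Multiset.card s * ‖(s.map (fun z => x - z)).prod‖) := by ring
      _ ≤ ‖y - a‖ * ‖(s.map (fun z => y - z)).prod‖ :=
        mul_le_mul h1 h2 (by positivity) (norm_nonneg _)

lemma isGood_poly (N : ℕ) (p : ℝ[X]) (hp : p.natDegree ≤ N) :
    IsGood N (4 * N + 2) (fun t => |p.eval t|) := by
  intro a b c u hab hc hu ⟨t₀, ht₀, hct⟩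
  by_cases hu2 : 1 / 2 ≤ u
  · calc volume {t | t ∈ Icc a b ∧ |p.eval t| < u ^ N * c} ≤ volume (Icc a b) :=
          measure_mono (fun t ht => ht.1)
      _ = ENNReal.ofReal (b - a) := Real.volume_Icc
      _ ≤ _ := by
          apply ENNReal.ofReal_le_ofReal
          have : (0 : ℝ) ≤ N := Nat.cast_nonneg N
          have hba : 0 ≤ b - a := by linarith
          have : 1 ≤ (4 * (N : ℝ) + 2) * u := by nlinarith
          nlinarith
  push Not at hu2
  set h : ℝ := 2 * u * (b - a) with hh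
  have hh0 : 0 ≤ h := by have : 0 ≤ b - a := by linarith
                         positivity
  set pc : ℂ[X] := p.map (algebraMap ℝ ℂ) with hpc
  have hev : ∀ t : ℝ, ‖pc.eval (t : ℂ)‖ = |p.eval t| := by
    intro t
    have : pc.eval (t : ℂ) = ((p.eval t : ℝ) : ℂ) := by
      rw [hpc, eval_map_algebraMap]
      have := Polynomial.aeval_algebraMap_apply_eq_algebraMap_eval (R := ℝ) (A := ℂ) t p
      simpa using this
    rw [this, Complex.norm_real, Real.norm_eq_abs]
  have hcard : Multiset.card pc.roots ≤ N := by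
    refine (card_roots' pc).trans ?_
    rw [hpc]; exact (natDegree_map_le).trans hp
  have hsub : {t | t ∈ Icc a b ∧ |p.eval t| < u ^ N * c} ⊆
      ⋃ z ∈ pc.roots.toFinset, Icc (z.re - h) (z.re + h) := by
    intro t ⟨ht, hlt⟩
    by_contra hn
    simp only [mem_iUnion, not_exists, mem_Icc, not_and_or, not_le] at hn
    have key : ∀ z ∈ pc.roots, u * ‖(t₀ : ℂ) - z‖ ≤ ‖(t : ℂ) - z‖ := by
      intro z hz
      have h1 := hn z (Multiset.mem_toFinset.2 hz)
      have h2 : h ≤ ‖(t : ℂ) - z‖ := by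
        have := Complex.abs_re_le_norm ((t : ℂ) - z)
        simp only [Complex.sub_re, Complex.ofReal_re] at this
        rcases h1 with h1 | h1
        · have : h ≤ |t - z.re| := by rw [abs_sub_comm]; exact le_trans (by linarith) (le_abs_self _)
          linarith
        · have : h ≤ |t - z.re| := le_trans (by linarith) (le_abs_self _)
          linarith
      have h3 : ‖(t₀ : ℂ) - z‖ ≤ ‖(t : ℂ) - z‖ + (b - a) := by
        have e : (t₀ : ℂ) - z = ((t : ℂ) - z) + ((t₀ - t : ℝ) : ℂ) := by push_cast; ring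
        rw [e]
        refine (norm_add_le _ _).trans ?_
        rw [Complex.norm_real, Real.norm_eq_abs]
        have : |t₀ - t| ≤ b - a := by
          rw [abs_le]; constructor <;> linarith [ht.1, ht.2, ht₀.1, ht₀.2]
        linarith
      have h4 : 0 ≤ ‖(t : ℂ) - z‖ := norm_nonneg _
      nlinarith
    have h5 := multiset_prod_le pc.roots u hu.le t₀ t key
    have e1 := hev t
    have e2 := hev t₀
    rw [(IsAlgClosed.splits pc).eval_eq_prod_roots, norm_mul] at e1 e2
    have h6 : u ^ N ≤ u ^ Multiset.card pc.roots :=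
      pow_le_pow_of_le_one hu.le (by linarith) hcard
    have h7 : u ^ N * c ≤ |p.eval t| := by
      calc u ^ N * c ≤ u ^ Multiset.card pc.roots * |p.eval t₀| :=
            mul_le_mul h6 hct hc.le (by positivity)
        _ = ‖pc.leadingCoeff‖ * (u ^ Multiset.card pc.roots *
              ‖(pc.roots.map (fun z => (t₀ : ℂ) - z)).prod‖) := by rw [← e2]; ring
        _ ≤ ‖pc.leadingCoeff‖ * ‖(pc.roots.map (fun z => (t : ℂ) - z)).prod‖ :=
            mul_le_mul_of_nonneg_left h5 (norm_nonneg _)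
        _ = |p.eval t| := e1
    linarith
  calc volume {t | t ∈ Icc a b ∧ |p.eval t| < u ^ N * c}
      ≤ ∑ z ∈ pc.roots.toFinset, volume (Icc (z.re - h) (z.re + h)) :=
        (measure_mono hsub).trans (measure_biUnion_finset_le _ _)
    _ = ∑ _z ∈ pc.roots.toFinset, ENNReal.ofReal (2 * h) := by
        refine Finset.sum_congr rfl fun z _ => ?_
        rw [Real.volume_Icc]; congr 1; ring
    _ = ENNReal.ofReal (pc.roots.toFinset.card * (2 * h)) := by
        rw [Finset.sum_const, nsmul_eq_mul, ENNReal.ofReal_mul (Nat.cast_nonneg _),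
          ENNReal.ofReal_natCast]
    _ ≤ _ := by
        apply ENNReal.ofReal_le_ofReal
        have h1 : (pc.roots.toFinset.card : ℝ) ≤ N := by
          exact_mod_cast (Multiset.toFinset_card_le _).trans hcard
        have hba : 0 ≤ b - a := by linarith
        have : (pc.roots.toFinset.card : ℝ) * (2 * h) ≤ N * (2 * h) :=
          mul_le_mul_of_nonneg_right h1 (by positivity)
        have h2 : 0 ≤ u * (b - a) := by positivity
        rw [hh] at this ⊢
        nlinarith

lemma IsGood.growth {N : ℕ} {C : ℝ} {ψ : ℝ → ℝ} (h : IsGood N C ψ) (hC : 0 < C) {y r : ℝ}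
    (hr : 0 < r) (h1 : ∀ t ∈ closedBall y r, ψ t < 1) :
    ∀ t ∈ closedBall y (5 * r), ψ t ≤ (10 * C + 1) ^ N := by
  intro t ht
  by_contra hn
  push Not at hn
  rw [Real.closedBall_eq_Icc] at ht
  have hK : 0 < 10 * C + 1 := by positivity
  have := h (y - 5 * r) (y + 5 * r) ((10 * C + 1) ^ N) (1 / (10 * C + 1)) (by linarith)
    (by positivity) (by positivity) ⟨t, ht, hn.le⟩
  have e : (1 / (10 * C + 1)) ^ N * (10 * C + 1) ^ N = 1 := by
    rw [← mul_pow, one_div_mul_cancel hK.ne', one_pow]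
  rw [e] at this
  have hsub : closedBall y r ⊆ {t | t ∈ Icc (y - 5 * r) (y + 5 * r) ∧ ψ t < 1} := by
    intro s hs
    refine ⟨?_, h1 s hs⟩
    rw [Real.closedBall_eq_Icc] at hs
    constructor <;> linarith [hs.1, hs.2]
  have h2 := (measure_mono hsub).trans this
  have hp : 0 ≤ y + 5 * r - (y - 5 * r) := by linarith
  rw [Real.volume_closedBall, ENNReal.ofReal_le_ofReal_iff (by positivity)] at h2
  have h3 : C * (1 / (10 * C + 1)) * (y + 5 * r - (y - 5 * r)) < r := by
    have : y + 5 * r - (y - 5 * r) = 10 * r := by ring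
    rw [this, mul_one_div, div_mul_eq_mul_div, div_lt_iff₀ hK]
    nlinarith
  linarith

/-- Marked points in the sense of Kleinbock and Margulis. -/
def Marked {P : Type*} [PartialOrder P] (ψ : P → ℝ → ℝ) (S : Set P) (ε K x : ℝ) : Prop :=
  ∃ F : Finset P, (↑F : Set P) ⊆ S ∧ IsChain (· ≤ ·) (↑F : Set P) ∧
    (∀ s ∈ F, ε ≤ ψ s x ∧ ψ s x ≤ K) ∧
    (∀ s ∈ S, s ∉ F → (∀ f ∈ F, s ≤ f ∨ f ≤ s) → 1 ≤ ψ s x)

theorem km_abstract {P : Type*} [PartialOrder P] (ψ : P → ℝ → ℝ) (N : ℕ) (C : ℝ) (hC : 0 < C)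
    (hcont : ∀ s, Continuous (ψ s)) (hgood : ∀ s, IsGood N C (ψ s)) (u : ℝ) (hu : 0 < u)
    (k : ℕ) : ∀ (S : Set P),
    (∀ F : Finset P, (↑F : Set P) ⊆ S → IsChain (· ≤ ·) (↑F : Set P) → F.card ≤ k) →
    ∀ a b : ℝ, a < b → (∀ s ∈ S, ∃ t ∈ Icc a b, 1 ≤ ψ s t) →
    volume {t | t ∈ Icc a b ∧ ¬ Marked ψ S (u ^ N) ((10 * C + 1) ^ N) t} ≤
      ENNReal.ofReal (k * 15 ^ k * C * u * (b - a)) := by
  classical
  induction k with
  | zero =>
    intro S hS a b _ _
    have hSe : S = ∅ := by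
      by_contra hne
      obtain ⟨s, hs⟩ := Set.nonempty_iff_ne_empty.2 hne
      have := hS {s} (by simpa using hs) (by simp)
      simp at this
    have : {t | t ∈ Icc a b ∧ ¬ Marked ψ S (u ^ N) ((10 * C + 1) ^ N) t} = ∅ := by
      ext t
      simp only [mem_ofPred_eq, mem_empty_iff_false, iff_false, not_and, not_not]
      intro _
      exact ⟨∅, by simp, by simp, by simp, by simp [hSe]⟩
    rw [this]; simp
  | succ k ih =>
    intro S hS a b hab hsup
    set E : Set ℝ := {y | y ∈ Icc a b ∧ ∃ s ∈ S, ψ s y < 1} with hE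
    have hch : ∀ y ∈ E, ∃ (r : ℝ) (s : P), 0 < r ∧ r ≤ b - a ∧ s ∈ S ∧
        (∀ t ∈ closedBall y r, ψ s t < 1) ∧
        ∀ s' ∈ S, ∃ t ∈ closedBall y (5 * r), 1 ≤ ψ s' t := by
      intro y ⟨hy, s₀, hs₀, hlt⟩
      set R : Set ℝ := {r | 0 < r ∧ ∃ s ∈ S, ∀ t ∈ closedBall y r, ψ s t < 1} with hR
      have hRne : R.Nonempty := by
        have : {t | ψ s₀ t < 1} ∈ nhds y :=
          (isOpen_lt (hcont s₀) continuous_const).mem_nhds hlt
        obtain ⟨r, hr, hsub⟩ := Metric.nhds_basis_closedBall.mem_iff.1 this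
        exact ⟨r, hr, s₀, hs₀, fun t ht => hsub ht⟩
      have hRle : ∀ r ∈ R, r ≤ b - a := by
        intro r ⟨hr, s, hs, hall⟩
        by_contra hn
        push Not at hn
        obtain ⟨t, ht, h1⟩ := hsup s hs
        have : t ∈ closedBall y r := by
          rw [Real.closedBall_eq_Icc]
          constructor <;> linarith [ht.1, ht.2, hy.1, hy.2]
        linarith [hall t this]
      have hbdd : BddAbove R := ⟨b - a, hRle⟩
      have hpos : 0 < sSup R := by
        obtain ⟨r, hr⟩ := hRne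
        exact lt_of_lt_of_le hr.1 (le_csSup hbdd hr)
      obtain ⟨r, hr, hlt⟩ := exists_lt_of_lt_csSup hRne (show sSup R / 2 < sSup R by linarith)
      obtain ⟨hr0, s, hs, hall⟩ := hr
      refine ⟨r, s, hr0, hRle r ⟨hr0, s, hs, hall⟩, hs, hall, ?_⟩
      intro s' hs'
      by_contra hn
      push Not at hn
      have : 5 * r ∈ R := ⟨by positivity, s', hs', hn⟩
      have := le_csSup hbdd this
      linarith
    by_cases hEe : E = ∅
    · have : {t | t ∈ Icc a b ∧ ¬ Marked ψ S (u ^ N) ((10 * C + 1) ^ N) t} = ∅ := by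
        ext t
        simp only [mem_ofPred_eq, mem_empty_iff_false, iff_false, not_and, not_not]
        intro ht
        refine ⟨∅, by simp, by simp, by simp, ?_⟩
        intro s hs _ _
        by_contra hn
        push Not at hn
        have : t ∈ E := ⟨ht, s, hs, hn⟩
        simp [hEe] at this
      rw [this]; simp
    have : Nonempty P := by
      obtain ⟨y, hy⟩ := Set.nonempty_iff_ne_empty.2 hEe
      obtain ⟨_, s, _⟩ := hy
      exact ⟨s⟩
    choose! r s hr0 hrle hsS hlt1 hsup' using hch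
    obtain ⟨U, hUE, hdisj, hcov⟩ :=
      Vitali.exists_disjoint_subfamily_covering_enlargement_closedBall E (fun y => y) r (b - a)
        hrle 5 (by norm_num)
    have hUc : U.Countable := by
      refine hdisj.countable_of_nonempty_interior fun y hy => ?_
      exact ⟨y, mem_interior_iff_mem_nhds.2 (closedBall_mem_nhds y (hr0 y (hUE hy)))⟩
    set S' : ℝ → Set P := fun y => {z | z ∈ S ∧ z ≠ s y ∧ (z ≤ s y ∨ s y ≤ z)} with hS'
    set Bad : ℝ → Set ℝ := fun y =>
      {t | t ∈ Icc (y - 5 * r y) (y + 5 * r y) ∧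
        ¬ Marked ψ (S' y) (u ^ N) ((10 * C + 1) ^ N) t} ∪
      {t | t ∈ Icc (y - 5 * r y) (y + 5 * r y) ∧ ψ (s y) t < u ^ N * 1} with hBad
    have hsub : {t | t ∈ Icc a b ∧ ¬ Marked ψ S (u ^ N) ((10 * C + 1) ^ N) t} ⊆
        ⋃ y ∈ U, Bad y := by
      intro t ⟨ht, hnm⟩
      have htE : t ∈ E := by
        by_contra hn
        apply hnm
        refine ⟨∅, by simp, by simp, by simp, ?_⟩
        intro z hz _ _
        by_contra hn'
        push Not at hn'
        exact hn ⟨ht, z, hz, hn'⟩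
      obtain ⟨y, hyU, hcy⟩ := hcov t htE
      have hty : t ∈ closedBall y (5 * r y) := hcy (mem_closedBall_self (hr0 t htE).le)
      have hyE := hUE hyU
      simp only [mem_iUnion]
      refine ⟨y, hyU, ?_⟩
      by_contra hn
      simp only [hBad, mem_union, mem_ofPred_eq, not_or, not_and, not_not, not_lt] at hn
      have hty' : t ∈ Icc (y - 5 * r y) (y + 5 * r y) := by rwa [← Real.closedBall_eq_Icc]
      obtain ⟨F, hFS, hFc, hF1, hF2⟩ := hn.1 hty'
      have h2 := hn.2 hty'
      rw [mul_one] at h2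
      apply hnm
      refine ⟨insert (s y) F, ?_, ?_, ?_, ?_⟩
      · rw [Finset.coe_insert]
        exact insert_subset (hsS y hyE) (fun z hz => (hFS hz).1)
      · rw [Finset.coe_insert]
        refine hFc.insert ?_
        intro z hz _
        exact (hFS hz).2.2.symm
      · intro z hz
        rcases Finset.mem_insert.1 hz with rfl | hz
        · exact ⟨h2, (hgood _).growth hC (hr0 y hyE) (hlt1 y hyE) t hty⟩
        · exact hF1 z hz
      · intro z hz hzF hcomp
        rw [Finset.mem_insert, not_or] at hzF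
        refine hF2 z ⟨hz, hzF.1, hcomp _ (Finset.mem_insert_self _ _)⟩ hzF.2 ?_
        intro f hf
        exact hcomp f (Finset.mem_insert_of_mem hf)
    have hBadle : ∀ y ∈ U, volume (Bad y) ≤
        ENNReal.ofReal ((k * 15 ^ k + 1) * C * u * 5) * volume (closedBall y (r y)) := by
      intro y hyU
      have hyE := hUE hyU
      have hry := hr0 y hyE
      have h1 := ih (S' y) (by
          intro F hF hc
          have hnot : s y ∉ F := fun h => (hF h).2.1 rfl
          have := hS (insert (s y) F) (by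
            rw [Finset.coe_insert]
            exact insert_subset (hsS y hyE) (fun z hz => (hF hz).1)) (by
            rw [Finset.coe_insert]
            refine hc.insert ?_
            intro z hz _
            exact (hF hz).2.2.symm)
          rw [Finset.card_insert_of_notMem hnot] at this
          omega) (y - 5 * r y) (y + 5 * r y) (by linarith) (by
          intro z hz
          obtain ⟨t, ht, h⟩ := hsup' y hyE z hz.1
          exact ⟨t, by rwa [← Real.closedBall_eq_Icc], h⟩)
      have h2 := hgood (s y) (y - 5 * r y) (y + 5 * r y) 1 u (by linarith) one_pos hu (by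
          obtain ⟨t, ht, h⟩ := hsup' y hyE (s y) (hsS y hyE)
          exact ⟨t, by rwa [← Real.closedBall_eq_Icc], h⟩)
      refine (measure_union_le _ _).trans ((add_le_add h1 h2).trans ?_)
      have hpos : 0 ≤ y + 5 * r y - (y - 5 * r y) := by linarith
      rw [← ENNReal.ofReal_add (by positivity) (by positivity), Real.volume_closedBall,
        ← ENNReal.ofReal_mul (by positivity)]
      apply ENNReal.ofReal_le_ofReal
      apply le_of_eq; ring
    calc volume {t | t ∈ Icc a b ∧ ¬ Marked ψ S (u ^ N) ((10 * C + 1) ^ N) t}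
        ≤ ∑' y : U, volume (Bad y) := (measure_mono hsub).trans (measure_biUnion_le _ hUc _)
      _ ≤ ∑' y : U, ENNReal.ofReal ((k * 15 ^ k + 1) * C * u * 5) *
            volume (closedBall (y : ℝ) (r y)) := ENNReal.tsum_le_tsum fun y => hBadle y y.2
      _ = ENNReal.ofReal ((k * 15 ^ k + 1) * C * u * 5) *
            volume (⋃ y ∈ U, closedBall y (r y)) := by
          rw [ENNReal.tsum_mul_left, measure_biUnion hUc hdisj (fun _ _ => measurableSet_closedBall)]
      _ ≤ ENNReal.ofReal ((k * 15 ^ k + 1) * C * u * 5) *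
            volume (Icc (a - (b - a)) (b + (b - a))) := by
          gcongr
          intro t ht
          simp only [mem_iUnion] at ht
          obtain ⟨y, hyU, ht⟩ := ht
          have hyE := hUE hyU
          rw [Real.closedBall_eq_Icc] at ht
          have := hrle y hyE
          constructor <;> linarith [ht.1, ht.2, hyE.1.1, hyE.1.2]
      _ ≤ _ := by
          rw [Real.volume_Icc, ← ENNReal.ofReal_mul (by positivity)]
          apply ENNReal.ofReal_le_ofReal
          have hba : 0 < b - a := by linarith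
          have h15 : (1 : ℝ) ≤ 15 ^ k := one_le_pow₀ (by norm_num)
          have hq : 0 < C * u * (b - a) := by positivity
          push_cast
          rw [pow_succ]
          have : (k * 15 ^ k + 1) * C * u * 5 * (b + (b - a) - (a - (b - a))) =
            15 * (k * 15 ^ k + 1) * (C * u * (b - a)) := by ring
          rw [this]
          have : ((k : ℝ) + 1) * (15 ^ k * 15) * C * u * (b - a) =
            15 * (k * 15 ^ k + 15 ^ k) * (C * u * (b - a)) := by ring
          rw [this]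
          gcongr

end Pool.Agent.MP_b9de27_nt

end

-- part MP_b9de27_nt.Minors
section

/-!
Maximal minors of rectangular matrices, and elementary inequalities between them.
-/

set_option autoImplicit false

open Matrix

namespace Pool.Agent.MP_b9de27_nt

variable {ι : Type*}

/-- The largest absolute value of a maximal minor. -/
noncomputable def mm [Fintype ι] {r : ℕ} (M : Matrix (Fin r) ι ℝ) : ℝ :=
  ‖fun J : Fin r → ι => (M.submatrix id J).det‖

/-- The largest absolute value of a maximal minor with one column replaced by `φ`. -/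
noncomputable def ee [Fintype ι] {r : ℕ} (M : Matrix (Fin r) ι ℝ) (φ : Fin r → ℝ) : ℝ :=
  ‖fun p : (Fin r → ι) × Fin r => ((M.submatrix id p.1).updateCol p.2 φ).det‖

/-- The rows of `M` are linearly independent. -/
def Indep {R : Type*} [CommRing R] {r : ℕ} (M : Matrix (Fin r) ι R) : Prop :=
  ∀ c : Fin r → R, c ᵥ* M = 0 → c = 0

section basic
variable [Fintype ι] {r : ℕ}

lemma mm_nonneg (M : Matrix (Fin r) ι ℝ) : 0 ≤ mm M := norm_nonneg _

lemma abs_det_le_mm (M : Matrix (Fin r) ι ℝ) (J : Fin r → ι) :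
    |(M.submatrix id J).det| ≤ mm M :=
  norm_le_pi_norm (fun J : Fin r → ι => (M.submatrix id J).det) J

lemma mm_le (M : Matrix (Fin r) ι ℝ) {c : ℝ} (hc : 0 ≤ c)
    (h : ∀ J : Fin r → ι, |(M.submatrix id J).det| ≤ c) : mm M ≤ c :=
  (pi_norm_le_iff_of_nonneg hc).2 h

lemma exists_lt_abs_det (M : Matrix (Fin r) ι ℝ) {c : ℝ} (hc : 0 ≤ c) (h : c < mm M) :
    ∃ J : Fin r → ι, c < |(M.submatrix id J).det| := by
  by_contra hn
  push Not at hn
  linarith [mm_le M hc hn]

lemma exists_mm_eq (M : Matrix (Fin r) ι ℝ) (h : 0 < mm M) :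
    ∃ J : Fin r → ι, mm M = |(M.submatrix id J).det| := by
  obtain ⟨J₀, _⟩ := exists_lt_abs_det M le_rfl h
  have : Nonempty (Fin r → ι) := ⟨J₀⟩
  obtain ⟨J, hJ⟩ := Finite.exists_max (fun J : Fin r → ι => |(M.submatrix id J).det|)
  exact ⟨J, le_antisymm (mm_le M (abs_nonneg _) hJ) (abs_det_le_mm M J)⟩

lemma ee_nonneg (M : Matrix (Fin r) ι ℝ) (φ : Fin r → ℝ) : 0 ≤ ee M φ := norm_nonneg _

lemma abs_det_le_ee (M : Matrix (Fin r) ι ℝ) (φ : Fin r → ℝ) (J : Fin r → ι) (i : Fin r) :
    |((M.submatrix id J).updateCol i φ).det| ≤ ee M φ :=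
  norm_le_pi_norm (fun p : (Fin r → ι) × Fin r => ((M.submatrix id p.1).updateCol p.2 φ).det)
    (J, i)

lemma ee_le (M : Matrix (Fin r) ι ℝ) (φ : Fin r → ℝ) {c : ℝ} (hc : 0 ≤ c)
    (h : ∀ (J : Fin r → ι) (i : Fin r), |((M.submatrix id J).updateCol i φ).det| ≤ c) :
    ee M φ ≤ c :=
  (pi_norm_le_iff_of_nonneg hc).2 (fun p => h p.1 p.2)

lemma exists_ee_eq (M : Matrix (Fin r) ι ℝ) (φ : Fin r → ℝ) (h : 0 < ee M φ) :
    ∃ (J : Fin r → ι) (i : Fin r), ee M φ = |((M.submatrix id J).updateCol i φ).det| := by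
  have : Nonempty ((Fin r → ι) × Fin r) := by
    by_contra hn
    rw [not_nonempty_iff] at hn
    have : ee M φ ≤ 0 := ee_le M φ le_rfl (fun J i => (hn.false (J, i)).elim)
    linarith
  obtain ⟨p, hp⟩ := Finite.exists_max
    (fun p : (Fin r → ι) × Fin r => |((M.submatrix id p.1).updateCol p.2 φ).det|)
  exact ⟨p.1, p.2, le_antisymm (ee_le M φ (abs_nonneg _) (fun J i => hp (J, i)))
    (abs_det_le_ee M φ _ _)⟩

lemma mm_mul (A : Matrix (Fin r) (Fin r) ℝ) (M : Matrix (Fin r) ι ℝ) :
    mm (A * M) = |A.det| * mm M := by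
  unfold mm
  have : (fun J : Fin r → ι => ((A * M).submatrix id J).det) =
      A.det • (fun J : Fin r → ι => (M.submatrix id J).det) := by
    funext J
    have : (A * M).submatrix id J = A * M.submatrix id J := by
      ext i j; simp [Matrix.mul_apply]
    rw [this, det_mul]; rfl
  rw [this, norm_smul, Real.norm_eq_abs]

lemma ee_mul (A : Matrix (Fin r) (Fin r) ℝ) (M : Matrix (Fin r) ι ℝ) (φ : Fin r → ℝ) :
    ee (A * M) (A *ᵥ φ) = |A.det| * ee M φ := by
  unfold ee
  have : (fun p : (Fin r → ι) × Fin r => (((A * M).submatrix id p.1).updateCol p.2 (A *ᵥ φ)).det) =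
      A.det • (fun p : (Fin r → ι) × Fin r => ((M.submatrix id p.1).updateCol p.2 φ).det) := by
    funext p
    have : ((A * M).submatrix id p.1).updateCol p.2 (A *ᵥ φ) =
        A * (M.submatrix id p.1).updateCol p.2 φ := by
      ext i j
      by_cases hj : j = p.2
      · subst hj; simp [Matrix.mul_apply, Matrix.mulVec, dotProduct]
      · simp [Matrix.mul_apply, hj]
    rw [this, det_mul]; rfl
  rw [this, norm_smul, Real.norm_eq_abs]

lemma mm_zero_rows (M : Matrix (Fin 0) ι ℝ) : mm M = 1 := by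
  apply le_antisymm
  · exact mm_le M zero_le_one (fun J => by simp)
  · have := abs_det_le_mm M (fun i => i.elim0)
    simpa using this

/-- Laplace expansion along the first row. -/
lemma mm_succ_le (M : Matrix (Fin (r + 1)) ι ℝ) :
    mm M ≤ (r + 1) * ‖M 0‖ * mm (M.submatrix Fin.succ id) := by
  have h0 := mm_nonneg (M.submatrix Fin.succ id)
  refine mm_le M (by positivity) fun J => ?_
  rw [det_succ_row_zero]
  refine (Finset.abs_sum_le_sum_abs _ _).trans ?_
  have : ∀ j : Fin (r + 1), |(-1 : ℝ) ^ (j : ℕ) * (M.submatrix id J) 0 j *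
      ((M.submatrix id J).submatrix Fin.succ j.succAbove).det| ≤
      ‖M 0‖ * mm (M.submatrix Fin.succ id) := by
    intro j
    rw [abs_mul, abs_mul, abs_pow, abs_neg, abs_one, one_pow, one_mul]
    refine mul_le_mul (norm_le_pi_norm (M 0) (J j)) ?_ (abs_nonneg _) (norm_nonneg _)
    exact abs_det_le_mm (M.submatrix Fin.succ id) (J ∘ j.succAbove)
  refine (Finset.sum_le_sum fun j _ => this j).trans ?_
  simp [mul_assoc]

omit [Fintype ι] in
/-- Expansion along a column with a single nonzero entry. -/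
lemma abs_det_updateCol_single (A : Matrix (Fin (r + 1)) (Fin (r + 1)) ℝ) (i i₀ : Fin (r + 1))
    (φ : Fin (r + 1) → ℝ) (hφ : ∀ k, k ≠ i₀ → φ k = 0) :
    |(A.updateCol i φ).det| = |φ i₀| * |(A.submatrix i₀.succAbove i.succAbove).det| := by
  rw [det_succ_column _ i, Finset.sum_eq_single i₀]
  · rw [abs_mul, abs_mul, abs_pow, abs_neg, abs_one, one_pow, one_mul, updateCol_self]
    congr 3
    ext k l
    simp [Fin.succAbove_ne]
  · intro k _ hk
    simp [hφ k hk]
  · simp

/-- A minor with a replaced column which is a combination of the columns. -/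
lemma det_updateCol_mulVec (M : Matrix (Fin r) ι ℝ) (J : Fin r → ι) (i : Fin r) (y : ι → ℝ) :
    ((M.submatrix id J).updateCol i (M *ᵥ y)).det =
      ∑ j, y j * (M.submatrix id (Function.update J i j)).det := by
  classical
  have h1 : M *ᵥ y = ∑ j, y j • (fun k => M k j) := by
    funext k; simp [Matrix.mulVec, dotProduct, mul_comm]
  rw [← cramer_apply, h1, map_sum, Finset.sum_apply]
  refine Finset.sum_congr rfl fun j _ => ?_
  rw [map_smul, Pi.smul_apply, cramer_apply, smul_eq_mul]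
  congr 2
  ext k l
  by_cases hl : l = i
  · subst hl; simp
  · simp [hl]

lemma ee_mulVec_le (M : Matrix (Fin r) ι ℝ) (y : ι → ℝ) :
    ee M (M *ᵥ y) ≤ Fintype.card ι * ‖y‖ * mm M := by
  classical
  have h0 := mm_nonneg M
  refine ee_le _ _ (by positivity) fun J i => ?_
  rw [det_updateCol_mulVec]
  refine (Finset.abs_sum_le_sum_abs _ _).trans ?_
  have : ∀ j, |y j * (M.submatrix id (Function.update J i j)).det| ≤ ‖y‖ * mm M := by
    intro j
    rw [abs_mul]
    exact mul_le_mul (norm_le_pi_norm y j) (abs_det_le_mm _ _) (abs_nonneg _) (norm_nonneg _)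
  refine (Finset.sum_le_sum fun j _ => this j).trans ?_
  simp [mul_assoc]

/-- If `φ` is supported at the first row, then `ee` controls the minors of the other rows. -/
lemma mul_mm_le_ee [Nonempty ι] (M : Matrix (Fin (r + 1)) ι ℝ) (φ : Fin (r + 1) → ℝ)
    (hφ : ∀ k, k ≠ 0 → φ k = 0) : |φ 0| * mm (M.submatrix Fin.succ id) ≤ ee M φ := by
  by_cases h0 : mm (M.submatrix Fin.succ id) = 0
  · rw [h0, mul_zero]; exact ee_nonneg _ _
  obtain ⟨J, hJ⟩ := exists_mm_eq _ (lt_of_le_of_ne (mm_nonneg _) (Ne.symm h0))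
  obtain ⟨j₀⟩ := ‹Nonempty ι›
  have := abs_det_le_ee M φ (Fin.cons j₀ J) 0
  rw [abs_det_updateCol_single _ 0 0 φ hφ] at this
  rw [hJ]
  have e : (M.submatrix Fin.succ id).submatrix id J =
      (M.submatrix id (Fin.cons j₀ J)).submatrix (Fin.succAbove 0) (Fin.succAbove 0) := by
    ext k l; simp
  rw [e]; exact this

/-- Cramer's rule bound. -/
lemma abs_dot_mul_mm_le (M : Matrix (Fin r) ι ℝ) (c φ : Fin r → ℝ) :
    |c ⬝ᵥ φ| * mm M ≤ r * ‖c ᵥ* M‖ * ee M φ := by
  have he := ee_nonneg M φ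
  by_cases h0 : mm M = 0
  · rw [h0, mul_zero]; positivity
  obtain ⟨J, hJ⟩ := exists_mm_eq _ (lt_of_le_of_ne (mm_nonneg _) (Ne.symm h0))
  set N := M.submatrix id J with hN
  have h1 : c ⬝ᵥ (N *ᵥ cramer N φ) = N.det * (c ⬝ᵥ φ) := by
    rw [mulVec_cramer, dotProduct_smul, smul_eq_mul]
  rw [dotProduct_mulVec] at h1
  rw [hJ, ← abs_mul, mul_comm, ← h1]
  unfold dotProduct
  refine (Finset.abs_sum_le_sum_abs _ _).trans ?_
  have : ∀ i, |(c ᵥ* N) i * cramer N φ i| ≤ ‖c ᵥ* M‖ * ee M φ := by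
    intro i
    rw [abs_mul, cramer_apply]
    refine mul_le_mul ?_ (abs_det_le_ee M φ J i) (abs_nonneg _) (norm_nonneg _)
    have : (c ᵥ* N) i = (c ᵥ* M) (J i) := by simp [hN, Matrix.vecMul, dotProduct]
    rw [this]
    exact norm_le_pi_norm (c ᵥ* M) (J i)
  refine (Finset.sum_le_sum fun j _ => this j).trans ?_
  simp [mul_assoc]

end basic

section indep
variable {R : Type*} [CommRing R]

lemma Indep.succ {r : ℕ} {M : Matrix (Fin (r + 1)) ι R} (h : Indep M) :
    Indep (M.submatrix Fin.succ id) := by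
  intro c hc
  have := h (Fin.cons 0 c) (by
    funext j
    have := congrFun hc j
    simpa [Matrix.vecMul, dotProduct, Fin.sum_univ_succ] using this)
  funext i
  simpa using congrFun this i.succ

lemma Indep.exists_det_ne_zero [Nontrivial R] : ∀ {r : ℕ} {M : Matrix (Fin r) ι R}, Indep M →
    ∃ J : Fin r → ι, (M.submatrix id J).det ≠ 0 := by
  intro r
  induction r with
  | zero => intro M _; exact ⟨fun i => i.elim0, by simp⟩
  | succ r ih =>
    intro M h
    obtain ⟨J, hJ⟩ := ih h.succ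
    by_contra hn
    push Not at hn
    have := h (fun i => (-1) ^ (i : ℕ) * (M.submatrix i.succAbove J).det) (by
      funext j
      have := hn (Fin.cons j J)
      rw [det_succ_column_zero] at this
      simp only [Matrix.vecMul, dotProduct, Pi.zero_apply]
      rw [← this]
      refine Finset.sum_congr rfl fun i _ => ?_
      simp only [submatrix_apply, id, Fin.cons_zero, submatrix_submatrix]
      have : (Fin.cons j J : Fin (r + 1) → ι) ∘ Fin.succ = J := by funext l; simp
      rw [this]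
      simp only [Function.id_comp]
      ring)
    have h0 := congrFun this 0
    simp only [Fin.val_zero, pow_zero, one_mul, Pi.zero_apply, Fin.succAbove_zero] at h0
    exact hJ h0

lemma indep_of_det_ne_zero [IsDomain R] {r : ℕ} {M : Matrix (Fin r) ι R} {J : Fin r → ι}
    (h : (M.submatrix id J).det ≠ 0) : Indep M := by
  intro c hc
  by_contra hne
  apply h
  rw [← Matrix.exists_vecMul_eq_zero_iff]
  refine ⟨c, hne, ?_⟩
  funext i
  have := congrFun hc (J i)
  simpa [Matrix.vecMul, dotProduct] using this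

lemma Indep.det_ne_zero_of_mul [IsDomain R] [Fintype ι] {r : ℕ} {A : Matrix (Fin r) (Fin r) R}
    {M : Matrix (Fin r) ι R} (h : Indep (A * M)) : A.det ≠ 0 := by
  intro hA
  obtain ⟨c, hc, hcA⟩ := Matrix.exists_vecMul_eq_zero_iff.2 hA
  apply hc
  apply h
  rw [← vecMul_vecMul, hcA, zero_vecMul]

lemma Indep.mul [IsDomain R] [Fintype ι] {r : ℕ} {A : Matrix (Fin r) (Fin r) R}
    {M : Matrix (Fin r) ι R} (h : Indep M) (hA : A.det ≠ 0) : Indep (A * M) := by
  intro c hc
  rw [← vecMul_vecMul] at hc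
  have := h _ hc
  by_contra hne
  exact hA (Matrix.exists_vecMul_eq_zero_iff.1 ⟨c, hne, this⟩)

end indep

/-- Real matrix attached to an integer matrix. -/
def toR {m n : Type*} (M : Matrix m n ℤ) : Matrix m n ℝ := M.map (fun x => (x : ℝ))

@[simp] lemma toR_apply {m n : Type*} (M : Matrix m n ℤ) (i : m) (j : n) :
    toR M i j = (M i j : ℝ) := rfl

lemma toR_mul {l m n : Type*} [Fintype m] (A : Matrix l m ℤ) (B : Matrix m n ℤ) :
    toR (A * B) = toR A * toR B := by
  ext i j; simp [Matrix.mul_apply]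

lemma det_toR {m : Type*} [Fintype m] [DecidableEq m] (A : Matrix m m ℤ) :
    (toR A).det = (A.det : ℝ) := by
  rw [Int.cast_det]; rfl

lemma one_le_abs_det_toR {m : Type*} [Fintype m] [DecidableEq m] (A : Matrix m m ℤ)
    (h : A.det ≠ 0) : 1 ≤ |(toR A).det| := by
  rw [det_toR, ← Int.cast_abs]
  exact_mod_cast Int.one_le_abs h

lemma Indep.one_le_mm [Fintype ι] {r : ℕ} {M : Matrix (Fin r) ι ℤ} (h : Indep M) :
    1 ≤ mm (toR M) := by
  obtain ⟨J, hJ⟩ := h.exists_det_ne_zero
  exact (one_le_abs_det_toR _ hJ).trans (abs_det_le_mm (toR M) J)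

/-- Euclid's algorithm: an integer vector can be moved to a multiple of the first basis vector. -/
lemma exists_unimod {r : ℕ} (γ : Fin (r + 1) → ℤ) :
    ∃ A : Matrix (Fin (r + 1)) (Fin (r + 1)) ℤ, |A.det| = 1 ∧ ∀ i, i ≠ 0 → (A *ᵥ γ) i = 0 := by
  classical
  generalize hn : ∑ i, (γ i).natAbs = n
  induction n using Nat.strong_induction_on generalizing γ with
  | _ n ih =>
    by_cases h : ∃ i j, i ≠ j ∧ γ i ≠ 0 ∧ γ j ≠ 0
    · obtain ⟨i, j, hij, hi, hj⟩ : ∃ i j, i ≠ j ∧ γ i ≠ 0 ∧ |γ i| ≤ |γ j| := by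
        obtain ⟨i, j, hij, hi, hj⟩ := h
        rcases le_total |γ i| |γ j| with h | h
        · exact ⟨i, j, hij, hi, h⟩
        · exact ⟨j, i, hij.symm, hj, h⟩
      set c : ℤ := if 0 ≤ γ i * γ j then -1 else 1 with hc
      set γ' := transvection j i c *ᵥ γ with hγ'
      have h1 : ∀ k, γ' k = if k = j then γ j + c * γ i else γ k := by
        intro k
        simp only [hγ', transvection, add_mulVec, one_mulVec, Pi.add_apply, single_mulVec]
        by_cases hk : k = j
        · subst hk; simp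
        · simp [hk]
      have h2 : (γ j + c * γ i).natAbs < (γ j).natAbs := by
        have hi' : 0 < |γ i| := abs_pos.2 hi
        zify
        rw [hc]
        split_ifs with hs
        · rcases le_or_gt 0 (γ i) with h3 | h3 <;> rcases le_or_gt 0 (γ j) with h4 | h4
          · rw [abs_of_nonneg h3, abs_of_nonneg h4] at *
            rw [abs_of_nonneg (by linarith)]; linarith
          · rw [abs_of_nonneg h3, abs_of_neg h4] at *; nlinarith
          · rw [abs_of_neg h3, abs_of_nonneg h4] at *; nlinarith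
          · rw [abs_of_neg h3, abs_of_neg h4] at *
            rw [abs_of_nonpos (by linarith)]; linarith
        · push Not at hs
          rcases le_or_gt 0 (γ i) with h3 | h3 <;> rcases le_or_gt 0 (γ j) with h4 | h4
          · nlinarith
          · rw [abs_of_nonneg h3, abs_of_neg h4] at *
            rw [abs_of_nonpos (by linarith)]; linarith
          · rw [abs_of_neg h3, abs_of_nonneg h4] at *
            rw [abs_of_nonneg (by linarith)]; linarith
          · nlinarith
      have h3 : ∑ k, (γ' k).natAbs < n := by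
        rw [← hn]
        refine Finset.sum_lt_sum (fun k _ => ?_) ⟨j, Finset.mem_univ _, ?_⟩
        · rw [h1]; split_ifs with hk
          · subst hk; exact h2.le
          · exact le_rfl
        · rw [h1, if_pos rfl]; exact h2
      obtain ⟨A, hA, hA'⟩ := ih _ h3 γ' rfl
      refine ⟨A * transvection j i c, ?_, ?_⟩
      · rw [det_mul, det_transvection_of_ne _ _ hij.symm, mul_one, hA]
      · intro k hk
        rw [← mulVec_mulVec]; exact hA' k hk
    · push Not at h
      by_cases h0 : ∃ i, γ i ≠ 0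
      · obtain ⟨i, hi⟩ := h0
        refine ⟨(1 : Matrix _ _ ℤ).submatrix (Equiv.swap 0 i) id, ?_, ?_⟩
        · rw [det_permute, det_one, mul_one]
          rcases Int.units_eq_one_or (Equiv.Perm.sign (Equiv.swap 0 i)) with h | h <;> simp [h]
        · intro k hk
          have : ((1 : Matrix _ _ ℤ).submatrix (Equiv.swap 0 i) id *ᵥ γ) k =
              γ (Equiv.swap 0 i k) := by
            simp [Matrix.mulVec, dotProduct, Matrix.one_apply]
          rw [this]
          apply h i _ _ hi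
          intro hik
          apply hk
          have : Equiv.swap 0 i k = Equiv.swap 0 i 0 := by rw [← hik]; simp
          exact (Equiv.swap 0 i).injective this
      · push Not at h0
        exact ⟨1, by simp, fun i _ => by simp [h0]⟩

end Pool.Agent.MP_b9de27_nt

end

-- part MP_b9de27_nt.KM
section

/-!
Quantitative nondivergence for polynomial families of lattices, for vectors and covectors.
-/

set_option autoImplicit false

open Matrix MeasureTheory Set Module Polynomial

namespace Pool.Agent.MP_b9de27_nt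

variable {ι : Type*}

/-- Rational vector attached to an integer vector. -/
def castV (v : ι → ℤ) : ι → ℚ := fun i => (v i : ℚ)

/-- Real vector attached to an integer vector. -/
def vR (v : ι → ℤ) : ι → ℝ := fun i => (v i : ℝ)

/-- `castV` as a linear map. -/
def castL (ι : Type*) : (ι → ℤ) →ₗ[ℤ] (ι → ℚ) where
  toFun := castV
  map_add' := by intro a b; funext i; simp [castV]
  map_smul' := by intro a b; funext i; simp [castV]

lemma castL_inj : Function.Injective (castL ι) := by
  intro a b h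
  funext i
  have := congrFun h i
  simpa [castL, castV] using this

lemma Indep.linearIndependent {r : ℕ} {M : Matrix (Fin r) ι ℤ} (h : Indep M) :
    LinearIndependent ℚ (fun i => castV (M i)) := by
  have h1 : LinearIndependent ℤ (fun i => M i) := by
    rw [Fintype.linearIndependent_iff]
    intro g hg i
    have := h g (by
      funext j
      have := congrFun hg j
      simpa [Matrix.vecMul, dotProduct, Finset.sum_apply] using this)
    exact congrFun this i
  have h2 := h1.map' (castL ι) (LinearMap.ker_eq_bot.2 castL_inj)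
  exact (LinearIndependent.iff_fractionRing ℤ ℚ).1 h2

lemma castV_vecMul {r : ℕ} (c : Fin r → ℤ) (M : Matrix (Fin r) ι ℤ) :
    castV (c ᵥ* M) = ∑ i, (c i : ℚ) • castV (M i) := by
  funext j
  simp [castV, Matrix.vecMul, dotProduct, Finset.sum_apply]

lemma exists_basis [Fintype ι] (W : Submodule ℚ (ι → ℚ)) :
    ∃ M : Matrix (Fin (finrank ℚ W)) ι ℤ, (∀ i, castV (M i) ∈ W) ∧ Indep M ∧
      (∀ v : ι → ℤ, castV v ∈ W → ∃ c, v = c ᵥ* M) ∧
      W ≤ Submodule.span ℚ (Set.range fun i => castV (M i)) := by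
  classical
  set L : Submodule ℤ (ι → ℤ) := (W.restrictScalars ℤ).comap (castL ι) with hL
  have key : ∀ (r : ℕ) (b : Basis (Fin r) ℤ L), (∀ i, castV (b i : ι → ℤ) ∈ W) ∧
      Indep (Matrix.of fun i => (b i : ι → ℤ)) ∧
      (∀ v : ι → ℤ, castV v ∈ W → ∃ c, v = c ᵥ* (Matrix.of fun i => (b i : ι → ℤ))) ∧
      W ≤ Submodule.span ℚ (Set.range fun i => castV (b i : ι → ℤ)) := by
    intro r b
    have h1 : ∀ i, castV (b i : ι → ℤ) ∈ W := fun i => (b i).2
    have h3 : ∀ v : ι → ℤ, castV v ∈ W →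
        ∃ c, v = c ᵥ* (Matrix.of fun i => (b i : ι → ℤ)) := by
      intro v hv
      refine ⟨fun i => b.repr ⟨v, hv⟩ i, ?_⟩
      have := congrArg (fun x : L => (x : ι → ℤ)) (b.sum_repr ⟨v, hv⟩)
      simp only [AddSubmonoidClass.coe_finsetSum, SetLike.val_smul] at this
      funext j
      have h := congrFun this j
      simp only [Finset.sum_apply, Pi.smul_apply, smul_eq_mul] at h
      simp only [Matrix.vecMul, dotProduct, of_apply]
      exact h.symm
    refine ⟨h1, ?_, h3, ?_⟩
    · intro c hc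
      have hli := b.linearIndependent.map' L.subtype (Submodule.ker_subtype L)
      rw [Fintype.linearIndependent_iff] at hli
      funext i
      refine hli c ?_ i
      funext j
      have := congrFun hc j
      simpa [Matrix.vecMul, dotProduct, Finset.sum_apply] using this
    · intro w hw
      obtain ⟨d, hd⟩ := IsLocalization.exist_integer_multiples_of_finite (nonZeroDivisors ℤ) w
      choose v hv using hd
      have hd0 : ((d : ℤ) : ℚ) ≠ 0 := by
        exact_mod_cast nonZeroDivisors.coe_ne_zero d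
      have e : castV v = ((d : ℤ) : ℚ) • w := by
        funext i
        have := hv i
        simpa [castV] using this
      obtain ⟨c, hc⟩ := h3 v (by rw [e]; exact W.smul_mem _ hw)
      have : w = ((d : ℤ) : ℚ)⁻¹ • castV v := by rw [e, smul_smul, inv_mul_cancel₀ hd0, one_smul]
      rw [this, hc, castV_vecMul]
      refine Submodule.smul_mem _ _ (Submodule.sum_mem _ fun i _ => Submodule.smul_mem _ _ ?_)
      exact Submodule.subset_span ⟨i, rfl⟩
  have hr : finrank ℤ L = finrank ℚ W := by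
    obtain ⟨h1, h2, _, h4⟩ := key _ (Module.finBasis ℤ L)
    have h5 : Submodule.span ℚ (Set.range fun i => castV (Module.finBasis ℤ L i : ι → ℤ)) = W := by
      refine le_antisymm (Submodule.span_le.2 ?_) h4
      rintro _ ⟨i, rfl⟩; exact h1 i
    have h6 := finrank_span_eq_card h2.linearIndependent
    simp only [Fintype.card_fin] at h6
    rw [← h6]
    have : (Submodule.span ℚ (Set.range fun i =>
        castV ((Matrix.of fun i => (Module.finBasis ℤ L i : ι → ℤ)) i))) = W := h5
    rw [this]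
  exact ⟨_, key _ (Module.finBasisOfFinrankEq ℤ L hr)⟩

/-- A basis matrix of the lattice of integer points of `W`. -/
noncomputable def basisM [Fintype ι] (W : Submodule ℚ (ι → ℚ)) :
    Matrix (Fin (finrank ℚ W)) ι ℤ := (exists_basis W).choose

lemma basisM_mem [Fintype ι] (W : Submodule ℚ (ι → ℚ)) (i : Fin (finrank ℚ W)) :
    castV (basisM W i) ∈ W := (exists_basis W).choose_spec.1 i

lemma basisM_indep [Fintype ι] (W : Submodule ℚ (ι → ℚ)) : Indep (basisM W) :=
  (exists_basis W).choose_spec.2.1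

lemma basisM_span [Fintype ι] (W : Submodule ℚ (ι → ℚ)) :
    W ≤ Submodule.span ℚ (Set.range fun i => castV (basisM W i)) :=
  (exists_basis W).choose_spec.2.2.2

/-- The covolume of the image of the lattice of integer points of `W`. -/
noncomputable def cov [Fintype ι] (W : Submodule ℚ (ι → ℚ)) (h : Matrix ι ι ℝ) : ℝ :=
  mm (toR (basisM W) * h)

lemma cov_le [Fintype ι] (W : Submodule ℚ (ι → ℚ)) (h : Matrix ι ι ℝ) {r : ℕ}
    (hr : finrank ℚ W = r) (M : Matrix (Fin r) ι ℤ) (hM : ∀ i, castV (M i) ∈ W) (hI : Indep M) :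
    cov W h ≤ mm (toR M * h) := by
  subst hr
  choose c hc using fun i => (exists_basis W).choose_spec.2.2.1 (M i) (hM i)
  have e : M = Matrix.of c * basisM W := by
    ext i j
    have := congrFun (hc i) j
    rw [this]; rfl
  have hdet : (Matrix.of c).det ≠ 0 := by
    apply Indep.det_ne_zero_of_mul (M := basisM W); rwa [← e]
  rw [e, toR_mul, Matrix.mul_assoc, mm_mul]
  have := one_le_abs_det_toR _ hdet
  have h0 : 0 ≤ mm (toR (basisM W) * h) := mm_nonneg _
  unfold cov
  nlinarith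

lemma exists_cov_eq [Fintype ι] (W : Submodule ℚ (ι → ℚ)) {r : ℕ} (hr : finrank ℚ W = r) :
    ∃ M : Matrix (Fin r) ι ℤ, (∀ i, castV (M i) ∈ W) ∧ Indep M ∧
      W ≤ Submodule.span ℚ (Set.range fun i => castV (M i)) ∧
      ∀ h : Matrix ι ι ℝ, cov W h = mm (toR M * h) := by
  subst hr
  exact ⟨basisM W, basisM_mem W, basisM_indep W, basisM_span W, fun _ => rfl⟩

lemma cov_sup_le {k : ℕ} (W : Submodule ℚ (Fin k → ℚ)) (h : Matrix (Fin k) (Fin k) ℝ)
    (v : Fin k → ℤ) (hv : castV v ∉ W) :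
    cov (W ⊔ Submodule.span ℚ {castV v}) h ≤ k * ‖vR v ᵥ* h‖ * cov W h := by
  have hr := Submodule.finrank_sup_span_singleton (K := ℚ) hv
  have hk : finrank ℚ W + 1 ≤ k := by
    rw [← hr]
    have := Submodule.finrank_le (W ⊔ Submodule.span ℚ {castV v})
    simpa using this
  set M : Matrix (Fin (finrank ℚ W + 1)) (Fin k) ℤ :=
    Matrix.of (Fin.cons v (fun i => basisM W i)) with hM
  have hI : Indep M := by
    intro c hc
    have h1 := castV_vecMul c M
    rw [hc, Fin.sum_univ_succ] at h1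
    have h0 : castV (0 : Fin k → ℤ) = 0 := by funext i; simp [castV]
    rw [h0] at h1
    have hc0 : c 0 = 0 := by
      by_contra hne
      apply hv
      have hne' : (c 0 : ℚ) ≠ 0 := by exact_mod_cast hne
      have h2 : (c 0 : ℚ) • castV v ∈ W := by
        have : (c 0 : ℚ) • castV v = - ∑ i : Fin (finrank ℚ W), (c i.succ : ℚ) • castV (M i.succ) :=
          eq_neg_of_add_eq_zero_left h1.symm
        rw [this]
        exact W.neg_mem (W.sum_mem fun i _ => W.smul_mem _ (basisM_mem W i))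
      exact (W.smul_mem_iff hne').1 h2
    have := basisM_indep W (fun i => c i.succ) (by
      funext j
      have := congrFun hc j
      simpa [hM, Matrix.vecMul, dotProduct, Fin.sum_univ_succ, hc0] using this)
    funext i
    refine Fin.cases hc0 (fun i => congrFun this i) i
  have h1 := cov_le _ h hr M (by
    intro i
    refine Fin.cases ?_ (fun i => ?_) i
    · exact Submodule.mem_sup_right (Submodule.mem_span_singleton_self _)
    · exact Submodule.mem_sup_left (basisM_mem W i)) hI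
  refine h1.trans ((mm_succ_le _).trans ?_)
  have e1 : (toR M * h) 0 = vR v ᵥ* h := by
    funext j; simp [hM, Matrix.mul_apply, Matrix.vecMul, dotProduct, vR]
  have e2 : (toR M * h).submatrix Fin.succ id = toR (basisM W) * h := by
    ext i j; simp [hM, Matrix.mul_apply]
  rw [e1, e2]
  have h0 : 0 ≤ mm (toR (basisM W) * h) := mm_nonneg _
  have hk' : ((finrank ℚ W : ℕ) : ℝ) + 1 ≤ k := by exact_mod_cast hk
  unfold cov
  gcongr

/-- The hyperplane orthogonal to an integer vector. -/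
def hyp [Fintype ι] (x : ι → ℤ) : Submodule ℚ (ι → ℚ) where
  carrier := {w | w ⬝ᵥ castV x = 0}
  add_mem' := by intro a b ha hb; simp only [mem_ofPred_eq] at *; rw [add_dotProduct, ha, hb, add_zero]
  zero_mem' := by simp
  smul_mem' := by intro c a ha; simp only [mem_ofPred_eq] at *; rw [smul_dotProduct, ha, smul_zero]

lemma mem_hyp [Fintype ι] (x v : ι → ℤ) : castV v ∈ hyp x ↔ v ⬝ᵥ x = 0 := by
  change castV v ⬝ᵥ castV x = 0 ↔ _
  have : castV v ⬝ᵥ castV x = ((v ⬝ᵥ x : ℤ) : ℚ) := by simp [castV, dotProduct]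
  rw [this]; exact_mod_cast Iff.rfl

lemma cov_inf_le {k : ℕ} (W : Submodule ℚ (Fin k → ℚ)) (h : Matrix (Fin k) (Fin k) ℝ)
    (x : Fin k → ℤ) (hx : ¬ W ≤ hyp x) (y : Fin k → ℝ) (hy : h *ᵥ y = vR x) :
    cov (W ⊓ hyp x) h ≤ k * ‖y‖ * cov W h := by
  have hlt : W ⊓ hyp x < W := lt_of_le_of_ne inf_le_left (fun e => hx (inf_eq_left.1 e))
  have hlt' := Submodule.finrank_lt_finrank_of_lt hlt
  obtain ⟨r, hr⟩ : ∃ r, finrank ℚ W = r + 1 := ⟨finrank ℚ W - 1, by omega⟩
  obtain ⟨M, hM, hI, hsp, hcov⟩ := exists_cov_eq W hr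
  have hγ : M *ᵥ x ≠ 0 := by
    intro h0
    apply hx
    refine hsp.trans (Submodule.span_le.2 ?_)
    rintro _ ⟨i, rfl⟩
    exact (mem_hyp x (M i)).2 (congrFun h0 i)
  obtain ⟨A, hA, hA'⟩ := exists_unimod (M *ᵥ x)
  have hA0 : A.det ≠ 0 := by intro h0; simp [h0] at hA
  rw [mulVec_mulVec] at hA'
  have hg : ((A * M) *ᵥ x) 0 ≠ 0 := by
    intro h0
    have : A *ᵥ (M *ᵥ x) = 0 := by
      rw [mulVec_mulVec]
      funext i
      by_cases hi : i = 0
      · rw [hi]; exact h0
      · exact hA' i hi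
    exact hA0 (Matrix.exists_mulVec_eq_zero_iff.1 ⟨_, hγ, this⟩)
  have hI' : Indep (A * M) := hI.mul hA0
  set U := (A * M).submatrix Fin.succ id with hU
  have hUmem : ∀ i, castV (U i) ∈ W ⊓ hyp x := by
    intro i
    refine ⟨?_, (mem_hyp x (U i)).2 (hA' i.succ (Fin.succ_ne_zero i))⟩
    have : U i = A i.succ ᵥ* M := by funext j; simp [hU, Matrix.mul_apply, Matrix.vecMul, dotProduct]
    rw [this, castV_vecMul]
    exact W.sum_mem fun l _ => W.smul_mem _ (hM l)
  have hrk : finrank ℚ (W ⊓ hyp x : Submodule ℚ (Fin k → ℚ)) = r := by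
    have hli : LinearIndependent ℚ
        (fun i => (⟨castV (U i), hUmem i⟩ : (W ⊓ hyp x : Submodule ℚ (Fin k → ℚ)))) :=
      LinearIndependent.of_comp (W ⊓ hyp x).subtype hI'.succ.linearIndependent
    have := hli.fintype_card_le_finrank
    simp only [Fintype.card_fin] at this
    omega
  have h1 := cov_le _ h hrk U hUmem hI'.succ
  have hne : Nonempty (Fin k) := by
    by_contra hn
    rw [not_nonempty_iff] at hn
    apply hγ
    funext i; simp [Matrix.mulVec, dotProduct]
  have e0 : (toR (A * M) * h) *ᵥ y = vR ((A * M) *ᵥ x) := by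
    rw [← mulVec_mulVec, hy]
    funext i; simp [Matrix.mulVec, dotProduct, vR]
  have h2 := mul_mm_le_ee (toR (A * M) * h) ((toR (A * M) * h) *ᵥ y) (by
    intro i hi
    rw [e0]; simp [vR, hA' i hi])
  have h3 := ee_mulVec_le (toR (A * M) * h) y
  have e1 : (toR (A * M) * h).submatrix Fin.succ id = toR U * h := by
    ext i j; simp [hU, Matrix.mul_apply]
  have e2 : mm (toR (A * M) * h) = cov W h := by
    rw [hcov, toR_mul, Matrix.mul_assoc, mm_mul, det_toR, ← Int.cast_abs, hA]; simp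
  have h4 : 1 ≤ |((toR (A * M) * h) *ᵥ y) 0| := by
    rw [e0]; simp only [vR]
    rw [← Int.cast_abs]; exact_mod_cast Int.one_le_abs hg
  rw [e1] at h2
  rw [e2, Fintype.card_fin] at h3
  have h0 := mm_nonneg (toR U * h)
  nlinarith

/-- Real functions given by a polynomial of degree at most `d`. -/
def PolyFun (d : ℕ) (f : ℝ → ℝ) : Prop := ∃ p : ℝ[X], p.natDegree ≤ d ∧ ∀ x, f x = p.eval x

lemma PolyFun.continuous {d : ℕ} {f : ℝ → ℝ} (h : PolyFun d f) : Continuous f := by
  obtain ⟨p, _, hp⟩ := h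
  have : f = fun x => p.eval x := funext hp
  rw [this]; exact p.continuous

/-- No short vector and no short covector. -/
def Safe {k : ℕ} (h : Matrix (Fin k) (Fin k) ℝ) (η ε K : ℝ) : Prop :=
  (∀ v : Fin k → ℤ, v ≠ 0 → ε * η ≤ k * ‖vR v ᵥ* h‖ * max (K * η) 1) ∧
  (∀ x : Fin k → ℤ, x ≠ 0 → ∀ y : Fin k → ℝ, h *ᵥ y = vR x →
    ε * η ≤ k * ‖y‖ * max (K * η) (mm h))

lemma chain_exists_max {V : Type*} [AddCommGroup V] [Module ℚ V] [FiniteDimensional ℚ V]
    (F : Finset (Submodule ℚ V)) (hF : IsChain (· ≤ ·) (↑F : Set (Submodule ℚ V)))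
    (hne : F.Nonempty) : (∃ W ∈ F, ∀ W' ∈ F, W' ≤ W) ∧ (∃ W ∈ F, ∀ W' ∈ F, W ≤ W') := by
  constructor
  · obtain ⟨W, hW, hmax⟩ := F.exists_max_image (fun W => finrank ℚ W) hne
    refine ⟨W, hW, fun W' hW' => ?_⟩
    rcases hF.total (Finset.mem_coe.2 hW') (Finset.mem_coe.2 hW) with h | h
    · exact h
    · exact (Submodule.eq_of_le_of_finrank_le h (hmax W' hW')).ge
  · obtain ⟨W, hW, hmin⟩ := F.exists_min_image (fun W => finrank ℚ W) hne
    refine ⟨W, hW, fun W' hW' => ?_⟩
    rcases hF.total (Finset.mem_coe.2 hW') (Finset.mem_coe.2 hW) with h | h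
    · exact (Submodule.eq_of_le_of_finrank_le h (hmin W' hW')).ge
    · exact h

lemma safe_of_marked {k : ℕ} (h : ℝ → Matrix (Fin k) (Fin k) ℝ) (η ε K t : ℝ) (hη : 0 < η)
    (hε : ε ≤ 1) (hm : Marked (fun W t => cov W (h t) / η) univ ε K t) : Safe (h t) η ε K := by
  classical
  obtain ⟨F, -, hFc, hF1, hF2⟩ := hm
  have hlow : ∀ Δ, (∀ f ∈ F, Δ ≤ f ∨ f ≤ Δ) → ε * η ≤ cov Δ (h t) := by
    intro Δ hΔ
    rw [← le_div_iff₀ hη]
    by_cases hmem : Δ ∈ F
    · exact (hF1 Δ hmem).1
    · exact hε.trans (hF2 Δ (mem_univ _) hmem hΔ)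
  have hup : ∀ W ∈ F, cov W (h t) ≤ K * η := by
    intro W hW
    rw [← div_le_iff₀ hη]; exact (hF1 W hW).2
  constructor
  · intro v hv
    obtain ⟨W₀, h1, h2, h3, h4⟩ : ∃ W₀ : Submodule ℚ (Fin k → ℚ), castV v ∉ W₀ ∧
        (∀ W ∈ F, castV v ∉ W → W ≤ W₀) ∧ (∀ W ∈ F, castV v ∈ W → W₀ ≤ W) ∧
        cov W₀ (h t) ≤ max (K * η) 1 := by
      by_cases hne : (F.filter (fun W => castV v ∉ W)).Nonempty
      · obtain ⟨W₀, hW₀, hmax⟩ := (chain_exists_max _ (hFc.mono (by
          intro W hW; exact (Finset.mem_filter.1 hW).1)) hne).1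
        rw [Finset.mem_filter] at hW₀
        refine ⟨W₀, hW₀.2, fun W hW hv => hmax W (Finset.mem_filter.2 ⟨hW, hv⟩), ?_,
          (hup W₀ hW₀.1).trans (le_max_left _ _)⟩
        intro W hW hvW
        rcases hFc.total (Finset.mem_coe.2 hW) (Finset.mem_coe.2 hW₀.1) with h | h
        · exact absurd (h hvW) hW₀.2
        · exact h
      · refine ⟨⊥, ?_, ?_, fun _ _ _ => bot_le, ?_⟩
        · intro h0
          apply hv
          apply castL_inj
          rw [map_zero]
          exact (Submodule.mem_bot ℚ).1 h0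
        · intro W hW hvW
          exact absurd ⟨W, Finset.mem_filter.2 ⟨hW, hvW⟩⟩ hne
        · obtain ⟨M, -, -, -, hM⟩ := exists_cov_eq (⊥ : Submodule ℚ (Fin k → ℚ)) (r := 0) (by simp)
          rw [hM, mm_zero_rows]; exact le_max_right _ _
    have h5 := hlow (W₀ ⊔ Submodule.span ℚ {castV v}) (by
      intro W hW
      by_cases hvW : castV v ∈ W
      · left
        exact sup_le (h3 W hW hvW) ((Submodule.span_singleton_le_iff_mem _ _).2 hvW)
      · right
        exact (h2 W hW hvW).trans le_sup_left)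
    refine h5.trans ((cov_sup_le W₀ (h t) v h1).trans ?_)
    gcongr
  · intro x hx y hy
    obtain ⟨W₁, h1, h2, h3, h4⟩ : ∃ W₁ : Submodule ℚ (Fin k → ℚ), ¬ W₁ ≤ hyp x ∧
        (∀ W ∈ F, ¬ W ≤ hyp x → W₁ ≤ W) ∧ (∀ W ∈ F, W ≤ hyp x → W ≤ W₁) ∧
        cov W₁ (h t) ≤ max (K * η) (mm (h t)) := by
      by_cases hne : (F.filter (fun W => ¬ W ≤ hyp x)).Nonempty
      · obtain ⟨W₀, hW₀, hmin⟩ := (chain_exists_max _ (hFc.mono (by
          intro W hW; exact (Finset.mem_filter.1 hW).1)) hne).2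
        rw [Finset.mem_filter] at hW₀
        refine ⟨W₀, hW₀.2, fun W hW hv => hmin W (Finset.mem_filter.2 ⟨hW, hv⟩), ?_,
          (hup W₀ hW₀.1).trans (le_max_left _ _)⟩
        intro W hW hvW
        rcases hFc.total (Finset.mem_coe.2 hW) (Finset.mem_coe.2 hW₀.1) with h | h
        · exact h
        · exact absurd (h.trans hvW) hW₀.2
      · refine ⟨⊤, ?_, ?_, fun _ _ _ => le_top, ?_⟩
        · intro h0
          apply hx
          have := (mem_hyp x x).1 (h0 (Submodule.mem_top))
          exact dotProduct_self_eq_zero.1 this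
        · intro W hW hvW
          exact absurd ⟨W, Finset.mem_filter.2 ⟨hW, hvW⟩⟩ hne
        · have := cov_le ⊤ (h t) (r := k) (by simp) 1 (fun _ => Submodule.mem_top)
            (fun c hc => by simpa using hc)
          have e : toR (1 : Matrix (Fin k) (Fin k) ℤ) = 1 := by
            ext i j; simp [Matrix.one_apply]
          rw [e, Matrix.one_mul] at this
          exact this.trans (le_max_right _ _)
    have h5 := hlow (W₁ ⊓ hyp x) (by
      intro W hW
      by_cases hvW : W ≤ hyp x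
      · right
        exact le_inf (h3 W hW hvW) hvW
      · left
        exact inf_le_left.trans (h2 W hW hvW))
    refine h5.trans ((cov_inf_le W₁ (h t) x h1 y hy).trans ?_)
    gcongr

theorem km_lattice (k N : ℕ) : ∃ C K : ℝ, 0 < C ∧ 0 < K ∧
    ∀ (h : ℝ → Matrix (Fin k) (Fin k) ℝ) (η u : ℝ), 0 < η → 0 < u → u ≤ 1 →
    (∀ (r : ℕ) (M : Matrix (Fin r) (Fin k) ℤ) (J : Fin r → Fin k), r ≤ k →
      PolyFun N (fun t => ((toR M * h t).submatrix id J).det)) →
    (∀ (r : ℕ) (M : Matrix (Fin r) (Fin k) ℤ), r ≤ k → Indep M →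
      ∃ t ∈ Icc (0 : ℝ) 1, η ≤ mm (toR M * h t)) →
    volume {t | t ∈ Icc (0 : ℝ) 1 ∧ ¬ Safe (h t) η (u ^ N) K} ≤ ENNReal.ofReal (C * u) := by
  classical
  refine ⟨((k + 1 : ℕ) : ℝ) * 15 ^ (k + 1) * (4 * N + 2), (10 * (4 * N + 2) + 1) ^ N,
    by positivity, by positivity, ?_⟩
  intro h η u hη hu hu1 hpoly hsup
  have hrk : ∀ W : Submodule ℚ (Fin k → ℚ), finrank ℚ W ≤ k := by
    intro W
    simpa using Submodule.finrank_le W
  have main := km_abstract (fun (W : Submodule ℚ (Fin k → ℚ)) t => cov W (h t) / η) N (4 * N + 2)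
    (by positivity) (by
      intro W
      refine Continuous.div_const ?_ _
      exact Continuous.norm (continuous_pi fun J => (hpoly _ _ J (hrk W)).continuous)) (by
      intro W a b c u' hab hc hu' ⟨t, ht, hct⟩
      rw [le_div_iff₀ hη] at hct
      have hpos : 0 < cov W (h t) := lt_of_lt_of_le (by positivity) hct
      obtain ⟨J, hJ⟩ := exists_mm_eq _ hpos
      obtain ⟨p, hp, hp'⟩ := hpoly _ (basisM W) J (hrk W)
      have := isGood_poly N p hp a b (c * η) u' hab (by positivity) hu' ⟨t, ht, by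
        simp only
        rw [← hp' t]
        simp only
        rw [← hJ]; exact hct⟩
      refine (measure_mono ?_).trans this
      intro s ⟨hs, hs'⟩
      refine ⟨hs, ?_⟩
      rw [div_lt_iff₀ hη] at hs'
      simp only
      rw [← hp' s, ← mul_assoc]
      exact lt_of_le_of_lt (abs_det_le_mm _ J) hs') u hu (k + 1) univ (by
      intro F _ hF
      have : F.card ≤ (Finset.range (k + 1)).card := by
        refine Finset.card_le_card_of_injOn (fun W => finrank ℚ W) ?_ ?_
        · intro W _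
          simp only [Finset.coe_range, mem_Iio]
          exact Nat.lt_succ_of_le (hrk W)
        · intro W hW W' hW' e
          rcases hF.total hW hW' with h | h
          · exact Submodule.eq_of_le_of_finrank_le h (le_of_eq e.symm)
          · exact (Submodule.eq_of_le_of_finrank_le h (le_of_eq e)).symm
      simpa using this) 0 1 one_pos (by
      intro W _
      obtain ⟨t, ht, h1⟩ := hsup _ (basisM W) (hrk W) (basisM_indep W)
      exact ⟨t, ht, by rw [le_div_iff₀ hη, one_mul]; exact h1⟩)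
  refine (measure_mono ?_).trans (main.trans (le_of_eq ?_))
  · intro t ⟨ht, hn⟩
    exact ⟨ht, fun hm => hn (safe_of_marked h η _ _ t hη (pow_le_one₀ hu.le hu1) hm)⟩
  · congr 1; ring

end Pool.Agent.MP_b9de27_nt

end

-- part MP_b9de27_nt.Sub
section

/-!
The action of two by two matrices on binary forms of degree `n`, and polynomial functions of two
real variables restricted to Kronecker curves.
-/

set_option autoImplicit false

open Matrix Set Polynomial

namespace Pool.Agent.MP_b9de27_nt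

/-- Row `i` lists the coefficients of `(a X + b) ^ i * (c X + d) ^ (n - i)`. -/
def sub {R : Type*} [CommRing R] (n : ℕ) (a b c d : R) : Matrix (Fin (n + 1)) (Fin (n + 1)) R :=
  fun i j => ∑ p ∈ Finset.HasAntidiagonal.antidiagonal (j : ℕ),
    (((i : ℕ).choose p.1 : R) * a ^ p.1 * b ^ ((i : ℕ) - p.1)) *
      (((n - i).choose p.2 : R) * c ^ p.2 * d ^ (n - i - p.2))

lemma coeff_lin_pow {R : Type*} [CommRing R] (a b : R) (i u : ℕ) :
    ((C a * X + C b) ^ i).coeff u = (i.choose u : R) * a ^ u * b ^ (i - u) := by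
  rw [add_pow, finsetSum_coeff]
  have : ∀ m, ((C a * X) ^ m * C b ^ (i - m) * (i.choose m : R[X])).coeff u =
      if u = m then (i.choose m : R) * a ^ m * b ^ (i - m) else 0 := by
    intro m
    have : (C a * X) ^ m * C b ^ (i - m) * (i.choose m : R[X]) =
        C ((i.choose m : R) * a ^ m * b ^ (i - m)) * X ^ m := by
      simp only [map_mul, map_pow, map_natCast, mul_pow]; ring
    rw [this, coeff_C_mul_X_pow]
  simp only [this]
  rw [Finset.sum_ite_eq]
  split_ifs with h
  · rfl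
  · rw [Finset.mem_range, not_lt] at h
    rw [Nat.choose_eq_zero_of_lt (by omega)]; simp

lemma sub_eq_coeff {R : Type*} [CommRing R] (n : ℕ) (a b c d : R) (i j : Fin (n + 1)) :
    sub n a b c d i j = ((C a * X + C b) ^ (i : ℕ) * (C c * X + C d) ^ (n - i)).coeff j := by
  rw [coeff_mul]; simp only [coeff_lin_pow]; rfl

lemma natDegree_lin_le {R : Type*} [CommRing R] (n : ℕ) (a b c d : R) (i : Fin (n + 1)) :
    ((C a * X + C b) ^ (i : ℕ) * (C c * X + C d) ^ (n - i)).natDegree ≤ n := by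
  have h1 : (C a * X + C b).natDegree ≤ 1 := natDegree_linear_le
  have h2 : (C c * X + C d).natDegree ≤ 1 := natDegree_linear_le
  have h3 := natDegree_pow_le_of_le (i : ℕ) h1
  have h4 := natDegree_pow_le_of_le (n - i) h2
  have := i.2
  refine natDegree_mul_le.trans ?_
  omega

/-- Homogeneous evaluation of a coefficient vector. -/
def hev {n : ℕ} (v : Fin (n + 1) → ℝ) (x y : ℝ) : ℝ := ∑ i, v i * x ^ (i : ℕ) * y ^ (n - i)

lemma hev_row (n : ℕ) (a b c d : ℝ) (i : Fin (n + 1)) (x y : ℝ) :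
    hev (sub n a b c d i) x y = (a * x + b * y) ^ (i : ℕ) * (c * x + d * y) ^ (n - i) := by
  have h1 := eval_eq_sum_range' (Nat.lt_succ_of_le (natDegree_lin_le n a (b * y) c (d * y) i)) x
  simp only [eval_mul, eval_pow, eval_add, eval_C, eval_X] at h1
  rw [h1, Finset.sum_range, hev]
  refine Finset.sum_congr rfl fun j _ => ?_
  rw [← sub_eq_coeff, mul_right_comm]
  congr 1
  simp only [sub, Finset.sum_mul]
  refine Finset.sum_congr rfl fun p hp => ?_
  rw [Finset.HasAntidiagonal.mem_antidiagonal] at hp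
  by_cases h1 : (i : ℕ) < p.1
  · simp [Nat.choose_eq_zero_of_lt h1]
  by_cases h2 : n - i < p.2
  · simp [Nat.choose_eq_zero_of_lt h2]
  have : n - j = (i - p.1) + (n - i - p.2) := by have := i.2; omega
  rw [this, pow_add, mul_pow, mul_pow]; ring

lemma hev_vecMul {n : ℕ} (v : Fin (n + 1) → ℝ) (a b c d x y : ℝ) :
    hev (v ᵥ* sub n a b c d) x y = hev v (a * x + b * y) (c * x + d * y) := by
  have : hev (v ᵥ* sub n a b c d) x y = ∑ i, v i * hev (sub n a b c d i) x y := by
    simp only [hev, Matrix.vecMul, dotProduct, Finset.sum_mul, Finset.mul_sum]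
    rw [Finset.sum_comm]
    refine Finset.sum_congr rfl fun i _ => Finset.sum_congr rfl fun j _ => by ring
  rw [this]
  simp only [hev_row]
  simp only [hev, mul_assoc]

/-- The polynomial with a given coefficient vector. -/
noncomputable def toPoly {R : Type*} [CommRing R] {n : ℕ} (v : Fin (n + 1) → R) : R[X] :=
  ∑ i, C (v i) * X ^ (i : ℕ)

lemma coeff_toPoly {R : Type*} [CommRing R] {n : ℕ} (v : Fin (n + 1) → R) (i : Fin (n + 1)) :
    (toPoly v).coeff i = v i := by
  simp only [toPoly, finsetSum_coeff, coeff_C_mul_X_pow]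
  rw [Finset.sum_eq_single i]
  · simp
  · intro j _ hj
    rw [if_neg]; exact fun h => hj (Fin.ext h).symm
  · simp

lemma natDegree_toPoly {R : Type*} [CommRing R] {n : ℕ} (v : Fin (n + 1) → R) :
    (toPoly v).natDegree ≤ n := by
  refine natDegree_sum_le_of_forall_le _ _ fun i _ => ?_
  exact (natDegree_C_mul_X_pow_le _ _).trans (Nat.le_of_lt_succ i.2)

lemma toPoly_coeff {R : Type*} [CommRing R] {n : ℕ} (p : R[X]) (hp : p.natDegree ≤ n) :
    toPoly (fun i : Fin (n + 1) => p.coeff i) = p := by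
  conv_rhs => rw [p.as_sum_range_C_mul_X_pow' (Nat.lt_succ_of_le hp)]
  rw [Finset.sum_range]; rfl

lemma toPoly_eq_zero {R : Type*} [CommRing R] {n : ℕ} {v : Fin (n + 1) → R} (h : toPoly v = 0) :
    v = 0 := by
  funext i
  rw [← coeff_toPoly v i, h]; simp

lemma eval_toPoly {n : ℕ} (v : Fin (n + 1) → ℝ) (x : ℝ) : (toPoly v).eval x = hev v x 1 := by
  simp [toPoly, hev, eval_finsetSum]

lemma hev_inj {n : ℕ} {v w : Fin (n + 1) → ℝ} (h : ∀ x, hev v x 1 = hev w x 1) : v = w := by
  have : toPoly v = toPoly w := Polynomial.funext fun x => by rw [eval_toPoly, eval_toPoly, h]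
  funext i
  rw [← coeff_toPoly v i, this, coeff_toPoly]

lemma sub_mul_sub (n : ℕ) (a b c d a' b' c' d' : ℝ) :
    sub n a b c d * sub n a' b' c' d' =
      sub n (a * a' + b * c') (a * b' + b * d') (c * a' + d * c') (c * b' + d * d') := by
  ext1 i j
  revert j
  rw [← funext_iff]
  apply hev_inj
  intro x
  have : (sub n a b c d * sub n a' b' c' d') i = sub n a b c d i ᵥ* sub n a' b' c' d' := by
    funext j; simp [Matrix.mul_apply, Matrix.vecMul, dotProduct]
  rw [this, hev_vecMul, hev_row, hev_row]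
  congr 2 <;> ring

lemma sub_diag (n : ℕ) (a d : ℝ) :
    sub n a 0 0 d = Matrix.diagonal (fun j : Fin (n + 1) => a ^ (j : ℕ) * d ^ (n - j)) := by
  ext1 i j
  revert j
  rw [← funext_iff]
  apply hev_inj
  intro x
  rw [hev_row, hev, Finset.sum_eq_single i]
  · simp [mul_pow]; ring
  · intro j _ hj
    rw [Matrix.diagonal_apply_ne _ hj.symm]; simp
  · simp

lemma sub_scalar (n : ℕ) (a : ℝ) : sub n a 0 0 a = a ^ n • (1 : Matrix _ _ ℝ) := by
  rw [sub_diag]
  ext i j
  by_cases h : i = j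
  · subst h
    have := i.2
    simp only [diagonal_apply_eq, Matrix.smul_apply, one_apply_eq, smul_eq_mul, mul_one, ← pow_add]
    congr 1; omega
  · simp [h]

lemma sub_col_zero {R : Type*} [CommRing R] (n : ℕ) (a b c d : R) (i : Fin (n + 1)) :
    sub n a b c d i 0 = b ^ (i : ℕ) * d ^ (n - i) := by
  simp [sub]

lemma toR_sub (n : ℕ) (a b c d : ℤ) :
    toR (sub n a b c d) = sub n (a : ℝ) (b : ℝ) (c : ℝ) (d : ℝ) := by
  ext i j; simp [sub]

lemma continuous_sub {Z : Type*} [TopologicalSpace Z] (n : ℕ) {a b c d : Z → ℝ}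
    (ha : Continuous a) (hb : Continuous b) (hc : Continuous c) (hd : Continuous d) :
    Continuous (fun z => sub n (a z) (b z) (c z) (d z)) := by
  refine continuous_pi fun i => continuous_pi fun j => ?_
  unfold sub
  fun_prop

lemma sub_bound (n : ℕ) (R : ℝ) : ∃ K : ℝ, 1 ≤ K ∧ ∀ a b c d : ℝ, |a| ≤ R → |b| ≤ R → |c| ≤ R →
    |d| ≤ R → ∀ i j, |sub n a b c d i j| ≤ K := by
  have hc : Continuous (fun z : Fin 4 → ℝ =>
      (fun i j => sub n (z 0) (z 1) (z 2) (z 3) i j : Fin (n + 1) → Fin (n + 1) → ℝ)) :=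
    continuous_sub n (continuous_apply 0) (continuous_apply 1) (continuous_apply 2)
      (continuous_apply 3)
  obtain ⟨K, hK⟩ := (isCompact_closedBall (0 : Fin 4 → ℝ) R).exists_bound_of_continuousOn
    hc.continuousOn
  refine ⟨max K 1, le_max_right _ _, fun a b c d ha hb hc hd i j => ?_⟩
  have := hK ![a, b, c, d] (by
    rw [mem_closedBall_zero_iff, pi_norm_le_iff_of_nonneg ((abs_nonneg a).trans ha)]
    intro l
    fin_cases l <;> simpa)
  refine le_trans ?_ (this.trans (le_max_left _ _))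
  exact (norm_le_pi_norm (fun j => sub n a b c d i j) j).trans
    (norm_le_pi_norm (fun i j => sub n a b c d i j) i)

/-- Coefficients are controlled by the values on the unit interval. -/
lemma coeff_le_sup (N : ℕ) : ∃ c : ℝ, 0 < c ∧ ∀ a : Fin (N + 1) → ℝ,
    ∃ s ∈ Icc (0 : ℝ) 1, c * ‖a‖ ≤ |∑ j, a j * s ^ (j : ℕ)| := by
  set v : Fin (N + 1) → ℝ := fun l => (l : ℝ) / (N + 1) with hv
  have hinj : Function.Injective v := by
    intro l l' h
    simp only [hv] at h
    have hN : (N : ℝ) + 1 ≠ 0 := by positivity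
    rw [div_left_inj' hN] at h
    exact Fin.ext (by exact_mod_cast h)
  have hdet : (vandermonde v).det ≠ 0 := det_vandermonde_ne_zero_iff.2 hinj
  obtain ⟨K, hK, hanti⟩ := LinearMap.exists_antilipschitzWith (vandermonde v).mulVecLin (by
    rw [LinearMap.ker_eq_bot']
    intro m hm
    by_contra hne
    exact hdet (Matrix.exists_mulVec_eq_zero_iff.1 ⟨m, hne, hm⟩))
  have hK' : (0 : ℝ) < K := hK
  refine ⟨(K : ℝ)⁻¹, by positivity, fun a => ?_⟩
  have h1 := hanti.le_mul_norm (map_zero _) a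
  obtain ⟨l, hl⟩ := Finite.exists_max (fun l => |((vandermonde v).mulVecLin a) l|)
  have h2 : ‖(vandermonde v).mulVecLin a‖ ≤ |((vandermonde v).mulVecLin a) l| :=
    (pi_norm_le_iff_of_nonneg (abs_nonneg _)).2 hl
  refine ⟨v l, ⟨by positivity, ?_⟩, ?_⟩
  · simp only [hv]
    rw [div_le_one (by positivity)]
    have := l.2
    have : (l : ℝ) < N + 1 := by exact_mod_cast this
    exact this.le
  · have e : ((vandermonde v).mulVecLin a) l = ∑ j, a j * v l ^ (j : ℕ) := by
      simp [Matrix.mulVec, dotProduct, vandermonde, mul_comm]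
    rw [← e, inv_mul_le_iff₀ hK']
    exact h1.trans (mul_le_mul_of_nonneg_left h2 hK'.le)

/-- Real functions of two variables given by a polynomial of degree at most `d` in each. -/
def PolyFun2 (d : ℕ) (f : ℝ → ℝ → ℝ) : Prop :=
  ∃ Φ : ℝ[X][X], Φ.natDegree ≤ d ∧ (∀ i, (Φ.coeff i).natDegree ≤ d) ∧
    ∀ a b, f a b = (Φ.eval (C a)).eval b

namespace PolyFun2

lemma mono {d e : ℕ} {f : ℝ → ℝ → ℝ} (h : PolyFun2 d f) (hde : d ≤ e) : PolyFun2 e f := by
  obtain ⟨Φ, h1, h2, h3⟩ := h
  exact ⟨Φ, h1.trans hde, fun i => (h2 i).trans hde, h3⟩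

lemma const (d : ℕ) (c : ℝ) : PolyFun2 d (fun _ _ => c) := by
  refine ⟨C (C c), by simp, fun i => ?_, by simp⟩
  rw [coeff_C]; split_ifs <;> simp

lemma fst : PolyFun2 1 (fun a _ => a) := by
  refine ⟨X, by simp, fun i => ?_, by simp⟩
  rw [coeff_X]; split_ifs <;> simp

lemma snd : PolyFun2 1 (fun _ b => b) := by
  refine ⟨C X, by simp, fun i => ?_, by simp⟩
  rw [coeff_C]; split_ifs <;> simp

lemma add {d : ℕ} {f g : ℝ → ℝ → ℝ} (hf : PolyFun2 d f) (hg : PolyFun2 d g) :
    PolyFun2 d (fun a b => f a b + g a b) := by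
  obtain ⟨Φ, h1, h2, h3⟩ := hf
  obtain ⟨Ψ, k1, k2, k3⟩ := hg
  refine ⟨Φ + Ψ, natDegree_add_le_of_degree_le h1 k1, fun i => ?_, fun a b => by simp [h3, k3]⟩
  rw [coeff_add]; exact natDegree_add_le_of_degree_le (h2 i) (k2 i)

lemma mul {d e : ℕ} {f g : ℝ → ℝ → ℝ} (hf : PolyFun2 d f) (hg : PolyFun2 e g) :
    PolyFun2 (d + e) (fun a b => f a b * g a b) := by
  obtain ⟨Φ, h1, h2, h3⟩ := hf
  obtain ⟨Ψ, k1, k2, k3⟩ := hg
  refine ⟨Φ * Ψ, natDegree_mul_le.trans (add_le_add h1 k1), fun i => ?_,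
    fun a b => by simp [h3, k3]⟩
  rw [coeff_mul]
  exact natDegree_sum_le_of_forall_le _ _ fun p _ =>
    natDegree_mul_le.trans (add_le_add (h2 _) (k2 _))

lemma const_mul {d : ℕ} {f : ℝ → ℝ → ℝ} (c : ℝ) (hf : PolyFun2 d f) :
    PolyFun2 d (fun a b => c * f a b) := by
  simpa using (const 0 c).mul hf

lemma mul_const {d : ℕ} {f : ℝ → ℝ → ℝ} (c : ℝ) (hf : PolyFun2 d f) :
    PolyFun2 d (fun a b => f a b * c) := by
  simpa using hf.mul (const 0 c)

lemma pow {d : ℕ} {f : ℝ → ℝ → ℝ} (hf : PolyFun2 d f) (m : ℕ) :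
    PolyFun2 (m * d) (fun a b => f a b ^ m) := by
  induction m with
  | zero => simpa using const 0 1
  | succ m ih => simpa [pow_succ, add_mul] using ih.mul hf

lemma sum {κ : Type*} {d : ℕ} (s : Finset κ) {f : κ → ℝ → ℝ → ℝ}
    (hf : ∀ i ∈ s, PolyFun2 d (f i)) : PolyFun2 d (fun a b => ∑ i ∈ s, f i a b) := by
  classical
  induction s using Finset.induction_on with
  | empty => simpa using const d 0
  | insert i s hi ih =>
    simp only [Finset.sum_insert hi]
    exact (hf i (Finset.mem_insert_self _ _)).add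
      (ih fun j hj => hf j (Finset.mem_insert_of_mem hj))

lemma prod {κ : Type*} {d : ℕ} (s : Finset κ) {f : κ → ℝ → ℝ → ℝ}
    (hf : ∀ i ∈ s, PolyFun2 d (f i)) : PolyFun2 (s.card * d) (fun a b => ∏ i ∈ s, f i a b) := by
  classical
  induction s using Finset.induction_on with
  | empty => simpa using const 0 1
  | insert i s hi ih =>
    simp only [Finset.prod_insert hi, Finset.card_insert_of_notMem hi]
    have := (hf i (Finset.mem_insert_self _ _)).mul
      (ih fun j hj => hf j (Finset.mem_insert_of_mem hj))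
    exact this.mono (le_of_eq (by ring))

lemma det {r d : ℕ} {A : ℝ → ℝ → Matrix (Fin r) (Fin r) ℝ}
    (hA : ∀ i j, PolyFun2 d (fun a b => A a b i j)) :
    PolyFun2 (r * d) (fun a b => (A a b).det) := by
  simp only [det_apply']
  refine sum _ fun σ _ => const_mul _ ?_
  simpa using prod Finset.univ (fun i _ => hA (σ i) i)

lemma sub_entry {n : ℕ} {a b c d : ℝ → ℝ → ℝ} (ha : PolyFun2 1 a) (hb : PolyFun2 1 b)
    (hc : PolyFun2 1 c) (hd : PolyFun2 1 d) (i j : Fin (n + 1)) :
    PolyFun2 (4 * n) (fun x y => sub n (a x y) (b x y) (c x y) (d x y) i j) := by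
  unfold sub
  refine sum _ fun p hp => ?_
  rw [Finset.HasAntidiagonal.mem_antidiagonal] at hp
  have := (((ha.pow p.1).const_mul ((i : ℕ).choose p.1 : ℝ)).mul (hb.pow ((i : ℕ) - p.1))).mul
    ((((hc.pow p.2).const_mul ((n - i).choose p.2 : ℝ))).mul (hd.pow (n - i - p.2)))
  refine this.mono ?_
  have := i.2; have := j.2
  omega

lemma curve_aux (Φ : ℝ[X][X]) (m : ℕ) (t : ℝ) :
    (Φ.eval (C (t ^ m))).eval t = (Φ.eval (X ^ m)).eval t := by
  rw [eval_eq_sum_range, eval_eq_sum_range (p := Φ)]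
  rw [← eval_eq_sum_range, eval_eq_sum_range (p := Φ)]
  simp [eval_finsetSum]

lemma curve {d : ℕ} {f : ℝ → ℝ → ℝ} (hf : PolyFun2 d f) :
    PolyFun (d + (d + 1) * d) (fun t => f (t ^ (d + 1)) t) := by
  obtain ⟨Φ, h1, h2, h3⟩ := hf
  refine ⟨Φ.eval (X ^ (d + 1)), ?_, fun t => by simp only; rw [h3, curve_aux]⟩
  rw [eval_eq_sum_range' (Nat.lt_succ_of_le h1)]
  refine natDegree_sum_le_of_forall_le _ _ fun i hi => natDegree_mul_le.trans ?_
  rw [← pow_mul, natDegree_X_pow]
  have := Finset.mem_range.1 hi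
  exact add_le_add (h2 i) (Nat.mul_le_mul_left _ (by omega))

end PolyFun2

lemma kronecker (d : ℕ) : ∃ c : ℝ, 0 < c ∧ ∀ f : ℝ → ℝ → ℝ, PolyFun2 d f →
    ∀ a b : ℝ, |a| ≤ 3 → |b| ≤ 1 → ∃ t ∈ Icc (0 : ℝ) 1, c * |f a b| ≤ |f (t ^ (d + 1)) t| := by
  obtain ⟨c, hc, hcs⟩ := coeff_le_sup (d + (d + 1) * d)
  refine ⟨c / ((d + 1) * ((d + 1) * 3 ^ d)), by positivity, ?_⟩
  rintro f ⟨Φ, h1, h2, h3⟩ a b ha hb
  set g := Φ.eval (X ^ (d + 1)) with hg
  have hgd : g.natDegree ≤ d + (d + 1) * d := by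
    rw [hg, eval_eq_sum_range' (Nat.lt_succ_of_le h1)]
    refine natDegree_sum_le_of_forall_le _ _ fun i hi => natDegree_mul_le.trans ?_
    rw [← pow_mul, natDegree_X_pow]
    have := Finset.mem_range.1 hi
    exact add_le_add (h2 i) (Nat.mul_le_mul_left _ (by omega))
  obtain ⟨t, ht, hts⟩ := hcs (fun j => g.coeff j)
  refine ⟨t, ht, ?_⟩
  have e1 : ∑ j : Fin (d + (d + 1) * d + 1), g.coeff j * t ^ (j : ℕ) = f (t ^ (d + 1)) t := by
    rw [h3, PolyFun2.curve_aux, ← hg, eval_eq_sum_range' (Nat.lt_succ_of_le hgd),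
      Finset.sum_range]
  rw [e1] at hts
  set A := ‖fun j : Fin (d + (d + 1) * d + 1) => g.coeff j‖ with hA
  have hA0 : 0 ≤ A := norm_nonneg _
  have hco : ∀ i ∈ Finset.range (d + 1), ∀ j ∈ Finset.range (d + 1),
      |(Φ.coeff i).coeff j| ≤ A := by
    intro i hi j hj
    rw [Finset.mem_range] at hi hj
    have hlt : j + (d + 1) * i < d + (d + 1) * d + 1 := by
      have : (d + 1) * i ≤ (d + 1) * d := Nat.mul_le_mul_left _ (by omega)
      omega
    have e : g.coeff (j + (d + 1) * i) = (Φ.coeff i).coeff j := by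
      rw [hg, eval_eq_sum_range' (Nat.lt_succ_of_le h1), finsetSum_coeff,
        Finset.sum_eq_single i]
      · rw [← pow_mul, coeff_mul_X_pow]
      · intro i' _ hne
        rw [← pow_mul, coeff_mul_X_pow']
        split_ifs with hle
        · apply coeff_eq_zero_of_natDegree_lt
          have hlt' : i' < i := by
            by_contra hn
            have : i + 1 ≤ i' := by omega
            have := Nat.mul_le_mul_left (d + 1) this
            rw [mul_add] at this
            omega
          have := Nat.mul_le_mul_left (d + 1) (show i' + 1 ≤ i by omega)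
          rw [mul_add] at this
          have := h2 i'
          omega
        · rfl
      · intro hn; exact absurd (Finset.mem_range.2 hi) hn
    rw [← e]
    exact norm_le_pi_norm (fun j : Fin (d + (d + 1) * d + 1) => g.coeff j) ⟨_, hlt⟩
  have e2 : |f a b| ≤ (d + 1) * ((d + 1) * 3 ^ d) * A := by
    rw [h3, eval_eq_sum_range' (Nat.lt_succ_of_le h1), eval_finsetSum]
    refine (Finset.abs_sum_le_sum_abs _ _).trans ?_
    have : ∀ i ∈ Finset.range (d + 1),
        |(Φ.coeff i * C a ^ i).eval b| ≤ ((d + 1) * 3 ^ d) * A := by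
      intro i hi
      rw [eval_mul, eval_pow, eval_C, abs_mul, abs_pow,
        eval_eq_sum_range' (Nat.lt_succ_of_le (h2 i))]
      have h5 : |a| ^ i ≤ 3 ^ d :=
        (pow_le_pow_left₀ (abs_nonneg _) ha i).trans
          (pow_le_pow_right₀ (by norm_num) (by have := Finset.mem_range.1 hi; omega))
      have h6 : |∑ j ∈ Finset.range (d + 1), (Φ.coeff i).coeff j * b ^ j| ≤ (d + 1) * A := by
        refine (Finset.abs_sum_le_sum_abs _ _).trans ?_
        have : ∀ j ∈ Finset.range (d + 1), |(Φ.coeff i).coeff j * b ^ j| ≤ A := by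
          intro j hj
          rw [abs_mul, abs_pow]
          have := pow_le_one₀ (abs_nonneg b) hb (n := j)
          have := hco i hi j hj
          have h7 : 0 ≤ |b| ^ j := by positivity
          nlinarith [abs_nonneg ((Φ.coeff i).coeff j)]
        refine (Finset.sum_le_sum this).trans ?_
        simp
      calc _ ≤ ((d + 1) * A) * 3 ^ d := mul_le_mul h6 h5 (by positivity) (by positivity)
        _ = _ := by ring
    refine (Finset.sum_le_sum this).trans ?_
    simp [mul_assoc]
  calc c / ((d + 1) * ((d + 1) * 3 ^ d)) * |f a b|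
      ≤ c / ((d + 1) * ((d + 1) * 3 ^ d)) * ((d + 1) * ((d + 1) * 3 ^ d) * A) := by gcongr
    _ = c * A := by field_simp
    _ ≤ _ := hts

end Pool.Agent.MP_b9de27_nt

end

-- part MP_b9de27_nt.Wronski
section

/-!
Wronskian type lower bounds for the extreme minors, and Minkowski's linear forms theorem.
-/

set_option autoImplicit false

open Matrix Set Polynomial MeasureTheory

namespace Pool.Agent.MP_b9de27_nt

lemma finite_high_vanishing : ∀ (r : ℕ) (f : Fin r → ℝ[X]),
    {y : ℝ | ∃ c : Fin r → ℝ, ∑ i, C (c i) * f i ≠ 0 ∧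
      (X - C y) ^ r ∣ ∑ i, C (c i) * f i}.Finite := by
  intro r
  induction r with
  | zero => intro f; simp
  | succ r ih =>
    intro f
    by_cases h0 : f 0 = 0
    · refine (ih (fun i => f i.succ)).subset ?_
      rintro y ⟨c, h1, h2⟩
      rw [Fin.sum_univ_succ, h0, mul_zero, zero_add] at h1 h2
      exact ⟨fun i => c i.succ, h1, (pow_dvd_pow _ (Nat.le_succ r)).trans h2⟩
    · set L : ℝ[X] → ℝ[X] := fun F => derivative F * f 0 - F * derivative (f 0) with hL
      refine ((ih (fun i => L (f i.succ))).union (f 0).roots.toFinset.finite_toSet).subset ?_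
      rintro y ⟨c, h1, h2⟩
      by_cases hy : (f 0).eval y = 0
      · right
        simp [h0, hy]
      left
      set F := ∑ i, C (c i) * f i with hF
      have e : ∑ i : Fin r, C (c i.succ) * L (f i.succ) = L F := by
        simp only [hL, hF, Fin.sum_univ_succ, derivative_add, derivative_sum, derivative_C_mul,
          add_mul, Finset.sum_mul, mul_sub, Finset.sum_sub_distrib, mul_assoc]
        ring
      refine ⟨fun i => c i.succ, ?_, ?_⟩
      · rw [e]
        obtain ⟨G, hG, hnd⟩ := exists_eq_pow_rootMultiplicity_mul_and_not_dvd F h1 y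
        have hroot : F.IsRoot y := by
          rw [← dvd_iff_isRoot]
          exact (dvd_pow_self _ (Nat.succ_ne_zero r)).trans h2
        obtain ⟨k, hk⟩ : ∃ k, F.rootMultiplicity y = k + 1 :=
          Nat.exists_eq_succ_of_ne_zero ((rootMultiplicity_pos h1).2 hroot).ne'
        rw [hk] at hG
        rw [dvd_iff_isRoot] at hnd
        have e2 : L F = (X - C y) ^ k * (C ((k : ℝ) + 1) * G * f 0 +
            (X - C y) * (derivative G * f 0 - G * derivative (f 0))) := by
          simp only [hL]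
          rw [hG, derivative_mul, derivative_X_sub_C_pow]
          simp only [Nat.add_sub_cancel, map_add, map_natCast, map_one, Nat.cast_add, Nat.cast_one]
          ring
        rw [e2]
        refine mul_ne_zero (pow_ne_zero _ (X_sub_C_ne_zero y)) ?_
        intro h
        have := congrArg (eval y) h
        simp only [eval_add, eval_mul, eval_C, eval_sub, eval_X, sub_self, zero_mul, add_zero,
          eval_zero] at this
        have hk' : (k : ℝ) + 1 ≠ 0 := by positivity
        exact mul_ne_zero (mul_ne_zero hk' hnd) hy this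
      · rw [e]
        obtain ⟨G, hG⟩ := h2
        simp only [hL]
        rw [hG, derivative_mul, derivative_X_sub_C_pow]
        refine ⟨(C ((r : ℝ) + 1) * G * f 0 +
            (X - C y) * (derivative G * f 0 - G * derivative (f 0))), ?_⟩
        simp only [Nat.add_sub_cancel, map_add, map_natCast, map_one, Nat.cast_add, Nat.cast_one]
        ring

/-- The last `r` indices. -/
def top {n r : ℕ} (hr : r ≤ n + 1) : Fin r → Fin (n + 1) :=
  fun i => ⟨i + (n + 1 - r), by have := i.2; omega⟩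

/-- Coordinates of a form in the basis attached to the two points `η` and `y`. -/
def tm (n : ℕ) (η y : ℝ) : Matrix (Fin (n + 1)) (Fin (n + 1)) ℝ := sub n (-y) η (-1) 1

lemma toPoly_vecMul {r n : ℕ} (c : Fin r → ℝ) (M : Matrix (Fin r) (Fin (n + 1)) ℝ) :
    toPoly (c ᵥ* M) = ∑ i, C (c i) * toPoly (M i) := by
  simp only [toPoly, Matrix.vecMul, dotProduct, map_sum, map_mul, Finset.sum_mul, Finset.mul_sum]
  rw [Finset.sum_comm]
  refine Finset.sum_congr rfl fun i _ => Finset.sum_congr rfl fun j _ => by ring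

lemma toPoly_sub_row (n : ℕ) (a b c d : ℝ) (i : Fin (n + 1)) :
    toPoly (sub n a b c d i) = (C a * X + C b) ^ (i : ℕ) * (C c * X + C d) ^ (n - i) := by
  rw [← toPoly_coeff _ (natDegree_lin_le n a b c d i)]
  congr 1
  funext j
  exact sub_eq_coeff n a b c d i j

lemma tm_mul_adj (n : ℕ) (η y : ℝ) :
    tm n η y * sub n 1 (-η) 1 (-y) = (η - y) ^ n • (1 : Matrix _ _ ℝ) := by
  rw [tm, sub_mul_sub, ← sub_scalar]
  congr 1 <;> ring

lemma exists_top_ne_zero {n r : ℕ} (hr : r ≤ n + 1) (M : Matrix (Fin r) (Fin (n + 1)) ℝ)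
    (hM : Indep M) (η : ℝ) (hη : 0 ≤ η) :
    ∃ y ∈ Icc (-2 : ℝ) (-1), ((M * tm n η y).submatrix id (top hr)).det ≠ 0 := by
  obtain ⟨y, hy, hny⟩ := ((Set.Icc_infinite (show (-2 : ℝ) < -1 by norm_num)).sdiff
    (finite_high_vanishing r (fun i => toPoly (M i)))).nonempty
  refine ⟨y, hy, fun hdet => hny ?_⟩
  obtain ⟨c, hc, hc0⟩ := Matrix.exists_vecMul_eq_zero_iff.2 hdet
  refine ⟨c, ?_, ?_⟩
  · rw [← toPoly_vecMul]
    exact fun h => hc (hM c (toPoly_eq_zero h))
  · rw [← toPoly_vecMul]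
    set F := c ᵥ* M with hF
    have hz : ∀ j : Fin (n + 1), n + 1 - r ≤ j → (F ᵥ* tm n η y) j = 0 := by
      intro j hj
      have := congrFun hc0 ⟨j - (n + 1 - r), by have := j.2; omega⟩
      have e : top hr ⟨j - (n + 1 - r), by have := j.2; omega⟩ = j := by
        apply Fin.ext; simp only [top]; omega
      rw [hF, vecMul_vecMul, ← e]
      simpa [Matrix.vecMul, dotProduct] using this
    have e1 : (F ᵥ* tm n η y) ᵥ* sub n 1 (-η) 1 (-y) = (η - y) ^ n • F := by
      rw [vecMul_vecMul, tm_mul_adj, vecMul_smul, vecMul_one]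
    have e2 : toPoly ((η - y) ^ n • F) = C ((η - y) ^ n) * toPoly F := by
      simp only [toPoly, Finset.mul_sum, Pi.smul_apply, smul_eq_mul, map_mul, mul_assoc]
    have hne : (η - y) ^ n ≠ 0 := pow_ne_zero _ (by linarith [hy.2])
    have h3 : (X - C y) ^ r ∣ C ((η - y) ^ n) * toPoly F := by
      rw [← e2, ← e1, toPoly_vecMul]
      refine Finset.dvd_sum fun j _ => ?_
      by_cases hj : n + 1 - r ≤ j
      · rw [hz j hj]; simp
      · rw [toPoly_sub_row]
        refine Dvd.dvd.mul_left (Dvd.dvd.mul_left ?_ _) _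
        have : C (1 : ℝ) * X + C (-y) = X - C y := by simp [sub_eq_add_neg]
        rw [this]
        exact pow_dvd_pow _ (by omega)
    exact (IsUnit.dvd_mul_left (isUnit_C.2 (IsUnit.mk0 _ hne))).1 h3

lemma normalize {ι : Type*} [Fintype ι] {r : ℕ} (M : Matrix (Fin r) ι ℝ) (h : 0 < mm M) :
    ∃ (N : Matrix (Fin r) (Fin r) ℝ) (M' : Matrix (Fin r) ι ℝ), M = N * M' ∧ |N.det| = mm M ∧
      ∀ i j, |M' i j| ≤ 1 := by
  classical
  obtain ⟨J, hJ⟩ := exists_mm_eq M h
  set N := M.submatrix id J with hN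
  have hdet : N.det ≠ 0 := by
    intro h0; rw [h0, abs_zero] at hJ; linarith
  have hu : IsUnit N.det := IsUnit.mk0 _ hdet
  refine ⟨N, N⁻¹ * M, by rw [← Matrix.mul_assoc, mul_nonsing_inv _ hu, Matrix.one_mul], hJ.symm, ?_⟩
  intro i j
  have h1 := congrFun (det_smul_inv_mulVec_eq_cramer N (fun k => M k j) hu) i
  rw [cramer_apply] at h1
  have e : N.updateCol i (fun k => M k j) = M.submatrix id (Function.update J i j) := by
    ext k l
    by_cases hl : l = i
    · subst hl; simp
    · simp [hN, hl]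
  have e2 : (N⁻¹ * M) i j = (N⁻¹ *ᵥ fun k => M k j) i := by
    simp [Matrix.mul_apply, Matrix.mulVec, dotProduct]
  rw [e, Pi.smul_apply, smul_eq_mul, ← e2] at h1
  have h2 := abs_det_le_mm M (Function.update J i j)
  rw [← h1, abs_mul, ← hJ] at h2
  by_contra hn
  push Not at hn
  nlinarith

lemma continuous_tm {Z : Type*} [TopologicalSpace Z] (n : ℕ) {η y : Z → ℝ}
    (hη : Continuous η) (hy : Continuous y) : Continuous (fun z => tm n (η z) (y z)) :=
  continuous_sub n hy.neg hη continuous_const continuous_const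

lemma wronski_aux {n r : ℕ} (hr : r ≤ n + 1) : ∃ c : ℝ, 0 < c ∧
    ∀ (M : Matrix (Fin r) (Fin (n + 1)) ℝ), ∀ η ∈ Icc (0 : ℝ) 3, ∃ y ∈ Icc (-2 : ℝ) (-1),
      c * mm M ≤ |((M * tm n η y).submatrix id (top hr)).det| := by
  set K : Set (ℝ × (Fin r → Fin (n + 1) → ℝ)) :=
    (Icc 0 3 ×ˢ Metric.closedBall 0 1) ∩ {z | 1 ≤ mm (Matrix.of z.2)} with hK
  have hKc : IsCompact K := by
    refine (isCompact_Icc.prod (isCompact_closedBall _ _)).inter_right ?_
    refine isClosed_le continuous_const ?_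
    refine Continuous.norm (continuous_pi fun J => ?_)
    exact Continuous.matrix_det (Continuous.matrix_submatrix continuous_snd _ _)
  set g : (ℝ × (Fin r → Fin (n + 1) → ℝ)) → ℝ → ℝ :=
    fun z y => |((Matrix.of z.2 * tm n z.1 y).submatrix id (top hr)).det| with hg
  have hgc : Continuous ↿g := by
    refine Continuous.abs (Continuous.matrix_det (Continuous.matrix_submatrix ?_ _ _))
    exact Continuous.matrix_mul (continuous_snd.comp continuous_fst)
      (continuous_tm n (continuous_fst.comp continuous_fst) continuous_snd)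
  have hgc' : ∀ z, Continuous (g z) := fun z => hgc.comp (Continuous.prodMk_right z)
  have hsc := (isCompact_Icc (a := (-2 : ℝ)) (b := -1)).continuous_sSup hgc
  obtain ⟨c, hc, hcK⟩ := hKc.exists_forall_le' hsc.continuousOn (a := 0) (by
    rintro ⟨η, M⟩ ⟨⟨hη, _⟩, h1⟩
    obtain ⟨J, hJ⟩ := exists_lt_abs_det (Matrix.of M) le_rfl (lt_of_lt_of_le one_pos h1)
    obtain ⟨y, hy, hne⟩ := exists_top_ne_zero hr (Matrix.of M)
      (indep_of_det_ne_zero (abs_pos.1 hJ)) η hη.1
    exact lt_of_lt_of_le (abs_pos.2 hne)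
      (le_csSup (isCompact_Icc.image (hgc' (η, M))).bddAbove ⟨y, hy, rfl⟩))
  refine ⟨c, hc, fun M η hη => ?_⟩
  by_cases h0 : mm M = 0
  · exact ⟨-1, by norm_num, by rw [h0, mul_zero]; exact abs_nonneg _⟩
  have hpos := lt_of_le_of_ne (mm_nonneg M) (Ne.symm h0)
  obtain ⟨N, M', hM, hN, hM'⟩ := normalize M hpos
  have h1 : mm M' = 1 := by
    have := mm_mul N M'
    rw [← hM, hN] at this
    exact (mul_right_eq_self₀.1 this.symm).resolve_right h0
  have hmem : (η, (fun i j => M' i j)) ∈ K := by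
    refine ⟨⟨hη, ?_⟩, h1.ge⟩
    rw [mem_closedBall_zero_iff, pi_norm_le_iff_of_nonneg zero_le_one]
    intro i
    rw [pi_norm_le_iff_of_nonneg zero_le_one]
    exact hM' i
  have h2 := hcK _ hmem
  obtain ⟨y, hy, hy'⟩ := (isCompact_Icc (a := (-2 : ℝ)) (b := -1)).exists_sSup_image_eq
    ⟨-1, by norm_num⟩ (hgc' (η, (fun i j => M' i j))).continuousOn
  refine ⟨y, hy, ?_⟩
  rw [hy'] at h2
  have e : (M * tm n η y).submatrix id (top hr) = N * (M' * tm n η y).submatrix id (top hr) := by
    rw [hM, Matrix.mul_assoc]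
    ext i j; simp [Matrix.mul_apply]
  rw [e, det_mul, abs_mul, hN, mul_comm]
  exact mul_le_mul_of_nonneg_left h2 hpos.le

lemma exists_uniform (N : ℕ) (P : ℕ → ℝ → Prop) (hmono : ∀ r c c', 0 < c' → c' ≤ c → P r c → P r c')
    (h : ∀ r, r ≤ N → ∃ c, 0 < c ∧ P r c) : ∃ c, 0 < c ∧ ∀ r, r ≤ N → P r c := by
  induction N with
  | zero =>
    obtain ⟨c, hc, hP⟩ := h 0 le_rfl
    exact ⟨c, hc, fun r hr => by rwa [Nat.le_zero.1 hr]⟩
  | succ N ih =>
    obtain ⟨c, hc, hP⟩ := ih (fun r hr => h r (hr.trans (Nat.le_succ N)))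
    obtain ⟨c', hc', hP'⟩ := h (N + 1) le_rfl
    refine ⟨min c c', lt_min hc hc', fun r hr => ?_⟩
    rcases Nat.lt_or_ge r (N + 1) with h1 | h1
    · exact hmono r c _ (lt_min hc hc') (min_le_left _ _) (hP r (Nat.le_of_lt_succ h1))
    · rw [le_antisymm hr h1]
      exact hmono _ c' _ (lt_min hc hc') (min_le_right _ _) hP'

theorem wronski (n : ℕ) : ∃ c : ℝ, 0 < c ∧ ∀ (r : ℕ) (hr : r ≤ n + 1)
    (M : Matrix (Fin r) (Fin (n + 1)) ℝ), ∀ η ∈ Icc (0 : ℝ) 3, ∃ y ∈ Icc (-2 : ℝ) (-1),
      c * mm M ≤ |((M * tm n η y).submatrix id (top hr)).det| := by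
  obtain ⟨c, hc, h⟩ := exists_uniform (n + 1) (fun r c => ∀ (hr : r ≤ n + 1)
    (M : Matrix (Fin r) (Fin (n + 1)) ℝ), ∀ η ∈ Icc (0 : ℝ) 3, ∃ y ∈ Icc (-2 : ℝ) (-1),
      c * mm M ≤ |((M * tm n η y).submatrix id (top hr)).det|) (by
      intro r c c' _ hcc h hr M η hη
      obtain ⟨y, hy, h1⟩ := h hr M η hη
      exact ⟨y, hy, (mul_le_mul_of_nonneg_right hcc (mm_nonneg M)).trans h1⟩) (by
      intro r hr
      obtain ⟨c, hc, h⟩ := wronski_aux hr
      exact ⟨c, hc, fun _ => h⟩)
  exact ⟨c, hc, fun r hr => h r hr hr⟩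

/-- The vector of powers. -/
def pw (n : ℕ) (η : ℝ) : Fin (n + 1) → ℝ := fun j => η ^ (j : ℕ)

theorem wronski_ee (n : ℕ) : ∃ c : ℝ, 0 < c ∧ ∀ (r : ℕ) (hr : r ≤ n + 1)
    (M : Matrix (Fin (r + 1)) (Fin (n + 1)) ℝ), ∀ η ∈ Icc (0 : ℝ) 3, ∃ y ∈ Icc (-2 : ℝ) (-1),
      c * ee M (M *ᵥ pw n η) ≤ |((M * tm n η y).submatrix id (Fin.cons 0 (top hr))).det| := by
  obtain ⟨c, hc, h⟩ := wronski n
  refine ⟨c, hc, fun r hr M η hη => ?_⟩
  set φ := M *ᵥ pw n η with hφ
  by_cases h0 : ee M φ = 0
  · exact ⟨-1, by norm_num, by rw [h0, mul_zero]; exact abs_nonneg _⟩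
  have hpos := lt_of_le_of_ne (ee_nonneg M φ) (Ne.symm h0)
  obtain ⟨J, i, hJ⟩ := exists_ee_eq M φ hpos
  set N := (M.submatrix id J).updateCol i φ with hN
  have hdet : N.det ≠ 0 := by
    intro h0; rw [h0, abs_zero] at hJ; linarith
  have hu : IsUnit N.det := IsUnit.mk0 _ hdet
  set M' := N⁻¹ * M with hM'
  have hM : M = N * M' := by rw [hM', ← Matrix.mul_assoc, mul_nonsing_inv _ hu, Matrix.one_mul]
  have hone := nonsing_inv_mul _ hu
  have hφ' : ∀ k, (N⁻¹ *ᵥ φ) k = if k = i then 1 else 0 := by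
    intro k
    have := congrFun (congrFun hone k) i
    rw [Matrix.one_apply] at this
    rw [← this]
    simp [hN, Matrix.mul_apply, Matrix.mulVec, dotProduct]
  set U := M'.submatrix i.succAbove id with hU
  have hU1 : 1 ≤ mm U := by
    have h1 := abs_det_le_mm U (J ∘ i.succAbove)
    have e : U.submatrix id (J ∘ i.succAbove) = 1 := by
      ext k l
      have := congrFun (congrFun hone (i.succAbove k)) (i.succAbove l)
      simp only [Matrix.one_apply, Fin.succAbove_right_inj] at this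
      rw [Matrix.one_apply, ← this]
      simp [hU, hM', hN, Matrix.mul_apply, Fin.succAbove_ne]
    rw [e, det_one, abs_one] at h1
    exact h1
  obtain ⟨y, hy, h1⟩ := h r hr U η hη
  refine ⟨y, hy, ?_⟩
  set B := (M' * tm n η y).submatrix id (Fin.cons 0 (top hr) : Fin (r + 1) → Fin (n + 1)) with hB
  have e : (M * tm n η y).submatrix id (Fin.cons 0 (top hr)) = N * B := by
    conv_lhs => rw [hM, Matrix.mul_assoc]
    ext i j; simp [hB, Matrix.mul_apply]
  have eB : B = B.updateCol 0 (N⁻¹ *ᵥ φ) := by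
    ext k l
    refine Fin.cases ?_ (fun l => ?_) l
    · rw [updateCol_self, hφ, mulVec_mulVec, ← hM']
      simp [hB, Matrix.mul_apply, tm, sub_col_zero, Matrix.mulVec, dotProduct, pw]
    · rw [updateCol_ne (Fin.succ_ne_zero l)]
  have h2 := abs_det_updateCol_single B 0 i (N⁻¹ *ᵥ φ) (fun k hk => by rw [hφ', if_neg hk])
  rw [← eB, hφ', if_pos rfl, abs_one, one_mul] at h2
  have e3 : B.submatrix i.succAbove (Fin.succAbove 0) = (U * tm n η y).submatrix id (top hr) := by
    ext k l; simp [hB, hU, Matrix.mul_apply]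
  rw [e, det_mul, abs_mul, ← hJ, h2, e3, mul_comm]
  refine mul_le_mul_of_nonneg_left (le_trans ?_ h1) hpos.le
  nlinarith

/-- Minkowski's linear forms theorem with a crude constant. -/
lemma linear_forms {r : ℕ} (hr : 0 < r) (N : Matrix (Fin r) (Fin r) ℝ) (h0 : N.det ≠ 0)
    (h1 : |N.det| ≤ 1) : ∃ c : Fin r → ℤ, c ≠ 0 ∧ ‖vR c ᵥ* N‖ ≤ 2 := by
  set f : (Fin r → ℝ) →ₗ[ℝ] (Fin r → ℝ) := Matrix.toLin' Nᵀ with hf
  have hdet : LinearMap.det f = N.det := by rw [hf, LinearMap.det_toLin', det_transpose]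
  set b := Pi.basisFun ℝ (Fin r) with hb
  have hcount : Countable (Submodule.span ℤ (Set.range b)).toAddSubgroup := by
    change Countable (Submodule.span ℤ (Set.range b))
    infer_instance
  obtain ⟨x, hx0, hx⟩ := exists_ne_zero_mem_lattice_of_measure_mul_two_pow_lt_measure
    (ZSpan.isAddFundamentalDomain' b volume) (s := f ⁻¹' Metric.closedBall 0 2)
    (by intro x hx; simpa using hx) ((convex_closedBall _ _).linear_preimage f) (by
      rw [Measure.addHaar_preimage_linearMap _ (by rwa [hdet]), hdet,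
        Real.volume_pi_closedBall _ (by norm_num), ZSpan.volume_fundamentalDomain]
      have e : (Matrix.of ⇑b).det = 1 := by
        have : Matrix.of ⇑b = 1 := by
          ext i j; simp [hb, Matrix.one_apply, Pi.single_apply, eq_comm]
        rw [this, det_one]
      rw [e, abs_one, ENNReal.ofReal_one, one_mul, ← ENNReal.ofReal_mul (abs_nonneg _)]
      simp only [Module.finrank_fintype_fun_eq_card, Fintype.card_fin]
      have : (2 : ENNReal) ^ r = ENNReal.ofReal (2 ^ r) := by
        rw [ENNReal.ofReal_pow (by norm_num)]; simp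
      rw [this, ENNReal.ofReal_lt_ofReal_iff_of_nonneg (by positivity)]
      have h2 : 1 ≤ |N.det⁻¹| := by
        rw [abs_inv]; exact (one_le_inv₀ (abs_pos.2 h0)).2 h1
      have h3 : (2 : ℝ) ^ r < (2 * 2) ^ r := pow_lt_pow_left₀ (by norm_num) (by norm_num) hr.ne'
      have h4 : (0 : ℝ) < (2 * 2) ^ r := by positivity
      exact h3.trans_le (le_mul_of_one_le_left h4.le h2))
  have hint : ∀ i, ∃ z : ℤ, (z : ℝ) = (x : Fin r → ℝ) i := by
    intro i
    have := (b.mem_span_iff_repr_mem ℤ (x : Fin r → ℝ)).1 x.2 i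
    simpa [hb] using this
  choose c hc using hint
  have e : vR c = x := funext hc
  refine ⟨c, ?_, ?_⟩
  · intro h
    apply hx0
    apply Subtype.ext
    rw [← e, h]; funext i; simp [vR]
  · rw [mem_preimage, mem_closedBall_zero_iff, hf, toLin'_apply, mulVec_transpose] at hx
    rwa [e]

lemma minkowski_rect {ι : Type*} [Fintype ι] {r : ℕ} (hr : 0 < r) (M : Matrix (Fin r) ι ℝ)
    (h0 : 0 < mm M) (h1 : mm M ≤ 1) : ∃ c : Fin r → ℤ, c ≠ 0 ∧ ‖vR c ᵥ* M‖ ≤ 2 * r := by
  obtain ⟨N, M', hM, hN, hM'⟩ := normalize M h0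
  obtain ⟨c, hc, h2⟩ := linear_forms hr N (by intro h; rw [h, abs_zero] at hN; linarith)
    (by rwa [hN])
  refine ⟨c, hc, ?_⟩
  rw [hM, ← vecMul_vecMul, pi_norm_le_iff_of_nonneg (by positivity)]
  intro j
  simp only [Matrix.vecMul, dotProduct, Real.norm_eq_abs]
  refine (Finset.abs_sum_le_sum_abs _ _).trans ?_
  have : ∀ i, |(∑ l, vR c l * N l i) * M' i j| ≤ 2 := by
    intro i
    rw [abs_mul]
    have h3 : |∑ l, vR c l * N l i| ≤ 2 := (norm_le_pi_norm (vR c ᵥ* N) i).trans h2
    nlinarith [hM' i j, abs_nonneg (M' i j), abs_nonneg (∑ l, vR c l * N l i)]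
  refine (Finset.sum_le_sum fun i _ => this i).trans ?_
  simp [mul_comm]

lemma minkowski_ee {ι : Type*} [Fintype ι] {r : ℕ} (M : Matrix (Fin (r + 1)) ι ℝ)
    (φ : Fin (r + 1) → ℝ) (A B : ℝ) (hA : 0 < A) (hB : 0 < B) (h0 : 0 < mm M)
    (h1 : mm M ≤ B ^ (r + 1)) (h2 : ee M φ ≤ A * B ^ r) :
    ∃ c : Fin (r + 1) → ℤ, c ≠ 0 ∧ ‖vR c ᵥ* M‖ ≤ 2 * (r + 1) * B ∧
      |vR c ⬝ᵥ φ| ≤ 2 * (r + 1) * A := by
  classical
  set N : Matrix (Fin (r + 1)) (Option ι) ℝ :=
    Matrix.of fun i j => j.elim (φ i / A) (fun j => M i j / B) with hN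
  have hsome : ∀ J : Fin (r + 1) → ι, (N.submatrix id (some ∘ J)).det =
      (M.submatrix id J).det / B ^ (r + 1) := by
    intro J
    have : N.submatrix id (some ∘ J) = B⁻¹ • M.submatrix id J := by
      ext i j; simp [hN, div_eq_inv_mul]
    rw [this, det_smul, Fintype.card_fin, inv_pow, div_eq_inv_mul]
  obtain ⟨J₀, hJ₀⟩ := exists_lt_abs_det M le_rfl h0
  have hN0 : 0 < mm N := by
    refine lt_of_lt_of_le ?_ (abs_det_le_mm N (some ∘ J₀))
    rw [hsome, abs_div]; positivity
  have hN1 : mm N ≤ 1 := by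
    refine mm_le N zero_le_one fun J => ?_
    by_cases hnone : ∃ i, J i = none
    · obtain ⟨i, hi⟩ := hnone
      by_cases h2' : ∃ i', i' ≠ i ∧ J i' = none
      · obtain ⟨i', hne, hi'⟩ := h2'
        rw [det_zero_of_column_eq hne (fun k => by simp [hi, hi'])]; simp
      · push Not at h2'
        set J' : Fin (r + 1) → ι := fun l => (J l).getD (J₀ 0) with hJ'
        have e : N.submatrix id J =
            B⁻¹ • ((M.submatrix id J').updateCol i ((B / A) • φ)) := by
          ext k l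
          by_cases hl : l = i
          · subst hl
            simp only [hN, submatrix_apply, id, of_apply, hi, Option.elim_none, Matrix.smul_apply,
              updateCol_self, Pi.smul_apply, smul_eq_mul]
            field_simp
          · obtain ⟨j, hj⟩ := Option.ne_none_iff_exists'.1 (h2' l hl)
            simp [hN, hJ', hj, hl, div_eq_inv_mul]
        rw [e, det_smul, det_updateCol_smul, Fintype.card_fin, abs_mul, abs_mul,
          abs_of_pos (by positivity), abs_of_pos (by positivity)]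
        have := (abs_det_le_ee M φ J' i).trans h2
        calc B⁻¹ ^ (r + 1) * (B / A * |((M.submatrix id J').updateCol i φ).det|)
            ≤ B⁻¹ ^ (r + 1) * (B / A * (A * B ^ r)) := by gcongr
          _ = 1 := by rw [inv_pow]; field_simp; ring
    · push Not at hnone
      have : J = some ∘ (fun l => (J l).getD (J₀ 0)) := by
        funext l
        obtain ⟨j, hj⟩ := Option.ne_none_iff_exists'.1 (hnone l)
        simp [hj]
      rw [this, hsome, abs_div, abs_of_pos (pow_pos hB _), div_le_one (pow_pos hB _)]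
      exact (abs_det_le_mm M _).trans h1
  obtain ⟨c, hc, h3⟩ := minkowski_rect (Nat.succ_pos r) N hN0 hN1
  push_cast at h3
  refine ⟨c, hc, ?_, ?_⟩
  · rw [pi_norm_le_iff_of_nonneg (by positivity)]
    intro j
    have h4 := (norm_le_pi_norm (vR c ᵥ* N) (some j)).trans h3
    have e : (vR c ᵥ* N) (some j) = (vR c ᵥ* M) j / B := by
      simp [hN, Matrix.vecMul, dotProduct, Finset.sum_div, mul_div_assoc]
    rwa [e, norm_div, Real.norm_of_nonneg hB.le, div_le_iff₀ hB] at h4
  · have h4 := (norm_le_pi_norm (vR c ᵥ* N) none).trans h3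
    have e : (vR c ᵥ* N) none = (vR c ⬝ᵥ φ) / A := by
      simp [hN, Matrix.vecMul, dotProduct, Finset.sum_div, mul_div_assoc]
    rwa [e, norm_div, Real.norm_of_nonneg hA.le, div_le_iff₀ hA] at h4

end Pool.Agent.MP_b9de27_nt

end

-- part MP_b9de27_nt.Liouville
section

/-!
Lower bounds for the contracted minors near `0` and near a real root of `X ^ n - 2`.
-/

set_option autoImplicit false

open Matrix Set Polynomial

namespace Pool.Agent.MP_b9de27_nt

lemma dot_pw {n : ℕ} (v : Fin (n + 1) → ℤ) (x : ℝ) :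
    vR v ⬝ᵥ pw n x = aeval x (toPoly v) := by
  simp [toPoly, vR, pw, dotProduct]

lemma irreducible_X_pow_sub_two (m : ℕ) : Irreducible (X ^ (m + 1) - C 2 : ℚ[X]) := by
  have hm : (X ^ (m + 1) - C 2 : ℤ[X]).Monic := monic_X_pow_sub_C _ (Nat.succ_ne_zero m)
  have h1 : Irreducible (X ^ (m + 1) - C 2 : ℤ[X]) := by
    have hP : (Ideal.span {(2 : ℤ)}).IsPrime :=
      (Ideal.span_singleton_prime (by norm_num)).2 Int.prime_two
    have hdeg : (X ^ (m + 1) - C 2 : ℤ[X]).degree = (m + 1 : ℕ) :=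
      degree_X_pow_sub_C (Nat.succ_pos m) _
    refine irreducible_of_eisenstein_criterion hP ?_ ?_ ?_ ?_ hm.isPrimitive
    · rw [hm.leadingCoeff, Ideal.mem_span_singleton]; norm_num
    · intro k hk
      rw [hdeg] at hk
      have hk' : k < m + 1 := by exact_mod_cast hk
      rw [coeff_sub, coeff_X_pow, if_neg hk'.ne, coeff_C, Ideal.mem_span_singleton]
      split_ifs <;> norm_num
    · rw [hdeg]; exact_mod_cast Nat.succ_pos m
    · rw [coeff_sub, coeff_X_pow, if_neg (Nat.succ_ne_zero m).symm, coeff_C_zero,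
        Ideal.span_singleton_pow, Ideal.mem_span_singleton]
      norm_num
  have := (hm.irreducible_iff_irreducible_map_fraction_map (K := ℚ)).1 h1
  rw [Polynomial.map_sub, Polynomial.map_pow, map_X, map_C] at this
  exact this

lemma aeval_ne_zero_of_lt {m : ℕ} {β : ℝ} (hβ : β ^ (m + 1) = 2) (p : ℤ[X]) (hp : p ≠ 0)
    (hd : p.natDegree ≤ m) : aeval β p ≠ 0 := by
  intro h
  have h1 := minpoly.eq_of_irreducible_of_monic (irreducible_X_pow_sub_two m) (x := β)
    (by simp [hβ]) (monic_X_pow_sub_C _ (Nat.succ_ne_zero m))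
  have h2 := minpoly.degree_le_of_ne_zero ℚ β (p := p.map (algebraMap ℤ ℚ))
    ((Polynomial.map_ne_zero_iff (algebraMap ℤ ℚ).injective_int).2 hp)
    (by rw [aeval_map_algebraMap]; exact h)
  rw [← h1, degree_X_pow_sub_C (Nat.succ_pos m)] at h2
  have h3 := h2.trans (degree_map_le.trans degree_le_natDegree)
  have : m + 1 ≤ p.natDegree := by exact_mod_cast h3
  omega

lemma liouville {m : ℕ} {β : ℝ} (hβ : β ^ (m + 1) = 2) : ∃ c : ℝ, 0 < c ∧
    ∀ R : Fin (m + 2) → ℤ, vR R ⬝ᵥ pw (m + 1) β ≠ 0 →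
      c ≤ |vR R ⬝ᵥ pw (m + 1) β| * ‖vR R‖ ^ m := by
  set G : ℤ[X] := X ^ (m + 1) - C 2 with hG
  have hGm : G.Monic := monic_X_pow_sub_C _ (Nat.succ_ne_zero m)
  have hGd : G.natDegree = m + 1 := natDegree_X_pow_sub_C
  have hG0 : aeval β G = 0 := by
    rw [hG, map_sub, map_pow, aeval_X, aeval_C, hβ]; simp
  set t : Fin (m + 1) → Fin (m + 2) → Fin (m + 1) → ℤ :=
    fun i j l => ((X ^ ((i : ℕ) + j) : ℤ[X]) %ₘ G).coeff l with ht
  have ht1 : ∀ i j, vR (t i j) ⬝ᵥ pw m β = β ^ ((i : ℕ) + j) := by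
    intro i j
    have hlt : ((X ^ ((i : ℕ) + j) : ℤ[X]) %ₘ G).natDegree ≤ m := by
      have := natDegree_modByMonic_lt (X ^ ((i : ℕ) + j) : ℤ[X]) hGm (by
        intro h; rw [h] at hGd; simp at hGd)
      omega
    rw [dot_pw, ht, toPoly_coeff _ hlt, aeval_modByMonic_eq_self_of_root hG0]
    simp
  set K : ℝ := (m + 2) * ‖fun i j l => (t i j l : ℝ)‖ + ‖pw m β‖ + 1 with hK
  have hK0 : 0 < K := by positivity
  refine ⟨1 / ((m + 1).factorial * K ^ (m + 1)), by positivity, fun R hR => ?_⟩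
  set ρ := vR R ⬝ᵥ pw (m + 1) β with hρ
  set A : Matrix (Fin (m + 1)) (Fin (m + 1)) ℤ := Matrix.of fun i l => ∑ j, R j * t i j l with hA
  have h1 : toR A *ᵥ pw m β = ρ • pw m β := by
    funext i
    have : (toR A *ᵥ pw m β) i = ∑ j, (R j : ℝ) * (vR (t i j) ⬝ᵥ pw m β) := by
      simp only [hA, Matrix.mulVec, dotProduct, toR_apply, of_apply, vR, Int.cast_sum, Int.cast_mul,
        Finset.sum_mul, Finset.mul_sum]
      rw [Finset.sum_comm]
      refine Finset.sum_congr rfl fun i _ => Finset.sum_congr rfl fun j _ => by ring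
    rw [this]
    simp only [ht1]
    simp only [hρ, Pi.smul_apply, smul_eq_mul, dotProduct, vR, pw, Finset.sum_mul, pow_add]
    refine Finset.sum_congr rfl fun j _ => by ring
  have h2 : A.det ≠ 0 := by
    intro h
    obtain ⟨c, hc, hcA⟩ := Matrix.exists_vecMul_eq_zero_iff.2 h
    have h3 : vR c ⬝ᵥ (toR A *ᵥ pw m β) = 0 := by
      rw [dotProduct_mulVec]
      have : vR c ᵥ* toR A = vR (c ᵥ* A) := by
        funext j; simp [vR, Matrix.vecMul, dotProduct]
      rw [this, hcA]
      simp [vR, dotProduct]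
    rw [h1, dotProduct_smul, smul_eq_mul, dot_pw] at h3
    exact mul_ne_zero hR (aeval_ne_zero_of_lt hβ _ (fun h => hc (toPoly_eq_zero h))
      (natDegree_toPoly c)) h3
  have h3 := one_le_abs_det_toR A h2
  have h4 : (toR A).det = ρ * ((toR A).updateCol 0 (pw m β)).det := by
    rw [← det_updateCol_smul, ← h1]
    have := det_updateCol_sum (toR A) 0 (pw m β)
    simp only [pw, Fin.val_zero, pow_zero, smul_eq_mul, one_mul] at this
    rw [← this]
    congr 2
    funext k; simp [Matrix.mulVec, dotProduct, pw, mul_comm]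
  have hR0 : 0 < ‖vR R‖ := by
    rw [norm_pos_iff]
    intro h; apply hR; rw [hρ, h]; simp
  set H := ‖vR R‖ with hH
  have h5 : ∀ i l, |((toR A).updateCol 0 (H • pw m β)) i l| ≤ K * H := by
    intro i l
    have hn1 : 0 ≤ ‖fun i j l => (t i j l : ℝ)‖ := norm_nonneg _
    have hn2 : 0 ≤ ‖pw m β‖ := norm_nonneg _
    rw [updateCol_apply]
    split_ifs
    · rw [Pi.smul_apply, smul_eq_mul, abs_mul, abs_of_pos hR0, mul_comm]
      refine mul_le_mul_of_nonneg_right ((norm_le_pi_norm (pw m β) i).trans ?_) hR0.le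
      have : 0 ≤ ((m : ℝ) + 2) * ‖fun i j l => (t i j l : ℝ)‖ := by positivity
      linarith
    · simp only [hA, toR_apply, of_apply, Int.cast_sum, Int.cast_mul]
      refine (Finset.abs_sum_le_sum_abs _ _).trans ?_
      have : ∀ j, |(R j : ℝ) * (t i j l : ℝ)| ≤ H * ‖fun i j l => (t i j l : ℝ)‖ := by
        intro j
        rw [abs_mul]
        refine mul_le_mul (norm_le_pi_norm (vR R) j) ?_ (abs_nonneg _) hR0.le
        exact ((norm_le_pi_norm (fun l => (t i j l : ℝ)) l).trans
          (norm_le_pi_norm (fun j l => (t i j l : ℝ)) j)).trans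
          (norm_le_pi_norm (fun i j l => (t i j l : ℝ)) i)
      refine (Finset.sum_le_sum fun j _ => this j).trans ?_
      simp only [Finset.sum_const, Finset.card_univ, Fintype.card_fin, nsmul_eq_mul]
      push_cast
      nlinarith
  have h6 := Matrix.det_le (abv := AbsoluteValue.abs) h5
  simp only [AbsoluteValue.abs_apply, Fintype.card_fin, nsmul_eq_mul] at h6
  rw [det_updateCol_smul, abs_mul, abs_of_pos hR0, mul_pow, pow_succ H] at h6
  have h7 : |((toR A).updateCol 0 (pw m β)).det| ≤ (m + 1).factorial * K ^ (m + 1) * H ^ m := by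
    refine le_of_mul_le_mul_left (h6.trans (le_of_eq ?_)) hR0
    ring
  rw [h4, abs_mul] at h3
  rw [div_le_iff₀ (by positivity)]
  calc 1 ≤ |ρ| * |((toR A).updateCol 0 (pw m β)).det| := h3
    _ ≤ |ρ| * ((m + 1).factorial * K ^ (m + 1) * H ^ m) := by gcongr
    _ = _ := by ring

lemma vR_vecMul {ι κ : Type*} [Fintype ι] (c : ι → ℤ) (M : Matrix ι κ ℤ) :
    vR c ᵥ* toR M = vR (c ᵥ* M) := by
  funext j; simp [vR, Matrix.vecMul, dotProduct]

lemma toR_mulVec {ι κ : Type*} [Fintype κ] (M : Matrix ι κ ℤ) (x : κ → ℤ) :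
    toR M *ᵥ vR x = vR (M *ᵥ x) := by
  funext j; simp [vR, Matrix.mulVec, dotProduct]

lemma ee_lower_aux {m : ℕ} {β : ℝ} (hβ : β ^ (m + 1) = 2) : ∃ c : ℝ, 0 < c ∧
    ∀ (r : ℕ), r ≤ m → ∀ M : Matrix (Fin (r + 1)) (Fin (m + 2)) ℤ, Indep M →
      (∀ c : Fin (r + 1) → ℤ, c ≠ 0 → vR (c ᵥ* M) ⬝ᵥ pw (m + 1) β ≠ 0) →
      c * Real.exp (-((m : ℝ) - r) * (Real.log (mm (toR M)) / (r + 1))) ≤
        ee (toR M) (toR M *ᵥ pw (m + 1) β) := by
  obtain ⟨c, hc, hL⟩ := liouville hβ
  set K : ℝ := 2 * (m + 1) with hK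
  have hK0 : 0 < K := by positivity
  refine ⟨c / (2 * K ^ (m + 1)), by positivity, fun r hr M hM hne => ?_⟩
  have hD := hM.one_le_mm
  set s := Real.log (mm (toR M)) / (r + 1) with hs
  set B := Real.exp s with hB
  have hB0 : 0 < B := Real.exp_pos s
  have hBD : B ^ (r + 1) = mm (toR M) := by
    rw [hB, ← Real.exp_nat_mul, hs]
    push_cast
    rw [mul_div_cancel₀ _ (by positivity), Real.exp_log (by linarith)]
  have e : Real.exp (-((m : ℝ) - r) * s) = B ^ r / B ^ m := by
    rw [hB, ← Real.exp_nat_mul, ← Real.exp_nat_mul, ← Real.exp_sub]; congr 1; ring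
  by_contra hn
  push Not at hn
  obtain ⟨v, hv, h1, h2⟩ := minkowski_ee (toR M) (toR M *ᵥ pw (m + 1) β)
    (c / (2 * K ^ (m + 1) * B ^ m)) B (by positivity) hB0 (by linarith) hBD.ge (by
      refine hn.le.trans (le_of_eq ?_)
      rw [e]; field_simp)
  rw [dotProduct_mulVec, vR_vecMul] at h2
  rw [vR_vecMul] at h1
  have h3 := hL _ (hne v hv)
  have hrK : 2 * ((r : ℝ) + 1) ≤ K := by
    have : (r : ℝ) ≤ m := by exact_mod_cast hr
    linarith
  have h4 : ‖vR (v ᵥ* M)‖ ≤ K * B := h1.trans (by gcongr)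
  have h5 : |vR (v ᵥ* M) ⬝ᵥ pw (m + 1) β| ≤ K * (c / (2 * K ^ (m + 1) * B ^ m)) :=
    h2.trans (by gcongr)
  have h6 : |vR (v ᵥ* M) ⬝ᵥ pw (m + 1) β| * ‖vR (v ᵥ* M)‖ ^ m ≤
      K * (c / (2 * K ^ (m + 1) * B ^ m)) * (K * B) ^ m := by gcongr
  have h7 : K * (c / (2 * K ^ (m + 1) * B ^ m)) * (K * B) ^ m = c / 2 := by
    clear_value K B
    rw [mul_pow K B, pow_succ K]
    field_simp
  linarith

/-- A nonzero integer vector vanishing at `β` is a multiple of `X ^ (m + 1) - 2`. -/
lemma eq_of_root {m : ℕ} {β : ℝ} (hβ : β ^ (m + 1) = 2) (R : Fin (m + 2) → ℤ)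
    (h0 : vR R ⬝ᵥ pw (m + 1) β = 0) :
    toPoly R = C (R (Fin.last (m + 1))) * (X ^ (m + 1) - C 2) := by
  by_contra hne
  refine aeval_ne_zero_of_lt hβ _ (sub_ne_zero.2 hne) ?_ ?_
  · rw [natDegree_le_iff_coeff_eq_zero]
    intro N hN
    rw [coeff_sub, coeff_C_mul, coeff_sub, coeff_X_pow, coeff_C, if_neg (show N ≠ 0 by omega)]
    by_cases h : N = m + 1
    · have := coeff_toPoly R (Fin.last (m + 1))
      rw [Fin.val_last] at this
      rw [h, this]; simp
    · rw [if_neg h, coeff_eq_zero_of_natDegree_lt (lt_of_le_of_lt (natDegree_toPoly R) (by omega))]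
      simp
  · rw [map_sub, ← dot_pw, h0, map_mul, map_sub, map_pow, aeval_X, aeval_C, aeval_C, hβ]; simp

theorem ee_lower_B {m : ℕ} {β : ℝ} (hβ : β ^ (m + 1) = 2) (hβ1 : 1 ≤ β) : ∃ c : ℝ, 0 < c ∧
    ∀ (r : ℕ), r ≤ m → ∀ M : Matrix (Fin (r + 1)) (Fin (m + 2)) ℤ, Indep M →
      (c * Real.exp (-((m : ℝ) - r) * (Real.log (mm (toR M)) / (r + 1))) ≤
        ee (toR M) (toR M *ᵥ pw (m + 1) β)) ∨
      ((∀ δ : ℝ, 0 < δ → c * (δ * mm (toR M)) ≤ ee (toR M) (toR M *ᵥ pw (m + 1) (β + δ))) ∧
        (r = 0 ∨ c * Real.exp (-((m : ℝ) + 1 - r) * (Real.log (mm (toR M)) / r)) ≤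
          ee (toR M) (toR M *ᵥ pw (m + 1) β))) := by
  obtain ⟨c, hc, hL⟩ := ee_lower_aux hβ
  refine ⟨min c (1 / (2 * (m + 1))), lt_min hc (by positivity), fun r hr M hM => ?_⟩
  by_cases hne : ∀ c : Fin (r + 1) → ℤ, c ≠ 0 → vR (c ᵥ* M) ⬝ᵥ pw (m + 1) β ≠ 0
  · left
    exact (mul_le_mul_of_nonneg_right (min_le_left _ _) (Real.exp_pos _).le).trans
      (hL r hr M hM hne)
  right
  push Not at hne
  obtain ⟨v, hv, hv0⟩ := hne
  have hR := eq_of_root hβ _ hv0
  set a := (v ᵥ* M) (Fin.last (m + 1)) with ha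
  have ha0 : a ≠ 0 := by
    intro h
    rw [h, C_0, zero_mul] at hR
    exact hv (hM v (toPoly_eq_zero hR))
  constructor
  · intro δ hδ
    have h1 := abs_dot_mul_mm_le (toR M) (vR v) (toR M *ᵥ pw (m + 1) (β + δ))
    rw [dotProduct_mulVec, vR_vecMul, dot_pw, hR] at h1
    simp only [map_mul, map_sub, map_pow, aeval_X, eq_intCast, map_intCast, map_ofNat] at h1
    have h2 : ‖vR (v ᵥ* M)‖ ≤ |(a : ℝ)| * 2 := by
      rw [pi_norm_le_iff_of_nonneg (by positivity)]
      intro j
      have := coeff_toPoly (v ᵥ* M) j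
      rw [hR, coeff_C_mul, coeff_sub, coeff_X_pow, coeff_C] at this
      simp only [vR, ← this, Real.norm_eq_abs, Int.cast_mul, abs_mul]
      refine mul_le_mul_of_nonneg_left ?_ (abs_nonneg _)
      split_ifs <;> norm_num
    have h3 : δ ≤ (β + δ) ^ (m + 1) - 2 := by
      rw [← hβ, pow_succ, pow_succ]
      have h4 : β ^ m ≤ (β + δ) ^ m := pow_le_pow_left₀ (by linarith) (by linarith) m
      have h5 : 1 ≤ β ^ m := one_le_pow₀ hβ1
      nlinarith
    have ha1 : 0 < |(a : ℝ)| := abs_pos.2 (by exact_mod_cast ha0)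
    have hD := mm_nonneg (toR M)
    have hE := ee_nonneg (toR M) (toR M *ᵥ pw (m + 1) (β + δ))
    rw [abs_mul, abs_of_nonneg (hδ.le.trans h3)] at h1
    have hr' : ((r + 1 : ℕ) : ℝ) ≤ m + 1 := by exact_mod_cast Nat.succ_le_succ hr
    have h6 : |(a : ℝ)| * (δ * mm (toR M)) ≤
        |(a : ℝ)| * (2 * (m + 1) * ee (toR M) (toR M *ᵥ pw (m + 1) (β + δ))) := by
      calc |(a : ℝ)| * (δ * mm (toR M))
          ≤ |(a : ℝ)| * (((β + δ) ^ (m + 1) - 2) * mm (toR M)) := by gcongr
        _ = |(a : ℝ)| * ((β + δ) ^ (m + 1) - 2) * mm (toR M) := by ring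
        _ ≤ _ := h1
        _ ≤ (m + 1) * (|(a : ℝ)| * 2) * ee (toR M) (toR M *ᵥ pw (m + 1) (β + δ)) := by gcongr
        _ = _ := by ring
    have h7 := le_of_mul_le_mul_left h6 ha1
    calc min c (1 / (2 * (m + 1))) * (δ * mm (toR M))
        ≤ 1 / (2 * (m + 1)) * (2 * (m + 1) * ee (toR M) (toR M *ᵥ pw (m + 1) (β + δ))) :=
          mul_le_mul (min_le_right _ _) h7 (by positivity) (by positivity)
      _ = _ := by field_simp
  · rcases Nat.eq_zero_or_pos r with h0 | h0
    · exact Or.inl h0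
    right
    obtain ⟨r, rfl⟩ : ∃ r', r = r' + 1 := ⟨r - 1, by omega⟩
    obtain ⟨A, hA, hA'⟩ := exists_unimod (fun i => M i (Fin.last (m + 1)))
    have hA0 : A.det ≠ 0 := by intro h0; simp [h0] at hA
    have hI' : Indep (A * M) := hM.mul hA0
    set U := (A * M).submatrix Fin.succ id with hU
    have hlast : ∀ i, i ≠ 0 → (A * M) i (Fin.last (m + 1)) = 0 := by
      intro i hi
      rw [← hA' i hi]; simp [Matrix.mul_apply, Matrix.mulVec, dotProduct]
    have hg : (A * M) 0 (Fin.last (m + 1)) ≠ 0 := by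
      intro h
      have h1 : A *ᵥ (fun i => M i (Fin.last (m + 1))) = 0 := by
        funext i
        by_cases hi : i = 0
        · rw [hi, Pi.zero_apply, ← h]; simp [Matrix.mul_apply, Matrix.mulVec, dotProduct]
        · exact hA' i hi
      have h2 : (fun i => M i (Fin.last (m + 1))) = 0 := by
        by_contra hne
        exact hA0 (Matrix.exists_mulVec_eq_zero_iff.1 ⟨_, hne, h1⟩)
      apply ha0
      rw [ha]
      simp only [Matrix.vecMul, dotProduct]
      exact Finset.sum_eq_zero fun i _ => by rw [congrFun h2 i]; simp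
    have hg1 : (1 : ℝ) ≤ |(toR (A * M) 0 (Fin.last (m + 1)))| := by
      rw [toR_apply, ← Int.cast_abs]; exact_mod_cast Int.one_le_abs hg
    have h1 := hL r (by omega) U hI'.succ (by
      intro c hc h
      have h2 := eq_of_root hβ _ h
      have h3 : (c ᵥ* U) (Fin.last (m + 1)) = 0 := by
        simp only [Matrix.vecMul, dotProduct]
        exact Finset.sum_eq_zero fun i _ => by
          simp [hU, hlast i.succ (Fin.succ_ne_zero i)]
      rw [h3, C_0, zero_mul] at h2
      exact hc (hI'.succ c (toPoly_eq_zero h2)))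
    have hdet : |(toR A).det| = 1 := by rw [det_toR, ← Int.cast_abs, hA]; simp
    have eD : mm (toR (A * M)) = mm (toR M) := by rw [toR_mul, mm_mul, hdet, one_mul]
    have eE : ee (toR (A * M)) (toR (A * M) *ᵥ pw (m + 1) β) =
        ee (toR M) (toR M *ᵥ pw (m + 1) β) := by
      rw [toR_mul, ← mulVec_mulVec, ee_mul, hdet, one_mul]
    have key : ∀ (J : Fin (r + 1) → Fin (m + 2)) (B : Matrix (Fin (r + 2)) (Fin (r + 2)) ℝ),
        (∀ k, B k 0 = toR (A * M) k (Fin.last (m + 1))) →
        |(B.submatrix Fin.succ Fin.succ).det| ≤ |B.det| := by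
      intro J B hB
      have eB : B = B.updateCol 0 (fun k => toR (A * M) k (Fin.last (m + 1))) := by
        ext k l
        refine Fin.cases ?_ (fun l => ?_) l
        · rw [updateCol_self, hB]
        · rw [updateCol_ne (Fin.succ_ne_zero l)]
      have := abs_det_updateCol_single B 0 0 (fun k => toR (A * M) k (Fin.last (m + 1)))
        (fun k hk => by simp [hlast k hk])
      rw [← eB, Fin.succAbove_zero] at this
      rw [this]
      exact le_mul_of_one_le_left (abs_nonneg _) hg1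
    have hDU : mm (toR U) ≤ mm (toR M) := by
      rw [← eD]
      refine mm_le _ (mm_nonneg _) fun J => ?_
      refine le_trans (le_of_eq ?_) ((key J ((toR (A * M)).submatrix id
        (Fin.cons (Fin.last (m + 1)) J)) (fun k => by simp)).trans (abs_det_le_mm _ _))
      congr 2
    have hEU : ee (toR U) (toR U *ᵥ pw (m + 1) β) ≤ ee (toR M) (toR M *ᵥ pw (m + 1) β) := by
      rw [← eE]
      refine ee_le _ _ (ee_nonneg _ _) fun J i => ?_
      refine le_trans (le_of_eq ?_) ((key J (((toR (A * M)).submatrix id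
        (Fin.cons (Fin.last (m + 1)) J)).updateCol i.succ (toR (A * M) *ᵥ pw (m + 1) β))
        (fun k => by rw [updateCol_ne (Fin.succ_ne_zero i).symm]; simp)).trans
        (abs_det_le_ee _ _ _ _))
      congr 2
      ext k l
      by_cases hl : l = i
      · subst hl; simp [hU, Matrix.mulVec, dotProduct]
      · simp [hU, hl]
    refine le_trans ?_ (h1.trans hEU)
    refine mul_le_mul (min_le_left _ _) (Real.exp_le_exp.2 ?_) (Real.exp_pos _).le hc.le
    have h2 : Real.log (mm (toR U)) ≤ Real.log (mm (toR M)) :=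
      Real.log_le_log (lt_of_lt_of_le one_pos hI'.succ.one_le_mm) hDU
    have h3 : (r : ℝ) ≤ m := by exact_mod_cast (by omega : r ≤ m)
    push_cast
    have h4 : Real.log (mm (toR U)) / (r + 1) ≤ Real.log (mm (toR M)) / (r + 1) := by gcongr
    nlinarith

theorem ee_lower_A (n : ℕ) : ∃ c : ℝ, 0 < c ∧
    ∀ (r : ℕ) (M : Matrix (Fin (r + 1)) (Fin (n + 1)) ℤ), Indep M → ∀ δ : ℝ, 0 < δ → δ ≤ 1 →
      ∃ η ∈ Icc 0 δ, c * δ ^ (n - r) ≤ ee (toR M) (toR M *ᵥ pw n η) := by
  classical
  obtain ⟨c, hc, hcs⟩ := coeff_le_sup n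
  refine ⟨c, hc, fun r M hM δ hδ hδ1 => ?_⟩
  obtain ⟨J, hJ⟩ := hM.exists_det_ne_zero
  have hinj : Function.Injective J := by
    intro i i' h
    by_contra hne
    exact hJ (det_zero_of_column_eq hne (fun k => by simp [h]))
  obtain ⟨i, hi⟩ := Finite.exists_min J
  have hle : (J i : ℕ) ≤ n - r := by
    have := Finset.card_le_card_of_injOn (s := Finset.univ) (t := Finset.Ici (J i)) J
      (fun l _ => by simpa using hi l) hinj.injOn
    simp only [Finset.card_univ, Fintype.card_fin, Fin.card_Ici] at this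
    omega
  obtain ⟨s, hs, h1⟩ := hcs
    (fun j => δ ^ (j : ℕ) * ((toR M).submatrix id (Function.update J i j)).det)
  refine ⟨δ * s, ⟨by nlinarith [hs.1], by nlinarith [hs.2]⟩, ?_⟩
  refine le_trans ?_ (abs_det_le_ee _ _ J i)
  rw [det_updateCol_mulVec]
  refine le_trans ?_ (h1.trans (le_of_eq ?_))
  · refine mul_le_mul_of_nonneg_left ?_ hc.le
    refine le_trans ?_ (norm_le_pi_norm _ (J i))
    rw [Function.update_eq_self, Real.norm_eq_abs, abs_mul, abs_of_pos (pow_pos hδ _)]
    have h2 : 1 ≤ |((toR M).submatrix id J).det| := one_le_abs_det_toR _ hJ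
    exact (pow_le_pow_of_le_one hδ.le hδ1 hle).trans
      (le_mul_of_one_le_right (pow_pos hδ _).le h2)
  · congr 1
    refine Finset.sum_congr rfl fun j _ => ?_
    simp only [pw, mul_pow]; ring

theorem ee_lower_full (n : ℕ) (M : Matrix (Fin (n + 1)) (Fin (n + 1)) ℤ) (hM : Indep M) (η : ℝ) :
    1 ≤ ee (toR M) (toR M *ᵥ pw n η) := by
  have hdet : M.det ≠ 0 := by
    intro h
    obtain ⟨c, hc, hc0⟩ := Matrix.exists_vecMul_eq_zero_iff.2 h
    exact hc (hM c hc0)
  refine (one_le_abs_det_toR _ hdet).trans (le_trans (le_of_eq ?_) (abs_det_le_ee _ _ id 0))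
  have := det_updateCol_sum (toR M) 0 (pw n η)
  simp only [pw, Fin.val_zero, pow_zero, smul_eq_mul, one_mul] at this
  rw [← this]
  congr 3
  funext k; simp [Matrix.mulVec, dotProduct, pw, mul_comm]

end Pool.Agent.MP_b9de27_nt

end
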