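import Pool.Agent.MP_b9de27_nt.Mg.Transfer

-- part MP_b9de27_nt.Step
section

/-!
The inductive step of the construction.
-/

set_option autoImplicit false

open Matrix Set Polynomial MeasureTheory Metric

namespace Pool.Agent.MP_b9de27_nt

/-- The shrinking factor at time `j`. -/
noncomputable def ej (n j : ℕ) : ℝ := (1 / ((j : ℝ) + 1) ^ 3) ^ NN n

/-- An integer polynomial which is too small at `x` at time `j`. -/
def BadW (n : ℕ) (w : ℝ) (j : ℕ) (x : ℝ) : Prop :=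
  ∃ v : Fin (n + 1) → ℤ, v ≠ 0 ∧ ‖vR v‖ ≤ ej n j * Real.exp j ∧
    |vR v ⬝ᵥ pw n x| ≤ ej n j * Real.exp (-(w * j))

/-- A simultaneous approximation which is too good at `x` at time `j`. -/
def BadL (n : ℕ) (l : ℝ) (j : ℕ) (x : ℝ) : Prop :=
  ∃ z : Fin (n + 1) → ℤ, z ≠ 0 ∧ |(z 0 : ℝ)| ≤ ej n j * Real.exp j ∧
    ∀ i : Fin (n + 1), |(z 0 : ℝ) * x ^ (i : ℕ) - z i| ≤ ej n j * Real.exp (-(l * j))

/-- The point `x` is bad at time `j`. -/
def Bad (n : ℕ) (w l : ℝ) (j : ℕ) (x : ℝ) : Prop := BadW n w j x ∨ BadL n l j x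

lemma ShortV.mono {k : ℕ} {h : Matrix (Fin k) (Fin k) ℝ} {ε ε' : ℝ} (H : ShortV h ε)
    (hε : ε ≤ ε') : ShortV h ε' := by
  obtain ⟨v, h1, h2⟩ := H; exact ⟨v, h1, h2.trans hε⟩

lemma ShortC.mono {k : ℕ} {h : Matrix (Fin k) (Fin k) ℝ} {ε ε' : ℝ} (H : ShortC h ε)
    (hε : ε ≤ ε') : ShortC h ε' := by
  obtain ⟨v, h1, y, h2, h3⟩ := H; exact ⟨v, h1, y, h2, h3.trans hε⟩

lemma one_le_NN {n : ℕ} (hn : 1 ≤ n) : 1 ≤ NN n := by
  unfold NN dd
  nlinarith [Nat.zero_le (((n + 1) * (4 * n) + 1) * ((n + 1) * (4 * n)))]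

lemma ej_le {n : ℕ} (hn : 1 ≤ n) {K ε : ℝ} (hε : 0 < ε) (j : ℕ) (h : K ≤ ε * (j + 1)) :
    K * ej n j ≤ ε * (1 / ((j : ℝ) + 1) ^ 2) ^ NN n := by
  have hj : (1 : ℝ) ≤ j + 1 := by linarith [Nat.cast_nonneg (α := ℝ) j]
  have e : (1 / ((j : ℝ) + 1) ^ 2) ^ NN n = (j + 1) ^ NN n * ej n j := by
    rw [ej, ← mul_pow]; congr 1; field_simp
  rw [e, ← mul_assoc]
  refine mul_le_mul_of_nonneg_right (h.trans ?_) (by unfold ej; positivity)
  exact mul_le_mul_of_nonneg_left (le_self_pow₀ hj (by have := one_le_NN hn; omega)) hε.le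

lemma Adm.mob_lt {θ Q : ℝ} {p q r s : ℤ} (h : Adm θ Q p q r s) {η η' : ℝ} (hη : 0 ≤ η)
    (hlt : η < η') : mob p q r s η < mob p q r s η' := by
  have h1 := h.den_pos hη
  have h2 := h.den_pos (hη.trans hlt.le)
  rw [← sub_pos, h.mob_sub (hη.trans hlt.le) hη]
  exact div_pos (by linarith) (by positivity)

lemma Adm.exists_param {θ Q : ℝ} {p q r s : ℤ} (h : Adm θ Q p q r s) {β δ : ℝ} (hβ : 0 ≤ β)
    (hδ : 0 < δ) {x : ℝ} (hx : x ∈ Icc (mob p q r s (β + δ)) (mob p q r s (β + 2 * δ))) :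
    ∃ τ ∈ Icc (1 : ℝ) 2, mob p q r s (β + δ * τ) = x := by
  have hc : ContinuousOn (fun τ => mob p q r s (β + δ * τ)) (Icc 1 2) := by
    unfold mob
    refine ContinuousOn.div (by fun_prop) (by fun_prop) fun τ hτ => ?_
    exact (h.den_pos (by nlinarith [hτ.1])).ne'
  have := intermediate_value_Icc (show (1 : ℝ) ≤ 2 by norm_num) hc
  rw [mul_one, mul_comm δ 2] at this
  exact this hx

lemma single_gamma {θ Q : ℝ} {p q r s : ℤ} (h : Adm θ Q p q r s) {β δ : ℝ} (hβ0 : 0 ≤ β)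
    (hβ2 : β ≤ 2) (hδ : 0 < δ) (hδ3 : 3 * δ ≤ 1) (P : ℝ → Prop) (P' : ℝ → Prop)
    (hP : ∀ τ ∈ Icc (1 : ℝ) 2, P (mob p q r s (β + δ * τ)) → P' τ)
    (hvol : volume {τ | τ ∈ Icc (1 : ℝ) 2 ∧ P' τ} ≤ ENNReal.ofReal (1 / 50)) :
    volume {x | x ∈ Icc (mob p q r s (β + δ)) (mob p q r s (β + 2 * δ)) ∧ P x} ≤
      ENNReal.ofReal ((mob p q r s (β + 2 * δ) - mob p q r s (β + δ)) / 2) := by
  have hq : (0 : ℝ) < q := by linarith [h.q1R]
  set g : ℝ → ℝ := fun τ => mob p q r s (β + δ * τ) with hg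
  set S := {τ | τ ∈ Icc (1 : ℝ) 2 ∧ P' τ} with hS
  have hsub : {x | x ∈ Icc (mob p q r s (β + δ)) (mob p q r s (β + 2 * δ)) ∧ P x} ⊆ g '' S := by
    rintro x ⟨hx, hPx⟩
    obtain ⟨τ, hτ, e⟩ := h.exists_param hβ0 hδ hx
    exact ⟨τ, ⟨hτ, hP τ hτ (by rwa [e])⟩, e⟩
  have hL : LipschitzOnWith (Real.toNNReal (δ / q ^ 2)) g S := by
    refine LipschitzOnWith.of_dist_le_mul fun τ hτ τ' hτ' => ?_
    have h1 : 0 ≤ β + δ * τ := by nlinarith [hτ.1.1]
    have h2 : 0 ≤ β + δ * τ' := by nlinarith [hτ'.1.1]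
    have h3 := h.den_pos h1
    have h4 := h.den_pos h2
    rw [Real.coe_toNNReal _ (by positivity), Real.dist_eq, Real.dist_eq, hg]
    simp only
    rw [h.mob_sub h1 h2, abs_div, abs_of_pos (mul_pos h3 h4),
      show β + δ * τ - (β + δ * τ') = δ * (τ - τ') by ring, abs_mul, abs_of_pos hδ,
      div_mul_eq_mul_div]
    refine div_le_div_of_nonneg_left (by positivity) (by positivity) ?_
    rw [pow_two]
    exact mul_le_mul (h.den_ge h1) (h.den_ge h2) hq.le h3.le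
  have h1 := hL.hausdorffMeasure_image_le (d := 1) zero_le_one
  rw [hausdorffMeasure_real, ENNReal.rpow_one] at h1
  refine (measure_mono hsub).trans (h1.trans ?_)
  calc ((Real.toNNReal (δ / q ^ 2) : NNReal) : ENNReal) * volume S
      ≤ ENNReal.ofReal (δ / q ^ 2) * ENNReal.ofReal (1 / 50) := by
        exact mul_le_mul_right hvol _
    _ = ENNReal.ofReal (δ / q ^ 2 * (1 / 50)) := by rw [← ENNReal.ofReal_mul (by positivity)]
    _ ≤ _ := by
        apply ENNReal.ofReal_le_ofReal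
        have h2 : 0 ≤ β + δ := by linarith
        have h3 : 0 ≤ β + 2 * δ := by linarith
        have h4 := h.den_pos h2
        have h5 := h.den_pos h3
        rw [h.mob_sub h3 h2, show β + 2 * δ - (β + δ) = δ by ring, div_div, div_mul_div_comm,
          mul_one]
        refine div_le_div_of_nonneg_left hδ.le (by positivity) ?_
        have := mul_le_mul (h.den_le (η := β + 2 * δ) (by linarith))
          (h.den_le (η := β + δ) (by linarith)) h4.le (by positivity)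
        nlinarith

lemma exists_adm {θ Q : ℝ} {p q : ℤ} (hc : IsCoprime p q) (h1 : θ * Q ≤ q) (h2 : (q : ℝ) ≤ Q)
    (h3 : 1 ≤ q) (h4 : 0 ≤ p) (h5 : p ≤ q) : ∃ r s : ℤ, Adm θ Q p q r s ∧ s < 2 * q := by
  obtain ⟨u, v, huv⟩ := hc
  have hq : q ≠ 0 := by omega
  have e := Int.mul_ediv_add_emod u q
  have h6 := Int.emod_nonneg u hq
  have h7 := Int.emod_lt_of_pos u (show 0 < q by omega)
  refine ⟨-v + p * (1 - u / q), u % q + q, ⟨?_, h1, h2, h3, h4, h5, by omega, by omega⟩, by omega⟩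
  linear_combination huv + p * e

lemma adm_sep {θ Q : ℝ} {p q r s p' q' r' s' : ℤ} (h : Adm θ Q p q r s) (h' : Adm θ Q p' q' r' s')
    (hp : p < q) (hp' : p' < q') (hne : (p, q) ≠ (p', q')) :
    1 / Q ^ 2 ≤ |(s : ℝ) / q - s' / q'| := by
  have hq : (0 : ℝ) < q := by linarith [h.q1R]
  have hq' : (0 : ℝ) < q' := by linarith [h'.q1R]
  have hne' : s * q' - q * s' ≠ 0 := by
    intro h0
    apply hne
    have c1 : IsCoprime q s := ⟨-r, p, by linear_combination h.det⟩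
    have c2 : IsCoprime q' s' := ⟨-r', p', by linear_combination h'.det⟩
    have d1 : q ∣ q' := c1.dvd_of_dvd_mul_left ⟨s', by linarith⟩
    have d2 : q' ∣ q := c2.dvd_of_dvd_mul_right ⟨s, by linarith⟩
    have e1 : q = q' := Int.dvd_antisymm (by linarith [h.q1]) (by linarith [h'.q1]) d1 d2
    subst e1
    have e2 : s = s' := by
      have : q * (s - s') = 0 := by linarith
      rcases mul_eq_zero.1 this with h1 | h1
      · linarith [h.q1]
      · linarith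
    subst e2
    have d3 : q ∣ p - p' := c1.dvd_of_dvd_mul_right ⟨r - r', by linear_combination h.det - h'.det⟩
    have e3 : p - p' = 0 := Int.eq_zero_of_abs_lt_dvd d3 (by
      rw [abs_lt]; constructor <;> linarith [h.p0, h'.p0])
    rw [sub_eq_zero.1 e3]
  have h1 : (1 : ℝ) ≤ |(s : ℝ) * q' - q * s'| := by
    have := Int.one_le_abs hne'
    exact_mod_cast this
  rw [div_sub_div _ _ hq.ne' hq'.ne', abs_div, abs_of_pos (mul_pos hq hq'), pow_two]
  have hQ : 0 < Q := by linarith [h.hi]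
  exact div_le_div₀ (abs_nonneg _) h1 (mul_pos hq hq') (mul_le_mul h.hi h'.hi hq'.le hQ.le)

lemma dirichlet (x : ℝ) (hx : x ∈ Icc (0 : ℝ) 1) (Q : ℕ) (hQ : 0 < Q) :
    ∃ p q : ℤ, IsCoprime p q ∧ 1 ≤ q ∧ q ≤ Q ∧ 0 ≤ p ∧ p ≤ q ∧ |x - p / q| ≤ 1 / (Q * q) := by
  obtain ⟨ρ, h1, h2⟩ := Real.exists_rat_abs_sub_le_and_den_le x hQ
  have hd : (0 : ℝ) < ρ.den := by exact_mod_cast ρ.pos
  have hQ' : (0 : ℝ) < Q := by exact_mod_cast hQ
  rw [Rat.cast_def] at h1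
  have h3 : |x * ρ.den - ρ.num| < 1 := by
    have : x * ρ.den - ρ.num = (x - ρ.num / ρ.den) * ρ.den := by field_simp
    rw [this, abs_mul, abs_of_pos hd]
    calc _ ≤ 1 / (((Q : ℝ) + 1) * ρ.den) * ρ.den := mul_le_mul_of_nonneg_right h1 hd.le
      _ = 1 / ((Q : ℝ) + 1) := by field_simp
      _ < 1 := by rw [div_lt_one (by positivity)]; linarith
  rw [abs_lt] at h3
  refine ⟨ρ.num, ρ.den, Rat.isCoprime_num_den ρ, by exact_mod_cast ρ.pos, by exact_mod_cast h2,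
    ?_, ?_, ?_⟩
  · have : (-1 : ℝ) < ρ.num := by nlinarith [hx.1]
    have : (-1 : ℤ) < ρ.num := by exact_mod_cast this
    omega
  · have : (ρ.num : ℝ) < ρ.den + 1 := by nlinarith [hx.2]
    have : ρ.num < (ρ.den : ℤ) + 1 := by exact_mod_cast this
    omega
  · push_cast
    refine h1.trans (one_div_le_one_div_of_le (by positivity) ?_)
    nlinarith

lemma vol_small (θ : ℝ) (hθ : 0 < θ) (Q : ℕ) (hQ : 0 < Q) :
    volume (⋃ q ∈ Finset.Icc 1 ⌊θ * Q⌋₊, ⋃ p ∈ Finset.range (q + 1),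
      closedBall ((p : ℝ) / q) (1 / (Q * q))) ≤ ENNReal.ofReal (4 * θ) := by
  have hQ' : (0 : ℝ) < Q := by exact_mod_cast hQ
  refine (measure_biUnion_finset_le _ _).trans ?_
  have : ∀ q ∈ Finset.Icc 1 ⌊θ * Q⌋₊, volume (⋃ p ∈ Finset.range (q + 1),
      closedBall ((p : ℝ) / q) (1 / (Q * q))) ≤ ENNReal.ofReal (4 / Q) := by
    intro q hq
    have hq1 : (1 : ℝ) ≤ q := by exact_mod_cast (Finset.mem_Icc.1 hq).1
    refine (measure_biUnion_finset_le _ _).trans ?_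
    simp only [Real.volume_closedBall, Finset.sum_const, Finset.card_range, nsmul_eq_mul]
    rw [← ENNReal.ofReal_natCast, ← ENNReal.ofReal_mul (by positivity)]
    apply ENNReal.ofReal_le_ofReal
    push_cast
    rw [le_div_iff₀ hQ']
    have : (q + 1) * (2 * (1 / ((Q : ℝ) * q))) * Q = 2 * (q + 1) / q := by field_simp
    rw [this, div_le_iff₀ (by linarith)]
    linarith
  refine (Finset.sum_le_sum this).trans ?_
  simp only [Finset.sum_const, Nat.card_Icc, Nat.add_sub_cancel, nsmul_eq_mul]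
  rw [← ENNReal.ofReal_natCast, ← ENNReal.ofReal_mul (by positivity)]
  apply ENNReal.ofReal_le_ofReal
  have h1 : (⌊θ * Q⌋₊ : ℝ) ≤ θ * Q := Nat.floor_le (by positivity)
  calc (⌊θ * Q⌋₊ : ℝ) * (4 / Q) ≤ θ * Q * (4 / Q) := by gcongr
    _ = 4 * θ := by field_simp

/-- Counting lemma: some admissible matrix has its fraction near `K` and its dual fraction
outside `Z`. -/
lemma counting {θ : ℝ} (hθ : 0 < θ) (Q : ℕ) (hQ : 1 < θ * Q) (K Z : Set ℝ)
    (hK : K ⊆ Icc 0 1) (ζ : ℝ) (hζ : 0 ≤ ζ) (hZ : volume Z ≤ ENNReal.ofReal ζ)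
    (hvol : ENNReal.ofReal (4 * θ + 4 * ζ / θ) < volume K) :
    ∃ p q r s : ℤ, Adm θ Q p q r s ∧ (∃ x ∈ K, |x - p / q| ≤ 1 / (θ * Q ^ 2)) ∧
      ∃ t ∈ Icc (0 : ℝ) 1, t ∉ Z ∧ |-1 - t + s / q| ≤ 1 / (Q : ℝ) ^ 2 := by
  classical
  have hQ0 : 0 < Q := by
    rcases Nat.eq_zero_or_pos Q with h | h
    · rw [h] at hQ; simp at hQ; linarith
    · exact h
  have hQ' : (0 : ℝ) < Q := by exact_mod_cast hQ0
  have hQ1 : (1 : ℝ) ≤ Q := by exact_mod_cast hQ0
  by_contra hn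
  push Not at hn
  set Φ : Finset (ℤ × ℤ) := ((Finset.Icc (0 : ℤ) Q) ×ˢ (Finset.Icc (1 : ℤ) Q)).filter
    (fun z => θ * Q ≤ z.2 ∧ z.1 ≤ z.2 ∧ IsCoprime z.1 z.2 ∧
      ∃ x ∈ K, |x - z.1 / z.2| ≤ 1 / (θ * Q ^ 2)) with hΦ
  have hch : ∀ z ∈ Φ, ∃ r s : ℤ, Adm θ Q z.1 z.2 r s ∧ s < 2 * z.2 := by
    intro z hz
    simp only [hΦ, Finset.mem_filter, Finset.mem_product, Finset.mem_Icc] at hz
    exact exists_adm hz.2.2.2.1 hz.2.1 (by exact_mod_cast hz.1.2.2) hz.1.2.1 hz.1.1.1 hz.2.2.1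
  choose! r s hadm hs using hch
  have hlt : ∀ z ∈ Φ, z.1 < z.2 := by
    intro z hz
    have h := hadm z hz
    rcases h.pq.lt_or_eq with h1 | h1
    · exact h1
    · exfalso
      have h2 : z.2 * (s z - r z) = 1 := by have := h.det; rw [h1] at this; linarith
      have h3 : z.2 = 1 := Int.eq_one_of_mul_eq_one_right (by linarith [h.q1]) h2
      have := h.lo
      rw [h3] at this; simp at this; linarith
  set J : ℤ × ℤ → Set ℝ := fun z => Icc ((s z : ℝ) / z.2 - 1) ((s z : ℝ) / z.2 - 1 + 1 / (2 * Q ^ 2))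
    with hJ
  have hJZ : ∀ z ∈ Φ, J z ⊆ Z := by
    intro z hz t ht
    have h := hadm z hz
    have hq : (0 : ℝ) < z.2 := by linarith [h.q1R]
    have hx : ∃ x ∈ K, |x - z.1 / z.2| ≤ 1 / (θ * Q ^ 2) := by
      simp only [hΦ, Finset.mem_filter] at hz
      exact hz.2.2.2.2
    by_contra htZ
    have h1 : (1 : ℝ) ≤ s z / z.2 := by rw [le_div_iff₀ hq]; linarith [h.qsR]
    have h2 : (s z : ℝ) / z.2 + 1 / z.2 ≤ 2 := by
      rw [← add_div, div_le_iff₀ hq]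
      have : s z + 1 ≤ 2 * z.2 := hs z hz
      exact_mod_cast this
    have h3 : 1 / (2 * (Q : ℝ) ^ 2) ≤ 1 / (Q : ℝ) ^ 2 :=
      one_div_le_one_div_of_le (by positivity) (by nlinarith)
    have h4 : 1 / (Q : ℝ) ^ 2 ≤ 1 / z.2 :=
      one_div_le_one_div_of_le hq (by nlinarith [h.hi])
    have := hn _ _ _ _ h hx t ⟨by linarith [ht.1], by linarith [ht.2]⟩ htZ
    rw [lt_abs] at this
    have h5 : 0 < 1 / (Q : ℝ) ^ 2 := by positivity
    rcases this with h6 | h6 <;> linarith [ht.1, ht.2]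
  have hdisj : (↑Φ : Set (ℤ × ℤ)).PairwiseDisjoint J := by
    intro z hz z' hz' hne
    rw [Function.onFun, Set.disjoint_left]
    intro t ht ht'
    have := adm_sep (hadm z hz) (hadm z' hz') (hlt z hz) (hlt z' hz') hne
    have h3 : 1 / (2 * (Q : ℝ) ^ 2) < 1 / (Q : ℝ) ^ 2 :=
      one_div_lt_one_div_of_lt (by positivity) (by nlinarith)
    rw [le_abs] at this
    rcases this with h6 | h6 <;> linarith [ht.1, ht.2, ht'.1, ht'.2]
  have hcard : (Φ.card : ℝ) ≤ 2 * Q ^ 2 * ζ := by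
    have h1 : volume (⋃ z ∈ Φ, J z) ≤ ENNReal.ofReal ζ :=
      (measure_mono (iUnion₂_subset hJZ)).trans hZ
    rw [measure_biUnion_finset hdisj (fun _ _ => measurableSet_Icc)] at h1
    simp only [hJ, Real.volume_Icc, add_sub_cancel_left, Finset.sum_const, nsmul_eq_mul] at h1
    rw [← ENNReal.ofReal_natCast, ← ENNReal.ofReal_mul (by positivity),
      ENNReal.ofReal_le_ofReal_iff hζ, mul_one_div, div_le_iff₀ (by positivity)] at h1
    linarith
  have hcover : K ⊆ (⋃ q ∈ Finset.Icc 1 ⌊θ * Q⌋₊, ⋃ p ∈ Finset.range (q + 1),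
      closedBall ((p : ℝ) / q) (1 / (Q * q))) ∪
      ⋃ z ∈ Φ, closedBall ((z.1 : ℝ) / z.2) (1 / (θ * Q ^ 2)) := by
    intro x hx
    obtain ⟨p, q, h1, h2, h3, h4, h5, h6⟩ := dirichlet x (hK hx) Q hQ0
    by_cases hq : θ * Q ≤ q
    · right
      have h7 : |x - p / q| ≤ 1 / (θ * Q ^ 2) := by
        refine h6.trans (one_div_le_one_div_of_le (by positivity) ?_)
        nlinarith
      simp only [mem_iUnion]
      refine ⟨(p, q), ?_, by rwa [mem_closedBall, Real.dist_eq]⟩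
      simp only [hΦ, Finset.mem_filter, Finset.mem_product, Finset.mem_Icc]
      exact ⟨⟨⟨h4, h5.trans h3⟩, h2, h3⟩, hq, h5, h1, x, hx, h7⟩
    · left
      push Not at hq
      lift q to ℕ using (by omega)
      lift p to ℕ using h4
      simp only [mem_iUnion]
      refine ⟨q, Finset.mem_Icc.2 ⟨by exact_mod_cast h2, Nat.le_floor (by exact_mod_cast hq.le)⟩,
        p, Finset.mem_range.2 (by omega), ?_⟩
      rw [mem_closedBall, Real.dist_eq]
      simpa only [Int.cast_natCast] using h6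
  have h1 := (measure_mono hcover).trans ((measure_union_le _ _).trans
    (add_le_add (vol_small θ hθ Q hQ0) (measure_biUnion_finset_le (μ := volume) _ _)))
  simp only [Real.volume_closedBall, Finset.sum_const, nsmul_eq_mul] at h1
  rw [← ENNReal.ofReal_natCast, ← ENNReal.ofReal_mul (by positivity),
    ← ENNReal.ofReal_add (by positivity) (by positivity)] at h1
  refine absurd (hvol.trans_le (h1.trans (ENNReal.ofReal_le_ofReal ?_))) (lt_irrefl _)
  calc 4 * θ + Φ.card * (2 * (1 / (θ * Q ^ 2)))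
      ≤ 4 * θ + 2 * Q ^ 2 * ζ * (2 * (1 / (θ * Q ^ 2))) := by gcongr
    _ = _ := by field_simp; ring

theorem core {n : ℕ} (hn : 1 ≤ n) {w l β ω : ℝ} (hβ0 : 0 ≤ β) (hβ2 : β ≤ 2) (hω : 1 ≤ ω)
    (hw : 0 ≤ w) (hl : 0 ≤ l) (hS : SupCond n w l β ω) {a b : ℝ} (ha : 0 ≤ a) (hab : a < b)
    (hb : b ≤ 1) : ∃ θ : ℝ, 0 < θ ∧ ∃ T₁ : ℕ, ∀ T : ℕ, T₁ ≤ T → ∀ O : Set ℝ, IsOpen O →
      volume (Icc a b \ O) ≤ ENNReal.ofReal ((b - a) / 2) → ∀ Q₀ : ℝ, ∃ Q : ℝ, Q₀ ≤ Q ∧ 3 ≤ Q ∧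
      ∃ p q r s : ℤ, Adm θ Q p q r s ∧
        Icc (mob p q r s (β + Real.exp (-ω * Real.log Q)))
          (mob p q r s (β + 2 * Real.exp (-ω * Real.log Q))) ⊆ Icc a b ∩ O ∧
        volume {x | x ∈ Icc (mob p q r s (β + Real.exp (-ω * Real.log Q)))
          (mob p q r s (β + 2 * Real.exp (-ω * Real.log Q))) ∧ ∃ j, T < j ∧ Bad n w l j x} ≤
          ENNReal.ofReal ((mob p q r s (β + 2 * Real.exp (-ω * Real.log Q)) -
            mob p q r s (β + Real.exp (-ω * Real.log Q))) / 2) := by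
  obtain ⟨C, ε, hC, hε, hbad⟩ := bad_t_small hβ0 hβ2 hS
  set L := b - a with hL
  have hL0 : 0 < L := by linarith
  set θ := L / 32 with hθ
  have hθ0 : 0 < θ := by positivity
  have hθ1 : θ ≤ 1 := by rw [hθ, hL]; linarith
  obtain ⟨K, hK, htr⟩ := transfer n θ hθ0
  refine ⟨θ, hθ0, ⌈max (K / ε) (32 * C / (θ * L))⌉₊, fun T hT O hO hvol Q₀ => ?_⟩
  have hT' : max (K / ε) (32 * C / (θ * L)) ≤ T := (Nat.le_ceil _).trans (by exact_mod_cast hT)
  have hU : ENNReal.ofReal (L / 4) < volume (O ∩ Ioo a b) := by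
    by_contra hn
    push Not at hn
    have h1 : Ioo a b ⊆ (O ∩ Ioo a b) ∪ (Icc a b \ O) := by
      intro x hx
      by_cases hxO : x ∈ O
      · exact Or.inl ⟨hxO, hx⟩
      · exact Or.inr ⟨Ioo_subset_Icc_self hx, hxO⟩
    have h2 := (measure_mono h1).trans ((measure_union_le _ _).trans (add_le_add hn hvol))
    rw [Real.volume_Ioo, ← ENNReal.ofReal_add (by positivity) (by positivity),
      ENNReal.ofReal_le_ofReal_iff (by positivity)] at h2
    linarith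
  obtain ⟨Kc, hKU, hKc, hKv⟩ := (hO.inter isOpen_Ioo).exists_lt_isCompact hU
  obtain ⟨δ₀, hδ₀, hth⟩ := hKc.exists_thickening_subset_open (hO.inter isOpen_Ioo) hKU
  obtain ⟨Q, hQ⟩ := exists_nat_gt (max (max Q₀ 3) (max (1 / θ) (2 / (θ ^ 2 * δ₀))))
  simp only [max_lt_iff] at hQ
  obtain ⟨⟨hQ1, hQ2⟩, hQ3, hQ4⟩ := hQ
  have hQ0 : (0 : ℝ) < Q := by linarith
  have hκ : 0 ≤ Real.log Q := Real.log_nonneg (by linarith)
  set δ := Real.exp (-ω * Real.log Q) with hδ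
  have hδ0 : 0 < δ := Real.exp_pos _
  have hδ3 : 3 * δ ≤ 1 := by
    have : δ ≤ Real.exp (-Real.log Q) := Real.exp_le_exp.2 (by nlinarith)
    rw [Real.exp_neg, Real.exp_log hQ0] at this
    have h2 : (Q : ℝ)⁻¹ ≤ 3⁻¹ := inv_anti₀ (by norm_num) hQ2.le
    linarith
  obtain ⟨Z, hZ, hZ'⟩ := hbad (Real.log Q) hκ hδ3 T
  obtain ⟨p, q, r, s, hadm, ⟨x₀, hx₀, hx₀'⟩, t, ht, htZ, hts⟩ := counting hθ0 Q
    (by rw [div_lt_iff₀ hθ0] at hQ3; linarith) Kc Z
    (fun x hx => ⟨ha.trans (hKU hx).2.1.le, (hKU hx).2.2.le.trans hb⟩) (C / (T + 1))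
    (by positivity) hZ (lt_of_le_of_lt (ENNReal.ofReal_le_ofReal (by
      have h1 : 32 * C / (θ * L) ≤ T + 1 := by linarith [le_max_right (K / ε) (32 * C / (θ * L))]
      rw [div_le_iff₀ (by positivity)] at h1
      have h2 : 4 * (C / (T + 1)) / θ ≤ L / 8 := by
        rw [div_le_iff₀ hθ0, ← mul_div_assoc, div_le_iff₀ (by positivity)]
        linarith
      linarith)) hKv)
  refine ⟨Q, hQ1.le, hQ2.le, p, q, r, s, hadm, ?_, ?_⟩
  · intro x hx
    obtain ⟨τ, hτ, e⟩ := hadm.exists_param hβ0 hδ0 hx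
    have h1 := hadm.abs_mob_sub_le (η := β + δ * τ) (by nlinarith [hτ.1])
    rw [e] at h1
    have h2 : 1 / (q : ℝ) ^ 2 ≤ 1 / (θ ^ 2 * Q) := by
      refine one_div_le_one_div_of_le (by positivity) ?_
      have := pow_le_pow_left₀ (by positivity) hadm.lo 2
      rw [mul_pow] at this
      refine le_trans ?_ this
      gcongr; nlinarith
    have h3 : 1 / (θ * (Q : ℝ) ^ 2) ≤ 1 / (θ ^ 2 * Q) := by
      refine one_div_le_one_div_of_le (by positivity) ?_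
      rw [pow_two, pow_two, mul_assoc]
      gcongr
      nlinarith
    have h4 : 2 * (1 / (θ ^ 2 * Q)) < δ₀ := by
      rw [div_lt_iff₀ (by positivity)] at hQ4
      rw [mul_one_div, div_lt_iff₀ (by positivity)]
      linarith
    have h5 : x ∈ thickening δ₀ Kc := by
      rw [mem_thickening_iff]
      refine ⟨x₀, hx₀, ?_⟩
      rw [Real.dist_eq]
      have := abs_sub_le x (p / q) x₀
      rw [abs_sub_comm ((p : ℝ) / q) x₀] at this
      linarith
    exact ⟨Ioo_subset_Icc_self (hth h5).2, (hth h5).1⟩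
  · refine single_gamma hadm hβ0 hβ2 hδ0 hδ3 _ _ ?_ (hZ' t ht htZ)
    rintro τ hτ ⟨j, hj, hbad⟩
    refine ⟨j, hj, ?_⟩
    have hη : β + δ * τ ∈ Icc (0 : ℝ) 3 := ⟨by nlinarith [hτ.1], by nlinarith [hτ.2]⟩
    have hy : -1 - t ∈ Icc (-2 : ℝ) (-1) := ⟨by linarith [ht.2], by linarith [ht.1]⟩
    have hj0 : (0 : ℝ) ≤ j := Nat.cast_nonneg j
    have hej : K * ej n j ≤ ε * (1 / ((j : ℝ) + 1) ^ 2) ^ NN n := by
      refine ej_le hn hε j ?_
      have h1 : K / ε ≤ j + 1 := by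
        have : (T : ℝ) ≤ j := by exact_mod_cast hj.le
        linarith [le_max_left (K / ε) (32 * C / (θ * L))]
      rw [div_le_iff₀ hε] at h1
      linarith
    rcases hbad with ⟨v, hv, h1, h2⟩ | ⟨z, hz, h1, h2⟩
    · exact Or.inl (((htr Q p q r s hadm _ hη _ hy hts (w * j) j (ej n j) (by positivity)
        hj0).1 v hv h1 h2).mono hej)
    · exact Or.inr (((htr Q p q r s hadm _ hη _ hy hts j (l * j) (ej n j) hj0
        (by positivity)).2 z hz h1 h2).mono hej)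

end Pool.Agent.MP_b9de27_nt

end

-- part MP_b9de27_nt.Approx
section

/-!
The good approximations produced at each step, and closedness of the bad sets.
-/

set_option autoImplicit false

open Matrix Set Polynomial MeasureTheory Metric Filter Topology

namespace Pool.Agent.MP_b9de27_nt

lemma finite_vR_le {k : ℕ} (R : ℝ) : {v : Fin k → ℤ | ‖vR v‖ ≤ R}.Finite := by
  refine (Set.Finite.pi' (fun _ : Fin k => Set.finite_Icc (-⌈R⌉) ⌈R⌉)).subset ?_
  intro v hv i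
  have h1 : |(v i : ℝ)| ≤ R := (norm_le_pi_norm (vR v) i).trans hv
  have h2 : |(v i : ℝ)| ≤ (⌈R⌉ : ℝ) := h1.trans (Int.le_ceil R)
  have h3 : |v i| ≤ ⌈R⌉ := by exact_mod_cast h2
  exact abs_le.1 h3

lemma isClosed_bad (n : ℕ) (w l : ℝ) (j : ℕ) :
    IsClosed {x | x ∈ Icc (0 : ℝ) 1 ∧ Bad n w l j x} := by
  have h1 : IsClosed {x | BadW n w j x} := by
    have : {x | BadW n w j x} = ⋃ v ∈ {v : Fin (n + 1) → ℤ | ‖vR v‖ ≤ ej n j * Real.exp j} ∩ {0}ᶜ,
        {x | |vR v ⬝ᵥ pw n x| ≤ ej n j * Real.exp (-(w * j))} := by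
      ext x
      simp only [BadW, mem_ofPred_eq, mem_iUnion, mem_inter_iff, mem_compl_iff, mem_singleton_iff,
        exists_prop]
      constructor
      · rintro ⟨v, h1, h2, h3⟩; exact ⟨v, ⟨h2, h1⟩, h3⟩
      · rintro ⟨v, ⟨h2, h1⟩, h3⟩; exact ⟨v, h1, h2, h3⟩
    rw [this]
    refine ((finite_vR_le _).inter_of_left _).isClosed_biUnion fun v _ => ?_
    refine isClosed_le ?_ continuous_const
    simp only [dotProduct, pw]
    fun_prop
  have h2 : IsClosed {x | x ∈ Icc (0 : ℝ) 1 ∧ BadL n l j x} := by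
    have : {x | x ∈ Icc (0 : ℝ) 1 ∧ BadL n l j x} = ⋃ z ∈ {v : Fin (n + 1) → ℤ |
        ‖vR v‖ ≤ ej n j * Real.exp j + ej n j * Real.exp (-(l * j))} ∩
        {z | z ≠ 0 ∧ |(z 0 : ℝ)| ≤ ej n j * Real.exp j},
        (Icc (0 : ℝ) 1 ∩ ⋂ i : Fin (n + 1),
          {x | |(z 0 : ℝ) * x ^ (i : ℕ) - z i| ≤ ej n j * Real.exp (-(l * j))}) := by
      ext x
      simp only [BadL, mem_ofPred_eq, mem_iUnion, mem_inter_iff, mem_iInter, exists_prop]
      constructor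
      · rintro ⟨hx, z, h1, h2, h3⟩
        refine ⟨z, ⟨?_, h1, h2⟩, hx, h3⟩
        rw [pi_norm_le_iff_of_nonneg (add_nonneg ((abs_nonneg _).trans h2)
          ((abs_nonneg _).trans (h3 0)))]
        intro i
        have h4 : |(z 0 : ℝ) * x ^ (i : ℕ)| ≤ |(z 0 : ℝ)| := by
          rw [abs_mul, abs_of_nonneg (pow_nonneg hx.1 _)]
          exact mul_le_of_le_one_right (abs_nonneg _) (pow_le_one₀ hx.1 hx.2)
        have h5 := abs_sub ((z 0 : ℝ) * x ^ (i : ℕ)) ((z 0 : ℝ) * x ^ (i : ℕ) - z i)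
        rw [sub_sub_cancel] at h5
        rw [Real.norm_eq_abs]
        simp only [vR]
        linarith [h3 i]
      · rintro ⟨z, ⟨_, h1, h2⟩, hx, h3⟩; exact ⟨hx, z, h1, h2, h3⟩
    rw [this]
    refine ((finite_vR_le _).inter_of_left _).isClosed_biUnion fun v _ => ?_
    refine isClosed_Icc.inter (isClosed_iInter fun i => isClosed_le ?_ continuous_const)
    fun_prop
  have : {x | x ∈ Icc (0 : ℝ) 1 ∧ Bad n w l j x} =
      (Icc 0 1 ∩ {x | BadW n w j x}) ∪ {x | x ∈ Icc (0 : ℝ) 1 ∧ BadL n l j x} := by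
    ext x; simp only [Bad, mem_ofPred_eq, mem_union, mem_inter_iff, and_or_left]
  rw [this]
  exact (isClosed_Icc.inter h1).union h2

/-- Naive height. -/
def ht (n : ℕ) (P : ℤ[X]) : ℕ := (Finset.range (n + 1)).sup (fun i => (P.coeff i).natAbs)

lemma abs_coeff_le_ht {n : ℕ} (P : ℤ[X]) (i : Fin (n + 1)) : |(P.coeff i : ℝ)| ≤ ht n P := by
  have : (P.coeff i).natAbs ≤ ht n P :=
    Finset.le_sup (f := fun i => (P.coeff i).natAbs) (Finset.mem_range.2 i.2)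
  rw [← Int.cast_abs, Int.abs_eq_natAbs]
  exact_mod_cast this

lemma ht_le {n : ℕ} (P : ℤ[X]) {R : ℝ} (h : ∀ i : Fin (n + 1), |(P.coeff i : ℝ)| ≤ R) :
    (ht n P : ℝ) ≤ R := by
  obtain ⟨i, hi, e⟩ := Finset.exists_mem_eq_sup (Finset.range (n + 1)) (by simp)
    (fun i => (P.coeff i).natAbs)
  have := h ⟨i, Finset.mem_range.1 hi⟩
  rw [← Int.cast_abs, Int.abs_eq_natAbs] at this
  unfold ht
  rw [e]
  rwa [Int.cast_natCast] at this

lemma one_le_ht {n : ℕ} {P : ℤ[X]} (h0 : P ≠ 0) (hd : P.natDegree ≤ n) : (1 : ℝ) ≤ ht n P := by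
  refine le_trans ?_ (abs_coeff_le_ht P ⟨P.natDegree, Nat.lt_succ_of_le hd⟩)
  have : P.coeff P.natDegree ≠ 0 := leadingCoeff_ne_zero.2 h0
  rw [← Int.cast_abs]
  exact_mod_cast Int.one_le_abs this

/-- A good simultaneous approximation. -/
def PA (n : ℕ) (l : ℝ) (k : ℕ) (x : ℝ) : Prop :=
  ∃ q : ℕ, k ≤ q ∧ 0 < q ∧ ∃ p : ℕ → ℤ, ∀ i ∈ Finset.Icc 1 n,
    |(q : ℝ) * x ^ i - (p i : ℝ)| ≤ (q : ℝ) ^ (-(l - 1 / ((k : ℝ) + 1)))

/-- A good polynomial approximation. -/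
def PB (n : ℕ) (w : ℝ) (k : ℕ) (x : ℝ) : Prop :=
  ∃ P : ℤ[X], P ≠ 0 ∧ P.natDegree ≤ n ∧ 0 < |aeval x P| ∧ |aeval x P| ≤ 1 / ((k : ℝ) + 1) ∧
    |aeval x P| ≤ (ht n P : ℝ) ^ (-(w - 1 / ((k : ℝ) + 1)))

lemma approx_A {n : ℕ} (hn : 1 ≤ n) {l θ : ℝ} (hl : 0 ≤ l) (hθ : 0 < θ) (k : ℕ) :
    ∃ Q₀ : ℝ, ∀ Q : ℝ, Q₀ ≤ Q → ∀ p q r s : ℤ, Adm θ Q p q r s → ∀ η : ℝ, 0 ≤ η →
      η ≤ 2 * Real.exp (-(n * l + n - 2) * Real.log Q) → PA n l k (mob p q r s η) := by
  set μ : ℝ := 1 / ((k : ℝ) + 1) with hμ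
  have hμ0 : 0 < μ := by positivity
  have hn' : (1 : ℝ) ≤ n := by exact_mod_cast hn
  set c : ℝ := 2 ^ n * n * 2 / θ ^ 2 with hc
  have hc0 : 0 < c := by positivity
  refine ⟨max (k / θ) (Real.exp ((Real.log c + l * n * Real.log 2 - μ * n * Real.log θ) / (μ * n))),
    fun Q hQ p q r s h η hη hη' => ?_⟩
  have hq : (0 : ℝ) < q := by linarith [h.q1R]
  have hQ0 : 0 < Q := by linarith [h.hi]
  have hs : (0 : ℝ) < s := by linarith [h.qsR]
  have hs1 : 1 ≤ s := h.q1.trans h.qs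
  set κ := Real.log Q with hκ
  have hκ1 : Real.log c + l * n * Real.log 2 - μ * n * Real.log θ ≤ μ * n * κ := by
    have := (le_max_right _ _).trans hQ
    rw [← Real.le_log_iff_exp_le hQ0, div_le_iff₀ (by positivity)] at this
    linarith
  lift s to ℕ using (by omega)
  have hs1' : 1 ≤ s := by exact_mod_cast hs1
  simp only [Int.cast_natCast] at hs
  have hsθ : θ * Q ≤ s := h.lo.trans h.qsR
  have hs2 : (s : ℝ) ≤ 2 * Q := by linarith [h.sqR, h.hi, show ((s : ℤ) : ℝ) = s by simp]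
  refine ⟨s ^ n, ?_, by positivity, fun i => r ^ i * s ^ (n - i), fun i hi => ?_⟩
  · have h1 : (k : ℝ) ≤ s := by
      have := (le_max_left _ _).trans hQ
      rw [div_le_iff₀ hθ] at this
      linarith
    have h2 : k ≤ s := by exact_mod_cast h1
    exact h2.trans (le_self_pow₀ hs1' (by omega))
  · rw [Finset.mem_Icc] at hi
    set x := mob p q r s η with hx
    have e0 : mob p q r s 0 = r / s := by simp [mob]
    have hx1 : |x| ≤ 1 := h.abs_mob_le hη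
    have hr1 : |(r : ℝ) / s| ≤ 1 := e0 ▸ h.abs_mob_le le_rfl
    have hd : |x - r / s| ≤ 2 * Real.exp (-(n * l + n - 2) * κ) / (θ * Q) ^ 2 := by
      rw [← e0, hx, h.mob_sub hη le_rfl, sub_zero,
        abs_of_nonneg (div_nonneg hη (mul_pos (h.den_pos hη) (h.den_pos le_rfl)).le)]
      refine div_le_div₀ (by positivity) hη' (by positivity) ?_
      rw [pow_two]
      exact mul_le_mul (h.lo.trans (h.den_ge hη)) (h.lo.trans (h.den_ge le_rfl)) (by positivity)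
        (h.den_pos hη).le
    have e1 : ((s ^ n : ℕ) : ℝ) * x ^ i - ((r ^ i * s ^ (n - i) : ℤ) : ℝ) =
        (s : ℝ) ^ n * (x ^ i - (r / s) ^ i) := by
      have : (s : ℝ) ^ n = s ^ i * s ^ (n - i) := by rw [← pow_add]; congr 1; omega
      push_cast
      rw [div_pow, this]; field_simp
    have h3 : |x ^ i - (r / s) ^ i| ≤ |x - r / s| * n := by
      refine (abs_pow_sub_pow_le _ _ _).trans ?_
      have h4 : max |x| |(r : ℝ) / s| ^ (i - 1) ≤ 1 :=
        pow_le_one₀ (le_max_of_le_left (abs_nonneg _)) (max_le hx1 hr1)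
      have h5 : (i : ℝ) ≤ n := by exact_mod_cast hi.2
      calc _ ≤ |x - r / s| * i * 1 := by gcongr
        _ ≤ _ := by rw [mul_one]; gcongr
    have eQ : Q ^ n = Real.exp (n * κ) := by rw [Real.exp_nat_mul, Real.exp_log hQ0]
    have eQ2 : Q ^ 2 = Real.exp (2 * κ) := by
      rw [← Real.exp_log hQ0, ← Real.exp_nat_mul]; simp [hκ]
    rw [e1, abs_mul, abs_of_pos (pow_pos hs n)]
    calc (s : ℝ) ^ n * |x ^ i - (r / s) ^ i|
        ≤ (2 * Q) ^ n * (2 * Real.exp (-(n * l + n - 2) * κ) / (θ * Q) ^ 2 * n) := by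
          gcongr
          exact h3.trans (by gcongr)
      _ = c * Real.exp (-(n * l * κ)) := by
          have : Real.exp (-(n * l + n - 2) * κ) =
              Real.exp (-(n * l * κ)) * Real.exp (2 * κ) / Real.exp (n * κ) := by
            rw [← Real.exp_add, ← Real.exp_sub]; congr 1; ring
          rw [this, mul_pow, mul_pow, eQ, eQ2, hc]; field_simp
      _ ≤ _ := by
          rw [Real.rpow_def_of_pos (by positivity), ← Real.exp_log hc0, ← Real.exp_add,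
            Real.exp_le_exp]
          push_cast
          rw [Real.log_pow]
          have h6 : Real.log s ≤ Real.log 2 + κ := by
            rw [hκ, ← Real.log_mul (by norm_num) hQ0.ne']; exact Real.log_le_log hs hs2
          have h7 : Real.log θ + κ ≤ Real.log s := by
            rw [hκ, ← Real.log_mul hθ.ne' hQ0.ne']; exact Real.log_le_log (by positivity) hsθ
          have h8 := mul_le_mul_of_nonneg_left h6 (show 0 ≤ l * n by positivity)
          have h9 := mul_le_mul_of_nonneg_left h7 (show 0 ≤ μ * n by positivity)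
          linarith

lemma approx_B {n : ℕ} (hn : 1 ≤ n) {w θ β : ℝ} (hw : 1 ≤ w) (hθ : 0 < θ) (hβ : β ^ n = 2)
    (hβ0 : 0 ≤ β) (k : ℕ) :
    ∃ Q₀ : ℝ, ∀ Q : ℝ, Q₀ ≤ Q → ∀ p q r s : ℤ, Adm θ Q p q r s → ∀ η : ℝ, β < η → η ≤ 3 →
      η ≤ β + 2 * Real.exp (-(n * (w - 1)) * Real.log Q) → PB n w k (mob p q r s η) := by
  set μ : ℝ := 1 / ((k : ℝ) + 1) with hμ
  have hμ0 : 0 < μ := by positivity
  have hμ1 : μ ≤ 1 := by
    rw [hμ, div_le_one (by positivity)]; linarith [Nat.cast_nonneg (α := ℝ) k]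
  have hn' : (1 : ℝ) ≤ n := by exact_mod_cast hn
  obtain ⟨K, hK, hKb⟩ := sub_bound n 2
  set c : ℝ := 2 * n * 3 ^ (n - 1) / θ ^ n with hc
  have hc0 : 0 < c := by positivity
  refine ⟨max 1 (max (Real.exp (Real.log c - Real.log μ))
    (Real.exp ((Real.log c + w * Real.log (3 * K)) / (μ * n)))),
    fun Q hQ p q r s h η hη hη3 hη' => ?_⟩
  simp only [max_le_iff] at hQ
  obtain ⟨hQ1, hQ2, hQ3⟩ := hQ
  have hq : (0 : ℝ) < q := by linarith [h.q1R]
  have hQ0 : 0 < Q := by linarith [h.hi]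
  have hs : (0 : ℝ) < s := by linarith [h.qsR]
  have hη0 : 0 ≤ η := by linarith
  set κ := Real.log Q with hκ
  have hκ0 : 0 ≤ κ := Real.log_nonneg hQ1
  rw [← Real.le_log_iff_exp_le hQ0] at hQ2 hQ3
  rw [div_le_iff₀ (by positivity)] at hQ3
  set x := mob p q r s η with hx
  have hden := h.den_pos hη0
  set P : ℤ[X] := (C s * X + C (-r)) ^ n - C 2 * (C (-q) * X + C p) ^ n with hP
  have hev : aeval x P = (η ^ n - 2) / (q * η + s) ^ n := by
    have e1 : s * x - r = η / (q * η + s) := by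
      rw [hx, mob, eq_div_iff hden.ne', sub_mul, mul_assoc, div_mul_cancel₀ _ hden.ne']
      linear_combination η * h.detR
    have e2 : -q * x + p = 1 / (q * η + s) := by
      rw [hx, mob, eq_div_iff hden.ne', add_mul, mul_assoc, div_mul_cancel₀ _ hden.ne']
      linear_combination h.detR
    simp only [hP, map_sub, map_mul, map_pow, map_add, aeval_C, aeval_X]
    simp only [eq_intCast, Int.cast_neg, Int.cast_ofNat]
    rw [← sub_eq_add_neg, e1, e2, div_pow, div_pow, one_pow]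
    field_simp
  have hpos : 0 < η ^ n - 2 := by
    rw [← hβ, sub_pos]; exact pow_lt_pow_left₀ hη hβ0 (by omega)
  have hup : η ^ n - 2 ≤ 2 * Real.exp (-(n * (w - 1)) * κ) * n * 3 ^ (n - 1) := by
    have e : η ^ n - 2 = η ^ n - β ^ n := by rw [hβ]
    rw [e]
    refine (le_abs_self _).trans ((abs_pow_sub_pow_le _ _ _).trans ?_)
    rw [abs_of_pos (sub_pos.2 hη), abs_of_nonneg hη0, abs_of_nonneg hβ0, max_eq_left hη.le]
    gcongr
    linarith
  have eQ : Q ^ n = Real.exp (n * κ) := by rw [Real.exp_nat_mul, Real.exp_log hQ0]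
  have habs : |aeval x P| ≤ Real.exp (Real.log c - n * w * κ) := by
    rw [hev, abs_of_pos (by positivity)]
    calc (η ^ n - 2) / (q * η + s) ^ n
        ≤ (2 * Real.exp (-(n * (w - 1)) * κ) * n * 3 ^ (n - 1)) / (θ * Q) ^ n := by
          gcongr
          exact h.lo.trans (h.den_ge hη0)
      _ = _ := by
          have : Real.exp (-(n * (w - 1)) * κ) =
              Real.exp (n * κ) / Real.exp (n * w * κ) := by
            rw [← Real.exp_sub]; congr 1; ring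
          rw [this, mul_pow, eQ, Real.exp_sub, Real.exp_log hc0, hc]; field_simp
  have hP0' : 0 < |aeval x P| := by rw [hev]; exact abs_pos.2 (by positivity)
  have hP0 : P ≠ 0 := by
    intro h0; rw [h0] at hP0'; simp at hP0'
  have hdeg : P.natDegree ≤ n := by
    have h1 := natDegree_pow_le_of_le n (natDegree_linear_le (a := s) (b := -r))
    have h2 := natDegree_pow_le_of_le n (natDegree_linear_le (a := -q) (b := p))
    rw [mul_one] at h1 h2
    exact (natDegree_sub_le _ _).trans (max_le h1 ((natDegree_C_mul_le _ _).trans h2))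
  have hht : (ht n P : ℝ) ≤ 3 * K * Q ^ n := by
    have hr : |(r : ℝ)| ≤ s := by
      have := h.abs_mob_le (η := 0) le_rfl
      simp only [mob, mul_zero, zero_add] at this
      rwa [abs_div, abs_of_pos hs, div_le_one hs] at this
    have hb : ∀ u : ℝ, |u| ≤ 2 * Q → |u / Q| ≤ 2 := by
      intro u hu; rwa [abs_div, abs_of_pos hQ0, div_le_iff₀ hQ0]
    have key : ∀ i j, |((sub n s (-r) (-q) p i j : ℤ) : ℝ)| ≤ K * Q ^ n := by
      intro i j
      have e : toR (sub n s (-r) (-q) p) = Q ^ n • sub n (s / Q) (-r / Q) (-q / Q) (p / Q) := by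
        have := sub_mul_sub n (s / Q) (-r / Q) (-q / Q) (p / Q) Q 0 0 Q
        rw [sub_scalar, Matrix.mul_smul, Matrix.mul_one] at this
        rw [this, toR_sub]
        push_cast
        congr 1 <;> field_simp <;> ring
      rw [← toR_apply, e, Matrix.smul_apply, smul_eq_mul, abs_mul, abs_of_pos (pow_pos hQ0 n),
        mul_comm]
      refine mul_le_mul_of_nonneg_right (hKb _ _ _ _ (hb _ ?_) (hb _ ?_) (hb _ ?_) (hb _ ?_) i j)
        (pow_pos hQ0 n).le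
      · rw [abs_of_pos hs]; linarith [h.sqR, h.hi]
      · rw [abs_neg]; linarith [h.sqR, h.hi]
      · rw [abs_neg, abs_of_pos hq]; linarith [h.hi]
      · rw [abs_of_nonneg h.p0R]; linarith [h.hi, h.pqR]
    refine ht_le P fun j => ?_
    have k1 := key (Fin.last n) j
    have k2 := key 0 j
    rw [sub_eq_coeff] at k1 k2
    simp only [Fin.val_last, Nat.sub_self, pow_zero, mul_one] at k1
    simp only [Fin.val_zero, pow_zero, one_mul, Nat.sub_zero] at k2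
    rw [hP, coeff_sub, coeff_C_mul]
    push_cast
    refine (abs_sub _ _).trans ?_
    rw [abs_mul, abs_two]
    linarith
  refine ⟨P, hP0, hdeg, hP0', habs.trans ?_, habs.trans ?_⟩
  · rw [← hμ, ← Real.exp_log hμ0, Real.exp_le_exp]
    have : κ ≤ n * w * κ := le_mul_of_one_le_left hκ0 (by nlinarith)
    linarith
  · have h1 := one_le_ht hP0 hdeg
    rw [← hμ, Real.rpow_def_of_pos (by linarith), Real.exp_le_exp]
    have h2 : Real.log (ht n P) ≤ Real.log (3 * K) + n * κ := by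
      rw [← Real.log_exp (n * κ), ← eQ, ← Real.log_mul (by positivity) (by positivity)]
      exact Real.log_le_log (by linarith) hht
    have h3 : 0 ≤ Real.log (3 * K) := Real.log_nonneg (by linarith)
    have h4 := mul_le_mul_of_nonneg_left h2 (show 0 ≤ w - μ by linarith)
    have h5 := mul_nonneg hμ0.le h3
    linarith

lemma time_choice (n : ℕ) {c v : ℝ} (hc : 0 ≤ c) (hv : c < v) (t₀ : ℕ) :
    ∃ H₀ : ℝ, ∀ H : ℝ, H₀ ≤ H → ∃ j : ℕ, t₀ ≤ j ∧ H ≤ ej n j * Real.exp j ∧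
      H ^ (-v) ≤ ej n j * Real.exp (-(c * j)) := by
  have hv0 : 0 < v := by linarith
  set μ := (v - c) / (2 * (v + 1)) with hμ
  have hμ0 : 0 < μ := div_pos (by linarith) (by positivity)
  have hμ1 : μ ≤ 1 / 2 := by rw [hμ, div_le_iff₀ (by positivity)]; linarith
  have hμe : μ * (v + 1) = (v - c) / 2 := by rw [hμ]; field_simp
  have hev : ∀ᶠ j : ℕ in atTop, Real.exp (-(μ * j)) ≤ ej n j := by
    have h1 : Tendsto (fun j : ℕ => μ * ((j : ℝ) + 1)) atTop atTop :=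
      (tendsto_atTop_add_const_right _ 1 tendsto_natCast_atTop_atTop).const_mul_atTop hμ0
    have h2 := (Real.tendsto_pow_mul_exp_neg_atTop_nhds_zero (3 * NN n)).comp h1
    have h3 := h2.eventually (gt_mem_nhds (show (0 : ℝ) < μ ^ (3 * NN n) * Real.exp (-μ) by
      positivity))
    filter_upwards [h3] with j hj
    simp only [Function.comp] at hj
    have e : Real.exp (-(μ * (j + 1))) = Real.exp (-(μ * j)) * Real.exp (-μ) := by
      rw [← Real.exp_add]; congr 1; ring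
    rw [mul_pow, e] at hj
    rw [ej, div_pow, one_pow, ← pow_mul, le_div_iff₀ (by positivity)]
    refine le_of_mul_le_mul_left ?_ (show (0 : ℝ) < μ ^ (3 * NN n) * Real.exp (-μ) by positivity)
    nlinarith
  obtain ⟨J, hJ⟩ := eventually_atTop.1 hev
  refine ⟨Real.exp (max (max J t₀) (2 * v / (v - c))), fun H hH => ?_⟩
  have hH0 : 0 < H := (Real.exp_pos _).trans_le hH
  rw [← Real.le_log_iff_exp_le hH0] at hH
  simp only [max_le_iff] at hH
  obtain ⟨⟨h1, h2⟩, h3⟩ := hH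
  set h := Real.log H with hh
  have hh0 : 0 ≤ h := (Nat.cast_nonneg J).trans h1
  have hm : 0 < 1 - μ := by linarith
  set j := ⌈h / (1 - μ)⌉₊ with hj
  have h4 : h ≤ (1 - μ) * j := by
    have := Nat.le_ceil (h / (1 - μ))
    rw [div_le_iff₀ hm] at this; linarith
  have h5 : (1 - μ) * (j - 1) ≤ h := by
    have := (Nat.ceil_lt_add_one (div_nonneg hh0 hm.le)).le
    rw [← sub_le_iff_le_add, le_div_iff₀ hm] at this; linarith
  have hj0 : (0 : ℝ) ≤ j := Nat.cast_nonneg j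
  have h6 : h ≤ j := h4.trans (by nlinarith)
  have h7 := hJ j (by exact_mod_cast h1.trans h6)
  refine ⟨j, by exact_mod_cast h2.trans h6, ?_, ?_⟩
  · refine le_trans ?_ (mul_le_mul_of_nonneg_right h7 (Real.exp_pos _).le)
    rw [← Real.exp_add, ← Real.exp_log hH0, Real.exp_le_exp]; linarith
  · refine le_trans ?_ (mul_le_mul_of_nonneg_right h7 (Real.exp_pos _).le)
    rw [← Real.exp_add, Real.rpow_def_of_pos hH0, Real.exp_le_exp]
    rw [div_le_iff₀ (by linarith)] at h3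
    have h8 := mul_le_mul_of_nonneg_left h5 hv0.le
    have h9 : 2 * v ≤ j * (v - c) := h3.trans (mul_le_mul_of_nonneg_right h6 (by linarith))
    have h10 : μ * (v + 1) * j = (v - c) / 2 * j := by rw [hμe]
    nlinarith

end Pool.Agent.MP_b9de27_nt

end

-- part MP_b9de27_nt.Main
section

/-!
The nested interval construction and the final bookkeeping.
-/

set_option autoImplicit false

open Matrix Set Polynomial MeasureTheory Metric Filter Topology

namespace Pool.Agent.MP_b9de27_nt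

/-- The invariant carried along the construction. -/
def Inv (n : ℕ) (w l : ℝ) (t₀ : ℕ) (a b : ℝ) : Prop :=
  0 ≤ a ∧ a < b ∧ b ≤ 1 ∧
    volume {x | x ∈ Icc a b ∧ ∃ j, t₀ ≤ j ∧ Bad n w l j x} ≤ ENNReal.ofReal ((b - a) / 2)

lemma inv_base {n : ℕ} (hn : 1 ≤ n) {w l β ω : ℝ} (hβ0 : 0 ≤ β) (hβ2 : β ≤ 2) (hω : 1 ≤ ω)
    (hw : 0 ≤ w) (hl : 0 ≤ l) (hS : SupCond n w l β ω) : ∃ t₀ a b, Inv n w l t₀ a b := by
  obtain ⟨θ, hθ, T, h⟩ := core hn hβ0 hβ2 hω hw hl hS (a := 0) (b := 1) le_rfl one_pos le_rfl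
  obtain ⟨Q, -, hQ, p, q, r, s, hA, h1, h2⟩ := h T le_rfl univ isOpen_univ (by simp) 0
  have hδ := Real.exp_pos (-ω * Real.log Q)
  have hlt := hA.mob_lt (η := β + Real.exp (-ω * Real.log Q))
    (η' := β + 2 * Real.exp (-ω * Real.log Q)) (by linarith) (by linarith)
  exact ⟨T + 1, _, _, (h1 ⟨le_rfl, hlt.le⟩).1.1, hlt, (h1 ⟨hlt.le, le_rfl⟩).1.2, h2⟩

lemma inv_step {n : ℕ} (hn : 1 ≤ n) {w l β ω : ℝ} (hβ0 : 0 ≤ β) (hβ2 : β ≤ 2) (hω : 1 ≤ ω)
    (hw : 0 ≤ w) (hl : 0 ≤ l) (hS : SupCond n w l β ω) (t₀ k : ℕ) (P : ℝ → Prop)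
    (hP : ∀ θ : ℝ, 0 < θ → ∃ Q₀ : ℝ, ∀ Q : ℝ, Q₀ ≤ Q → 3 ≤ Q → ∀ p q r s : ℤ, Adm θ Q p q r s →
      ∀ τ ∈ Icc (1 : ℝ) 2, P (mob p q r s (β + Real.exp (-ω * Real.log Q) * τ)))
    {a b : ℝ} (h : Inv n w l t₀ a b) :
    ∃ a' b', Inv n w l t₀ a' b' ∧ Icc a' b' ⊆ Icc a b ∧
      ∀ x ∈ Icc a' b', P x ∧ ∀ j, t₀ ≤ j → j ≤ k → ¬ Bad n w l j x := by
  obtain ⟨ha, hab, hb, hv⟩ := h
  obtain ⟨θ, hθ, T₁, h⟩ := core hn hβ0 hβ2 hω hw hl hS ha hab hb
  obtain ⟨Q₀, hQ₀⟩ := hP θ hθ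
  set T := max T₁ k with hT
  set O : Set ℝ := (⋃ j ∈ Finset.Icc t₀ T, {x | x ∈ Icc (0 : ℝ) 1 ∧ Bad n w l j x})ᶜ with hO
  have hOo : IsOpen O :=
    (isClosed_biUnion_finset fun j _ => isClosed_bad n w l j).isOpen_compl
  have hsub : Icc a b \ O ⊆ {x | x ∈ Icc a b ∧ ∃ j, t₀ ≤ j ∧ Bad n w l j x} := by
    rintro x ⟨hx, hx'⟩
    simp only [hO, mem_compl_iff, not_not, mem_iUnion, Finset.mem_Icc, exists_prop] at hx'
    obtain ⟨j, hj, -, hB⟩ := hx'
    exact ⟨hx, j, hj.1, hB⟩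
  obtain ⟨Q, hQ, hQ3, p, q, r, s, hA, h1, h2⟩ :=
    h T (le_max_left _ _) O hOo ((measure_mono hsub).trans hv) Q₀
  have hδ := Real.exp_pos (-ω * Real.log Q)
  have hlt := hA.mob_lt (η := β + Real.exp (-ω * Real.log Q))
    (η' := β + 2 * Real.exp (-ω * Real.log Q)) (by linarith) (by linarith)
  have hgood : ∀ x ∈ Icc (mob p q r s (β + Real.exp (-ω * Real.log Q)))
      (mob p q r s (β + 2 * Real.exp (-ω * Real.log Q))), ∀ j, t₀ ≤ j → j ≤ T →
      ¬ Bad n w l j x := by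
    intro x hx j hj1 hj2 hB
    have h3 := h1 hx
    refine h3.2 ?_
    simp only [mem_iUnion, Finset.mem_Icc, exists_prop]
    exact ⟨j, ⟨hj1, hj2⟩, ⟨ha.trans h3.1.1, h3.1.2.trans hb⟩, hB⟩
  refine ⟨_, _, ⟨ha.trans (h1 ⟨le_rfl, hlt.le⟩).1.1, hlt, (h1 ⟨hlt.le, le_rfl⟩).1.2.trans hb,
    le_trans (measure_mono ?_) h2⟩, fun x hx => (h1 hx).1, fun x hx => ⟨?_, fun j hj1 hj2 =>
      hgood x hx j hj1 (hj2.trans (le_max_right _ _))⟩⟩
  · rintro x ⟨hx, j, hj, hB⟩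
    refine ⟨hx, j, ?_, hB⟩
    by_contra hj'
    exact hgood x hx j hj (not_lt.1 hj') hB
  · obtain ⟨τ, hτ, e⟩ := hA.exists_param hβ0 hδ hx
    rw [← e]
    exact hQ₀ Q hQ hQ3 p q r s hA τ hτ

theorem exists_point {n : ℕ} (hn : 2 ≤ n) {w l : ℝ} (hw : (n : ℝ) ≤ w) (hl : 1 ≤ n * l)
    (h1 : w ≤ l * ((n - 1) * w + n)) (h2 : n * l + n - 1 ≤ w) :
    ∃ (ξ : ℝ) (t₀ : ℕ), (∀ j, t₀ ≤ j → ¬ Bad n w l j ξ) ∧ ∀ k, PA n l k ξ ∧ PB n w k ξ := by
  have hn1 : 1 ≤ n := by omega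
  have hn' : (2 : ℝ) ≤ n := by exact_mod_cast hn
  have hl0 : 0 ≤ l := by
    by_contra h
    push Not at h
    nlinarith
  have hw0 : 0 ≤ w := by linarith
  set β : ℝ := (2 : ℝ) ^ ((n : ℝ)⁻¹) with hβd
  have hβ : β ^ n = 2 := Real.rpow_inv_natCast_pow (by norm_num) (by omega)
  have hβ1 : 1 ≤ β := Real.one_le_rpow (by norm_num) (by positivity)
  have hβ2 : β ≤ 2 := by
    conv_rhs => rw [← hβ]
    exact le_self_pow₀ hβ1 (by omega)
  have hSA := supCond_A n w l hw hl h2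
  have hSB := supCond_B n hn w l β hβ hβ1 hβ2 hw hl h1
  have hωA : 1 ≤ n * l + n - 2 := by linarith
  have hωB : 1 ≤ n * (w - 1) := by nlinarith
  obtain ⟨t₀, a₀, b₀, hI⟩ := inv_base hn1 le_rfl (by norm_num) hωA hw0 hl0 hSA
  have step : ∀ (k : ℕ) (I : {I : ℝ × ℝ // Inv n w l t₀ I.1 I.2}),
      ∃ J : {I : ℝ × ℝ // Inv n w l t₀ I.1 I.2}, Icc J.1.1 J.1.2 ⊆ Icc I.1.1 I.1.2 ∧
        ∀ x ∈ Icc J.1.1 J.1.2, PA n l k x ∧ PB n w k x ∧
          ∀ j, t₀ ≤ j → j ≤ k → ¬ Bad n w l j x := by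
    intro k I
    obtain ⟨a₁, b₁, hI₁, hs₁, hp₁⟩ := inv_step hn1 le_rfl (by norm_num) hωA hw0 hl0 hSA t₀ k
      (PA n l k) (fun θ hθ => by
        obtain ⟨Q₀, h⟩ := approx_A hn1 hl0 hθ k
        refine ⟨Q₀, fun Q hQ _ p q r s hA τ hτ => h Q hQ p q r s hA _ ?_ ?_⟩
        · have := Real.exp_pos (-(n * l + n - 2) * Real.log Q)
          nlinarith [hτ.1]
        · have := Real.exp_pos (-(n * l + n - 2) * Real.log Q)
          nlinarith [hτ.2]) I.2
    obtain ⟨a₂, b₂, hI₂, hs₂, hp₂⟩ := inv_step hn1 (by linarith) hβ2 hωB hw0 hl0 hSB t₀ k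
      (PB n w k) (fun θ hθ => by
        obtain ⟨Q₀, h⟩ := approx_B hn1 (w := w) (by linarith) hθ hβ (by linarith) k
        refine ⟨Q₀, fun Q hQ hQ3 p q r s hA τ hτ => h Q hQ p q r s hA _ ?_ ?_ ?_⟩
        · have := Real.exp_pos (-(n * (w - 1)) * Real.log Q)
          nlinarith [hτ.1]
        · have h3 : Real.exp (-(n * (w - 1)) * Real.log Q) ≤ 1 / 2 := by
            have h4 : Real.log 2 ≤ Real.log Q := Real.log_le_log (by norm_num) (by linarith)
            have h5 : 0 < Real.log 2 := Real.log_pos (by norm_num)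
            rw [← Real.le_log_iff_exp_le (by norm_num), one_div, Real.log_inv]
            nlinarith
          have := Real.exp_pos (-(n * (w - 1)) * Real.log Q)
          nlinarith [hτ.2]
        · have := Real.exp_pos (-(n * (w - 1)) * Real.log Q)
          nlinarith [hτ.2]) hI₁
    exact ⟨⟨(a₂, b₂), hI₂⟩, hs₂.trans hs₁, fun x hx =>
      ⟨(hp₁ x (hs₂ hx)).1, (hp₂ x hx).1, (hp₂ x hx).2⟩⟩
  choose f hf using step
  let I : ℕ → {I : ℝ × ℝ // Inv n w l t₀ I.1 I.2} :=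
    fun k => Nat.rec ⟨(a₀, b₀), hI⟩ (fun k J => f k J) k
  have hI' : ∀ k, I (k + 1) = f k (I k) := fun k => rfl
  obtain ⟨ξ, hξ⟩ := IsCompact.nonempty_iInter_of_sequence_nonempty_isCompact_isClosed
    (fun k => Icc (I k).1.1 (I k).1.2) (fun k => by rw [hI']; exact (hf k (I k)).1)
    (fun k => nonempty_Icc.2 (I k).2.2.1.le) isCompact_Icc (fun k => isClosed_Icc)
  rw [mem_iInter] at hξ
  have key := fun k => (hf k (I k)).2 ξ (hI' k ▸ hξ (k + 1))
  exact ⟨ξ, t₀, fun j hj => (key j).2.2 j hj le_rfl, fun k => ⟨(key k).1, (key k).2.1⟩⟩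

lemma finite_ht_le (n : ℕ) (R : ℝ) :
    {P : ℤ[X] | P.natDegree ≤ n ∧ (ht n P : ℝ) ≤ R}.Finite := by
  refine ((finite_vR_le (k := n + 1) R).image toPoly).subset ?_
  rintro P ⟨h1, h2⟩
  refine ⟨fun i => P.coeff i, ?_, toPoly_coeff P h1⟩
  rw [mem_ofPred_eq, pi_norm_le_iff_of_nonneg ((Nat.cast_nonneg _).trans h2)]
  intro i
  exact (abs_coeff_le_ht P i).trans h2

lemma fin_W {n : ℕ} {w l ξ : ℝ} {t₀ : ℕ} (hw : 0 ≤ w) (h : ∀ j, t₀ ≤ j → ¬ Bad n w l j ξ)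
    {v : ℝ} (hv : w < v) :
    {P : ℤ[X] | P ≠ 0 ∧ P.natDegree ≤ n ∧ |aeval ξ P| ≤ (ht n P : ℝ) ^ (-v)}.Finite := by
  obtain ⟨H₀, hH⟩ := time_choice n hw hv t₀
  refine (finite_ht_le n H₀).subset ?_
  rintro P ⟨h0, hd, hP⟩
  refine ⟨hd, ?_⟩
  by_contra hc
  obtain ⟨j, hj, h1, h2⟩ := hH _ (not_le.1 hc).le
  refine h j hj (Or.inl ⟨fun i => P.coeff i, fun e => h0 ?_, ?_, ?_⟩)
  · rw [← toPoly_coeff P hd, e]; simp [toPoly]
  · rw [pi_norm_le_iff_of_nonneg ((Nat.cast_nonneg _).trans h1)]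
    intro i
    exact (abs_coeff_le_ht P i).trans h1
  · rw [dot_pw, toPoly_coeff P hd]; exact hP.trans h2

lemma fin_L {n : ℕ} {w l ξ : ℝ} {t₀ : ℕ} (hl : 0 ≤ l) (h : ∀ j, t₀ ≤ j → ¬ Bad n w l j ξ)
    {m : ℝ} (hm : l < m) :
    {q : ℕ | 0 < q ∧ ∃ p : ℕ → ℤ, ∀ i ∈ Finset.Icc 1 n,
      |(q : ℝ) * ξ ^ i - (p i : ℝ)| ≤ (q : ℝ) ^ (-m)}.Finite := by
  obtain ⟨H₀, hH⟩ := time_choice n hl hm t₀
  refine (Set.finite_Iic ⌈H₀⌉₊).subset ?_
  rintro q ⟨hq, p, hp⟩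
  by_contra hc
  have hc' : H₀ ≤ q := (Nat.le_ceil H₀).trans (by
    have : ⌈H₀⌉₊ ≤ q := (not_le.1 hc).le
    exact_mod_cast this)
  obtain ⟨j, hj, h1, h2⟩ := hH _ hc'
  refine h j hj (Or.inr ⟨fun i => if i = 0 then (q : ℤ) else p i, fun e => ?_, ?_, fun i => ?_⟩)
  · have := congrFun e 0
    simp at this
    omega
  · simpa using h1
  · by_cases hi : i = 0
    · subst hi
      simp only [if_true, Fin.val_zero, pow_zero, mul_one, sub_self, abs_zero]
      exact le_trans (by positivity) h2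
    · simp only [if_true, if_neg hi, Int.cast_natCast]
      refine (hp i (Finset.mem_Icc.2 ⟨?_, Nat.le_of_lt_succ i.2⟩)).trans h2
      exact Nat.one_le_iff_ne_zero.2 fun e => hi (Fin.ext e)

lemma not_root {n : ℕ} {ξ v : ℝ}
    (h : {P : ℤ[X] | P ≠ 0 ∧ P.natDegree ≤ n ∧ |aeval ξ P| ≤ (ht n P : ℝ) ^ (-v)}.Finite)
    (P : ℤ[X]) (h0 : P ≠ 0) (hd : P.natDegree ≤ n) : aeval ξ P ≠ 0 := by
  intro e
  refine Set.infinite_of_injective_forall_mem (f := fun m : ℕ => C ((m : ℤ) + 1) * P) ?_ ?_ h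
  · intro a b hab
    have := C_injective (mul_right_cancel₀ h0 hab)
    omega
  · intro m
    refine ⟨mul_ne_zero (C_ne_zero.2 (by omega)) h0, (natDegree_C_mul_le _ _).trans hd, ?_⟩
    rw [map_mul, e, mul_zero, abs_zero]
    positivity

lemma inf_W {n : ℕ} {w ξ : ℝ} (h : ∀ k, PB n w k ξ) {v : ℝ} (hv : v < w) :
    {P : ℤ[X] | P ≠ 0 ∧ P.natDegree ≤ n ∧ |aeval ξ P| ≤ (ht n P : ℝ) ^ (-v)}.Infinite := by
  intro hfin
  have h1 : ∀ᶠ k : ℕ in atTop, ∀ P ∈ {P : ℤ[X] | P ≠ 0 ∧ P.natDegree ≤ n ∧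
      |aeval ξ P| ≤ (ht n P : ℝ) ^ (-v)}, 0 < |aeval ξ P| → 1 / ((k : ℝ) + 1) < |aeval ξ P| := by
    rw [hfin.eventually_all]
    intro P _
    by_cases hP : 0 < |aeval ξ P|
    · filter_upwards [tendsto_one_div_add_atTop_nhds_zero_nat.eventually (gt_mem_nhds hP)]
        with k hk _ using hk
    · exact Eventually.of_forall fun k h' => absurd h' hP
  have h2 : ∀ᶠ k : ℕ in atTop, 1 / ((k : ℝ) + 1) < w - v :=
    tendsto_one_div_add_atTop_nhds_zero_nat.eventually (gt_mem_nhds (by linarith))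
  obtain ⟨k, hk1, hk2⟩ := (h1.and h2).exists
  obtain ⟨P, h0, hd, hp, hq, hr⟩ := h k
  refine absurd (hk1 P ⟨h0, hd, hr.trans ?_⟩ hp) (not_lt.2 hq)
  exact Real.rpow_le_rpow_of_exponent_le (one_le_ht h0 hd) (by linarith)

lemma inf_L {n : ℕ} {l ξ : ℝ} (h : ∀ k, PA n l k ξ) {m : ℝ} (hm : m < l) :
    {q : ℕ | 0 < q ∧ ∃ p : ℕ → ℤ, ∀ i ∈ Finset.Icc 1 n,
      |(q : ℝ) * ξ ^ i - (p i : ℝ)| ≤ (q : ℝ) ^ (-m)}.Infinite := by
  refine Set.infinite_of_forall_exists_gt fun a => ?_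
  have h2 : ∀ᶠ k : ℕ in atTop, 1 / ((k : ℝ) + 1) < l - m :=
    tendsto_one_div_add_atTop_nhds_zero_nat.eventually (gt_mem_nhds (by linarith))
  obtain ⟨k, hk1, hk2⟩ := ((eventually_gt_atTop a).and h2).exists
  obtain ⟨q, h1, h0, p, hp⟩ := h k
  refine ⟨q, ⟨h0, p, fun i hi => (hp i hi).trans ?_⟩, by omega⟩
  exact Real.rpow_le_rpow_of_exponent_le (by exact_mod_cast h0) (by linarith)

end Pool.Agent.MP_b9de27_nt

end
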