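import Pool.Agent.MP_b9de27_nt.Mg.Main
import Pool.Agent.MP_b9de27_nt.SpecDefs

/-!
The nested interval construction avoiding a countable set, and the translation to the literal
suprema.
-/

set_option autoImplicit false

open Matrix Set Polynomial MeasureTheory Metric Filter Topology

namespace Pool.Agent.MP_b9de27_nt.Spec

open Pool.Agent.MP_b9de27_nt

lemma inv_avoid {n : ℕ} (hn : 1 ≤ n) {w l β ω : ℝ} (hβ0 : 0 ≤ β) (hβ2 : β ≤ 2) (hω : 1 ≤ ω)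
    (hw : 0 ≤ w) (hl : 0 ≤ l) (hS : SupCond n w l β ω) (t₀ : ℕ) (z : ℝ)
    {a b : ℝ} (h : Inv n w l t₀ a b) :
    ∃ a' b', Inv n w l t₀ a' b' ∧ Icc a' b' ⊆ Icc a b ∧ ∀ x ∈ Icc a' b', x ≠ z := by
  obtain ⟨ha, hab, hb, hv⟩ := h
  obtain ⟨θ, hθ, T, h⟩ := core hn hβ0 hβ2 hω hw hl hS ha hab hb
  set O : Set ℝ := ((⋃ j ∈ Finset.Icc t₀ T, {x | x ∈ Icc (0 : ℝ) 1 ∧ Bad n w l j x}) ∪ {z})ᶜ with hO
  have hOo : IsOpen O :=
    ((isClosed_biUnion_finset fun j _ => isClosed_bad n w l j).union isClosed_singleton).isOpen_compl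
  have hsub : Icc a b \ O ⊆ {x | x ∈ Icc a b ∧ ∃ j, t₀ ≤ j ∧ Bad n w l j x} ∪ {z} := by
    rintro x ⟨hx, hx'⟩
    simp only [hO, mem_compl_iff, not_not, mem_union, mem_iUnion, Finset.mem_Icc,
      exists_prop] at hx'
    rcases hx' with ⟨j, hj, -, hB⟩ | hx'
    · exact Or.inl ⟨hx, j, hj.1, hB⟩
    · exact Or.inr hx'
  have hv' : volume (Icc a b \ O) ≤ ENNReal.ofReal ((b - a) / 2) := by
    refine (measure_mono hsub).trans ((measure_union_le _ _).trans ?_)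
    rw [Real.volume_singleton, add_zero]
    exact hv
  obtain ⟨Q, -, hQ3, p, q, r, s, hA, h1, h2⟩ := h T le_rfl O hOo hv' 0
  have hδ := Real.exp_pos (-ω * Real.log Q)
  have hlt := hA.mob_lt (η := β + Real.exp (-ω * Real.log Q))
    (η' := β + 2 * Real.exp (-ω * Real.log Q)) (by linarith) (by linarith)
  have hgood : ∀ x ∈ Icc (mob p q r s (β + Real.exp (-ω * Real.log Q)))
      (mob p q r s (β + 2 * Real.exp (-ω * Real.log Q))), ∀ j, t₀ ≤ j → j ≤ T →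
      ¬ Bad n w l j x := by
    intro x hx j hj1 hj2 hB
    have h3 := h1 hx
    refine h3.2 (Or.inl ?_)
    simp only [mem_iUnion, Finset.mem_Icc, exists_prop]
    exact ⟨j, ⟨hj1, hj2⟩, ⟨ha.trans h3.1.1, h3.1.2.trans hb⟩, hB⟩
  refine ⟨_, _, ⟨ha.trans (h1 ⟨le_rfl, hlt.le⟩).1.1, hlt, (h1 ⟨hlt.le, le_rfl⟩).1.2.trans hb,
    le_trans (measure_mono ?_) h2⟩, fun x hx => (h1 hx).1, fun x hx e => (h1 hx).2 (Or.inr e)⟩
  rintro x ⟨hx, j, hj, hB⟩
  refine ⟨hx, j, ?_, hB⟩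
  by_contra hj'
  exact hgood x hx j hj (not_lt.1 hj') hB

theorem exists_point_avoid {n : ℕ} (hn : 2 ≤ n) {w l : ℝ} (hw : (n : ℝ) ≤ w) (hl : 1 ≤ n * l)
    (h1 : w ≤ l * ((n - 1) * w + n)) (h2 : n * l + n - 1 ≤ w) (z : ℕ → ℝ) :
    ∃ (ξ : ℝ) (t₀ : ℕ), (∀ k, ξ ≠ z k) ∧ (∀ j, t₀ ≤ j → ¬ Bad n w l j ξ) ∧
      ∀ k, PA n l k ξ ∧ PB n w k ξ := by
  have hn1 : 1 ≤ n := by omega
  have hn' : (2 : ℝ) ≤ n := by exact_mod_cast hn
  have hl0 : 0 ≤ l := by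
    by_contra h
    push Not at h
    nlinarith
  have hw0 : 0 ≤ w := by linarith
  set β : ℝ := (2 : ℝ) ^ ((n : ℝ)⁻¹) with hβd
  have hβ : β ^ n = 2 := Real.rpow_inv_natCast_pow (by norm_num) (by omega)
  have hβ1 : 1 ≤ β := Real.one_le_rpow (by norm_num) (by positivity)
  have hβ2 : β ≤ 2 := by
    conv_rhs => rw [← hβ]
    exact le_self_pow₀ hβ1 (by omega)
  have hSA := supCond_A n w l hw hl h2
  have hSB := supCond_B n hn w l β hβ hβ1 hβ2 hw hl h1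
  have hωA : 1 ≤ n * l + n - 2 := by linarith
  have hωB : 1 ≤ n * (w - 1) := by nlinarith
  obtain ⟨t₀, a₀, b₀, hI⟩ := inv_base hn1 le_rfl (by norm_num) hωA hw0 hl0 hSA
  have step : ∀ (k : ℕ) (I : {I : ℝ × ℝ // Inv n w l t₀ I.1 I.2}),
      ∃ J : {I : ℝ × ℝ // Inv n w l t₀ I.1 I.2}, Icc J.1.1 J.1.2 ⊆ Icc I.1.1 I.1.2 ∧
        ∀ x ∈ Icc J.1.1 J.1.2, x ≠ z k ∧ PA n l k x ∧ PB n w k x ∧
          ∀ j, t₀ ≤ j → j ≤ k → ¬ Bad n w l j x := by
    intro k I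
    obtain ⟨a₃, b₃, hI₃, hs₃, hp₃⟩ := inv_avoid hn1 le_rfl (by norm_num) hωA hw0 hl0 hSA t₀
      (z k) I.2
    obtain ⟨a₁, b₁, hI₁, hs₁, hp₁⟩ := inv_step hn1 le_rfl (by norm_num) hωA hw0 hl0 hSA t₀ k
      (PA n l k) (fun θ hθ => by
        obtain ⟨Q₀, h⟩ := approx_A hn1 hl0 hθ k
        refine ⟨Q₀, fun Q hQ _ p q r s hA τ hτ => h Q hQ p q r s hA _ ?_ ?_⟩
        · have := Real.exp_pos (-(n * l + n - 2) * Real.log Q)
          nlinarith [hτ.1]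
        · have := Real.exp_pos (-(n * l + n - 2) * Real.log Q)
          nlinarith [hτ.2]) hI₃
    obtain ⟨a₂, b₂, hI₂, hs₂, hp₂⟩ := inv_step hn1 (by linarith) hβ2 hωB hw0 hl0 hSB t₀ k
      (PB n w k) (fun θ hθ => by
        obtain ⟨Q₀, h⟩ := approx_B hn1 (w := w) (by linarith) hθ hβ (by linarith) k
        refine ⟨Q₀, fun Q hQ hQ3 p q r s hA τ hτ => h Q hQ p q r s hA _ ?_ ?_ ?_⟩
        · have := Real.exp_pos (-(n * (w - 1)) * Real.log Q)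
          nlinarith [hτ.1]
        · have h3 : Real.exp (-(n * (w - 1)) * Real.log Q) ≤ 1 / 2 := by
            have h4 : Real.log 2 ≤ Real.log Q := Real.log_le_log (by norm_num) (by linarith)
            have h5 : 0 < Real.log 2 := Real.log_pos (by norm_num)
            rw [← Real.le_log_iff_exp_le (by norm_num), one_div, Real.log_inv]
            nlinarith
          have := Real.exp_pos (-(n * (w - 1)) * Real.log Q)
          nlinarith [hτ.2]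
        · have := Real.exp_pos (-(n * (w - 1)) * Real.log Q)
          nlinarith [hτ.2]) hI₁
    exact ⟨⟨(a₂, b₂), hI₂⟩, hs₂.trans (hs₁.trans hs₃), fun x hx =>
      ⟨hp₃ x (hs₁ (hs₂ hx)), (hp₁ x (hs₂ hx)).1, (hp₂ x hx).1, (hp₂ x hx).2⟩⟩
  choose f hf using step
  let I : ℕ → {I : ℝ × ℝ // Inv n w l t₀ I.1 I.2} :=
    fun k => Nat.rec ⟨(a₀, b₀), hI⟩ (fun k J => f k J) k
  have hI' : ∀ k, I (k + 1) = f k (I k) := fun k => rfl
  obtain ⟨ξ, hξ⟩ := IsCompact.nonempty_iInter_of_sequence_nonempty_isCompact_isClosed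
    (fun k => Icc (I k).1.1 (I k).1.2) (fun k => by rw [hI']; exact (hf k (I k)).1)
    (fun k => nonempty_Icc.2 (I k).2.2.1.le) isCompact_Icc (fun k => isClosed_Icc)
  rw [mem_iInter] at hξ
  have key := fun k => (hf k (I k)).2 ξ (hI' k ▸ hξ (k + 1))
  exact ⟨ξ, t₀, fun k => (key k).1, fun j hj => (key j).2.2.2 j hj le_rfl,
    fun k => ⟨(key k).2.1, (key k).2.2.1⟩⟩

lemma sSup_eq_of_threshold {S : Set ℝ} {c : ℝ} (h1 : ∀ v, v < c → v ∈ S)
    (h2 : ∀ v, c < v → v ∉ S) : sSup ((fun w : ℝ => (w : EReal)) '' S) = (c : EReal) := by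
  refine le_antisymm (sSup_le ?_) ?_
  · rintro _ ⟨v, hv, rfl⟩
    by_contra h
    exact h2 v (EReal.coe_lt_coe_iff.1 (not_le.1 h)) hv
  · refine le_of_forall_lt fun u hu => ?_
    obtain ⟨v, hv1, hv2⟩ := EReal.lt_iff_exists_real_btwn.1 hu
    exact hv1.trans_le (le_sSup ⟨v, h1 v (EReal.coe_lt_coe_iff.1 hv2), rfl⟩)

lemma height_eq {n : ℕ} {P : ℤ[X]} (hd : P.natDegree ≤ n) : height P = ht n P := by
  refine le_antisymm (Finset.sup_le fun i hi => ?_) (Finset.sup_le fun i _ => ?_)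
  · exact Finset.le_sup (f := fun i => (P.coeff i).natAbs)
      (Finset.mem_range.2 (Nat.lt_succ_of_le ((le_natDegree_of_mem_supp i hi).trans hd)))
  · by_cases h : i ∈ P.support
    · exact Finset.le_sup (f := fun i => (P.coeff i).natAbs) h
    · rw [notMem_support_iff.1 h]
      simp

lemma wExp_eq {n : ℕ} {ξ w : ℝ}
    (h0 : ∀ P : ℤ[X], P ≠ 0 → P.natDegree ≤ n → aeval ξ P ≠ 0)
    (h1 : ∀ v, v < w →
      {P : ℤ[X] | P ≠ 0 ∧ P.natDegree ≤ n ∧ |aeval ξ P| ≤ (ht n P : ℝ) ^ (-v)}.Infinite)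
    (h2 : ∀ v, w < v →
      {P : ℤ[X] | P ≠ 0 ∧ P.natDegree ≤ n ∧ |aeval ξ P| ≤ (ht n P : ℝ) ^ (-v)}.Finite) :
    wExp n ξ = (w : EReal) := by
  refine sSup_eq_of_threshold (fun v hv => (h1 v hv).mono ?_) (fun v hv h => h ((h2 v hv).subset ?_))
  · rintro P ⟨a, b, c⟩
    exact ⟨b, abs_pos.2 (h0 P a b), by rw [height_eq b]; exact c⟩
  · rintro P ⟨a, b, c⟩
    refine ⟨fun e => ?_, a, by rw [← height_eq a]; exact c⟩
    rw [e] at b
    simp at b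

lemma lamExp_eq {n : ℕ} (hn : 1 ≤ n) {ξ l : ℝ} (hl : 0 ≤ l)
    (h0 : ∀ P : ℤ[X], P ≠ 0 → P.natDegree ≤ n → aeval ξ P ≠ 0)
    (h1 : ∀ m, m < l → {q : ℕ | 0 < q ∧ ∃ p : ℕ → ℤ, ∀ i ∈ Finset.Icc 1 n,
      |(q : ℝ) * ξ ^ i - (p i : ℝ)| ≤ (q : ℝ) ^ (-m)}.Infinite)
    (h2 : ∀ m, l < m → {q : ℕ | 0 < q ∧ ∃ p : ℕ → ℤ, ∀ i ∈ Finset.Icc 1 n,
      |(q : ℝ) * ξ ^ i - (p i : ℝ)| ≤ (q : ℝ) ^ (-m)}.Finite) :
    lamExp n ξ = (l : EReal) := by
  refine sSup_eq_of_threshold (fun m hm X₀ => ?_) (fun m hm h => ?_)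
  · obtain ⟨q, ⟨hq0, p, hp⟩, hq⟩ := (h1 m hm).exists_gt ⌈X₀⌉₊
    refine ⟨q, (Nat.le_ceil X₀).trans (by exact_mod_cast hq.le),
      fun j => if j = 0 then (q : ℤ) else p j, ?_, ?_, fun j hj => ?_⟩
    · simpa using hq0
    · simp
    · simp only [if_true, if_neg hj, Int.cast_natCast]
      exact hp j (Finset.mem_Icc.2 ⟨Nat.one_le_iff_ne_zero.2 fun e => hj (Fin.ext e),
        Nat.le_of_lt_succ j.2⟩)
  · have hm0 : 0 < m := hl.trans_lt hm
    have hirr : ∀ q : ℕ, 0 < q → 0 < |(q : ℝ) * ξ - round ((q : ℝ) * ξ)| := by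
      intro q hq
      have hd : (C (q : ℤ) * X - C (round ((q : ℝ) * ξ))).natDegree ≤ n := by
        refine le_trans ?_ hn
        compute_degree
      have hne : (C (q : ℤ) * X - C (round ((q : ℝ) * ξ)) : ℤ[X]) ≠ 0 := by
        intro e
        have := congrArg (fun P : ℤ[X] => P.coeff 1) e
        simp only [coeff_sub, coeff_C_mul, coeff_X_one, mul_one, coeff_C_succ, sub_zero,
          coeff_zero] at this
        omega
      have := h0 _ hne hd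
      rw [abs_pos]
      simpa using this
    have ht : Tendsto (fun X : ℝ => X ^ (-m)) atTop (𝓝 0) := tendsto_rpow_neg_atTop hm0
    have hev : ∀ᶠ X : ℝ in atTop, ∀ q ∈ {q : ℕ | 0 < q ∧ ∃ p : ℕ → ℤ, ∀ i ∈ Finset.Icc 1 n,
        |(q : ℝ) * ξ ^ i - (p i : ℝ)| ≤ (q : ℝ) ^ (-m)},
        X ^ (-m) < |(q : ℝ) * ξ - round ((q : ℝ) * ξ)| := by
      rw [(h2 m hm).eventually_all]
      intro q hq
      exact ht.eventually (gt_mem_nhds (hirr q hq.1))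
    obtain ⟨X₀, hX₀⟩ := eventually_atTop.1 hev
    obtain ⟨X, hX, x, hx0, hx1, hx⟩ := h X₀
    have hq : ((x 0).natAbs : ℝ) = |(x 0 : ℝ)| := by
      rw [← Int.cast_abs, Int.abs_eq_natAbs]; simp
    have hq0 : 0 < (x 0).natAbs := by
      have : (0 : ℝ) < ((x 0).natAbs : ℝ) := hq ▸ hx0
      exact_mod_cast this
    have key : ∀ i ∈ Finset.Icc 1 n, ∃ p : ℤ,
        |((x 0).natAbs : ℝ) * ξ ^ i - (p : ℝ)| ≤ X ^ (-m) := by
      intro i hi
      rw [Finset.mem_Icc] at hi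
      have h3 := hx ⟨i, by omega⟩ (fun e => by have := congrArg Fin.val e; simp at this; omega)
      rw [hq]
      rcases abs_choice (x 0 : ℝ) with e | e
      · exact ⟨x ⟨i, by omega⟩, by rw [e]; exact h3⟩
      · refine ⟨-x ⟨i, by omega⟩, ?_⟩
        rw [e, ← abs_neg]
        convert h3 using 2
        push_cast
        ring
    choose! p hp using key
    have hmem := hX₀ X hX (x 0).natAbs ⟨hq0, p, fun i hi => (hp i hi).trans
      (Real.rpow_le_rpow_of_nonpos (by exact_mod_cast hq0) (hq ▸ hx1) (by linarith))⟩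
    have h4 := hp 1 (Finset.mem_Icc.2 ⟨le_rfl, hn⟩)
    rw [pow_one] at h4
    exact absurd ((round_le _ _).trans h4) (not_le.2 hmem)

theorem spectrum {n : ℕ} (hn : 2 ≤ n) {w l : ℝ} (hw : (n : ℝ) ≤ w) (hl : 1 / (n : ℝ) ≤ l)
    (h1 : w / (((n : ℝ) - 1) * w + n) ≤ l) (h2 : l ≤ (w - n + 1) / n) :
    {ξ : ℝ | Transcendental ℚ ξ ∧ wExp n ξ = (w : EReal) ∧ lamExp n ξ = (l : EReal)}.Countable →
      False := by
  intro hc
  have hn' : (2 : ℝ) ≤ n := by exact_mod_cast hn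
  have hl' : 1 ≤ n * l := by
    rw [div_le_iff₀ (by linarith)] at hl; linarith
  have h1' : w ≤ l * ((n - 1) * w + n) := by
    rwa [div_le_iff₀ (by nlinarith)] at h1
  have h2' : n * l + n - 1 ≤ w := by
    rw [le_div_iff₀ (by linarith)] at h2; linarith
  have hl0 : 0 ≤ l := le_trans (by positivity) hl
  have hw0 : 0 ≤ w := by linarith
  have hc' := hc.union (Algebraic.countable ℚ ℝ)
  obtain ⟨z, hz⟩ := hc'.exists_eq_range ⟨0, Or.inr isAlgebraic_zero⟩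
  obtain ⟨ξ, t₀, hne, hb, hab⟩ := exists_point_avoid hn hw hl' h1' h2' z
  have hnr := not_root (fin_W hw0 hb (v := w + 1) (by linarith))
  have hmem : ξ ∈ range z := by
    rw [← hz]
    by_cases ha : IsAlgebraic ℚ ξ
    · exact Or.inr ha
    · exact Or.inl ⟨ha, wExp_eq hnr (fun v hv => inf_W (fun k => (hab k).2) hv)
        (fun v hv => fin_W hw0 hb hv), lamExp_eq (by omega) hl0 hnr
        (fun m hm => inf_L (fun k => (hab k).1) hm) (fun m hm => fin_L hl0 hb hm)⟩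
  obtain ⟨k, hk⟩ := hmem
  exact hne k hk.symm

end Pool.Agent.MP_b9de27_nt.Spec
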