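import Pool.Agent.MP_b9de27_nt.Mg.Liouville

-- part MP_b9de27_nt.Sup
section

/-!
Verification of the supremum condition for the two kinds of special approximants.
-/

set_option autoImplicit false

open Matrix Set Polynomial

namespace Pool.Agent.MP_b9de27_nt

/-- The diagonal weights. -/
noncomputable def dv (n : ℕ) (κ a b : ℝ) : Fin (n + 1) → ℝ :=
  fun j => Real.exp ((2 * ((j : ℕ) : ℝ) - n) * κ + if j = 0 then a else -b)

/-- The two parameter family of matrices. -/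
noncomputable def hm (n : ℕ) (κ a b η y : ℝ) : Matrix (Fin (n + 1)) (Fin (n + 1)) ℝ :=
  tm n η y * diagonal (dv n κ a b)

lemma det_hm {n r : ℕ} (M : Matrix (Fin r) (Fin (n + 1)) ℝ) (κ a b η y : ℝ)
    (J : Fin r → Fin (n + 1)) :
    |((M * hm n κ a b η y).submatrix id J).det| =
      |((M * tm n η y).submatrix id J).det| * ∏ i, dv n κ a b (J i) := by
  have : (M * hm n κ a b η y).submatrix id J =
      (M * tm n η y).submatrix id J * diagonal (fun i => dv n κ a b (J i)) := by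
    ext i j
    rw [hm, ← Matrix.mul_assoc, submatrix_apply, mul_diagonal, mul_diagonal, submatrix_apply]
  have hpos : 0 < ∏ i, dv n κ a b (J i) := Finset.prod_pos fun i _ => Real.exp_pos _
  rw [this, det_mul, det_diagonal, abs_mul, abs_of_pos hpos]

lemma sum_fin_cast (r : ℕ) : ∑ i : Fin r, ((i : ℕ) : ℝ) = r * (r - 1) / 2 := by
  induction r with
  | zero => simp
  | succ r ih => rw [Fin.sum_univ_castSucc]; simp only [Fin.val_castSucc, ih, Fin.val_last]; push_cast; ring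

lemma prod_dv_top {n r : ℕ} (hr : r ≤ n) (κ a b : ℝ) :
    ∏ i, dv n κ a b (top (hr.trans (Nat.le_succ n)) i) =
      Real.exp (r * (n - r + 1) * κ - r * b) := by
  simp only [dv]
  rw [← Real.exp_sum]
  congr 1
  have : ∀ i : Fin r, ((2 * (((top (hr.trans (Nat.le_succ n)) i : Fin (n + 1)) : ℕ) : ℝ) - n) * κ +
      if top (hr.trans (Nat.le_succ n)) i = 0 then a else -b) =
      2 * κ * ((i : ℕ) : ℝ) + ((n + 2 - 2 * r) * κ - b) := by
    intro i
    rw [if_neg (by intro h; have := congrArg Fin.val h; simp [top] at this; omega)]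
    simp only [top]
    rw [Nat.cast_add, Nat.cast_sub (hr.trans (Nat.le_succ n))]
    push_cast; ring
  simp only [this]
  rw [Finset.sum_add_distrib, ← Finset.mul_sum, sum_fin_cast]
  simp only [Finset.sum_const, Finset.card_univ, Fintype.card_fin, nsmul_eq_mul]
  ring

lemma fact_ab (n : ℕ) : ∃ C : ℝ, 0 ≤ C ∧ ∀ (κ a b : ℝ) (r : ℕ)
    (M : Matrix (Fin (r + 1)) (Fin (n + 1)) ℝ), ∀ η ∈ Icc (0 : ℝ) 3,
    (r + 1 ≤ n → ∀ d, Real.exp d ≤ mm M → ∃ y ∈ Icc (-2 : ℝ) (-1),
      Real.exp (-C + d + (r + 1) * (n - r) * κ - (r + 1) * b) ≤ mm (M * hm n κ a b η y)) ∧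
    (r ≤ n → ∀ e, Real.exp e ≤ ee M (M *ᵥ pw n η) → ∃ y ∈ Icc (-2 : ℝ) (-1),
      Real.exp (-C + e + a - r * b + (r - 1) * (n - r) * κ) ≤ mm (M * hm n κ a b η y)) := by
  obtain ⟨c₁, hc₁, h₁⟩ := wronski n
  obtain ⟨c₂, hc₂, h₂⟩ := wronski_ee n
  set C := |Real.log c₁| + |Real.log c₂| with hC
  have e₁ : Real.exp (-C) ≤ c₁ := by
    rw [← Real.le_log_iff_exp_le hc₁]
    linarith [neg_abs_le (Real.log c₁), abs_nonneg (Real.log c₂)]
  have e₂ : Real.exp (-C) ≤ c₂ := by
    rw [← Real.le_log_iff_exp_le hc₂]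
    linarith [neg_abs_le (Real.log c₂), abs_nonneg (Real.log c₁)]
  refine ⟨C, by positivity, fun κ a b r M η hη => ⟨fun hr d hd => ?_, fun hr e he => ?_⟩⟩
  · obtain ⟨y, hy, h⟩ := h₁ (r + 1) (hr.trans (Nat.le_succ n)) M η hη
    refine ⟨y, hy, le_trans ?_ (abs_det_le_mm _ (top (hr.trans (Nat.le_succ n))))⟩
    rw [det_hm, prod_dv_top hr]
    have : -C + d + (r + 1) * (n - r) * κ - (r + 1) * b =
        -C + d + (((r + 1 : ℕ) : ℝ) * (n - ((r + 1 : ℕ) : ℝ) + 1) * κ - ((r + 1 : ℕ) : ℝ) * b) := by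
      push_cast; ring
    rw [this, Real.exp_add, Real.exp_add]
    refine mul_le_mul_of_nonneg_right (le_trans ?_ h) (Real.exp_pos _).le
    exact mul_le_mul e₁ hd (Real.exp_pos _).le hc₁.le
  · obtain ⟨y, hy, h⟩ := h₂ r (hr.trans (Nat.le_succ n)) M η hη
    refine ⟨y, hy, le_trans ?_ (abs_det_le_mm _ (Fin.cons 0 (top (hr.trans (Nat.le_succ n)))))⟩
    rw [det_hm, Fin.prod_univ_succ]
    simp only [Fin.cons_zero, Fin.cons_succ]
    rw [prod_dv_top hr]
    have e0 : dv n κ a b 0 = Real.exp (-n * κ + a) := by simp [dv]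
    rw [e0, ← Real.exp_add]
    have : -C + e + a - r * b + (r - 1) * (n - r) * κ =
        -C + e + (-n * κ + a + (r * (n - r + 1) * κ - r * b)) := by ring
    rw [this, Real.exp_add, Real.exp_add]
    refine mul_le_mul_of_nonneg_right (le_trans ?_ h) (Real.exp_pos _).le
    exact mul_le_mul e₂ he (Real.exp_pos _).le hc₂.le

/-- The two kinds of boxes, with the logarithm `τ` of the target covolume. -/
def Box (n : ℕ) (w l a b τ : ℝ) : Prop :=
  (0 ≤ b ∧ a = w * b ∧ τ = 0) ∨ (0 ≤ a ∧ b = l * a ∧ τ = a - n * b)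

/-- The supremum condition near `β` at distance `exp (-ω κ)`. -/
def SupCond (n : ℕ) (w l β ω : ℝ) : Prop :=
  ∃ ρ : ℝ, 0 < ρ ∧ ρ ≤ 1 ∧ ∀ κ : ℝ, 0 ≤ κ → 3 * Real.exp (-ω * κ) ≤ 1 → ∀ a b τ : ℝ,
    Box n w l a b τ → ∀ (r : ℕ) (M : Matrix (Fin r) (Fin (n + 1)) ℤ), r ≤ n + 1 → Indep M →
    ∃ η ∈ Icc β (β + 3 * Real.exp (-ω * κ)), ∃ y ∈ Icc (-2 : ℝ) (-1),
      ρ * Real.exp τ ≤ mm (toR M * hm n κ a b η y)

section pure
variable {n w l r m κ a b d e C : ℝ}

lemma pureW (hm : m = n - r) (hm1 : 1 ≤ m) (hr : 0 ≤ r) (hw : n ≤ w) (hd : 0 ≤ d)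
    (ha : a = w * b) (he : -C - m * (w - 1) * κ ≤ e) (hC : 0 ≤ C) :
    -C ≤ d + (r + 1) * (n - r) * κ - (r + 1) * b ∨
      -C ≤ e + a - r * b + (r - 1) * (n - r) * κ := by
  rw [← hm]
  rcases le_total b (m * κ) with h | h
  · left; nlinarith
  · right
    have : 0 ≤ (w - r) * (b - m * κ) := mul_nonneg (by linarith) (by linarith)
    nlinarith

lemma pureW1 (hm : m = n - r) (hm1 : 1 ≤ m) (hr : 0 ≤ r) (hw : n ≤ w) (hn : 2 ≤ n) (hκ : 0 ≤ κ)
    (hb : 0 ≤ b) (ha : a = w * b) (he : -C - (m - 1) * (d / (r + 1)) ≤ e) (hC : 0 ≤ C) :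
    -C ≤ d + (r + 1) * (n - r) * κ - (r + 1) * b ∨
      -C ≤ e + a - r * b + (r - 1) * (n - r) * κ := by
  rw [← hm]
  rcases le_total (d / (r + 1)) (b - m * κ) with h | h
  · right
    have h1 : (m - 1) * (d / (r + 1)) ≤ (m - 1) * (b - m * κ) :=
      mul_le_mul_of_nonneg_left h (by linarith)
    have h2 : 0 ≤ (w - n + 1) * b := mul_nonneg (by linarith) hb
    have h3 : 0 ≤ m * (n - 2) * κ := mul_nonneg (mul_nonneg (by linarith) (by linarith)) hκ
    have : n = m + r := by linarith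
    subst this
    nlinarith
  · left
    rw [le_div_iff₀ (by linarith)] at h
    nlinarith

lemma pureLA (hm : m = n - r) (hm1 : 1 ≤ m) (hr : 0 ≤ r) (hl : 1 ≤ n * l) (hκ : 0 ≤ κ)
    (hd : 0 ≤ d) (ha : 0 ≤ a) (hb : b = l * a) (he : -C - m * (n * l + n - 2) * κ ≤ e)
    (hC : 0 ≤ C) :
    a - n * b - C ≤ d + (r + 1) * (n - r) * κ - (r + 1) * b ∨
      a - n * b - C ≤ e + a - r * b + (r - 1) * (n - r) * κ := by
  rw [← hm]
  have hn : 0 < n := by linarith
  have hl0 : 0 < l := by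
    by_contra h
    push Not at h
    nlinarith
  rcases le_total ((n * l + m - 1) * κ) b with h | h
  · right
    have : 0 ≤ m * (b - (n * l + m - 1) * κ) := mul_nonneg (by linarith) (by linarith)
    have hn' : n = m + r := by linarith
    have e1 : m * (n * l + n - 2) * κ = m * (n * l + m - 1) * κ + (r - 1) * m * κ := by
      rw [hn']; ring
    have e2 : n * b = m * b + r * b := by rw [hn']; ring
    nlinarith
  · left
    have hb0 : 0 ≤ b := by rw [hb]; positivity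
    have key : a ≤ (r + 1) * m * κ + (m - 1) * b := by
      refine le_of_mul_le_mul_left ?_ hl0
      rw [← hb]
      rcases le_total 1 (l * (m - 1)) with h1 | h1
      · have : 0 ≤ l * ((r + 1) * m * κ) := by positivity
        nlinarith
      · have h2 : (1 - l * (m - 1)) * b ≤ (1 - l * (m - 1)) * ((n * l + m - 1) * κ) :=
          mul_le_mul_of_nonneg_left h (by linarith)
        have h3 : (1 - l * (m - 1)) * (n * l + m - 1) ≤ l * ((r + 1) * m) := by
          have hr' : r = n - m := by linarith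
          rw [hr']
          have h4 : 0 ≤ (m - 1) * (n * l - 1) := mul_nonneg (by linarith) (by linarith)
          have h5 : 0 ≤ (m - 1) * l * (n * l - 1) :=
            mul_nonneg (mul_nonneg (by linarith) hl0.le) (by linarith)
          nlinarith
        have h6 := mul_le_mul_of_nonneg_right h3 hκ
        nlinarith
    have hn' : n = m + r := by linarith
    have e2 : n * b = m * b + r * b := by rw [hn']; ring
    nlinarith

lemma pureL1 (hm : m = n - r) (hm1 : 1 ≤ m) (hr : 0 ≤ r) (hn : 2 ≤ n) (hκ : 0 ≤ κ)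
    (hb : 0 ≤ b) (hab : a ≤ n * b) (he : -C - (m - 1) * (d / (r + 1)) ≤ e) (hC : 0 ≤ C) :
    a - n * b - C ≤ d + (r + 1) * (n - r) * κ - (r + 1) * b ∨
      a - n * b - C ≤ e + a - r * b + (r - 1) * (n - r) * κ := by
  rw [← hm]
  rcases le_total (d / (r + 1)) (b - m * κ) with h | h
  · right
    have h1 : (m - 1) * (d / (r + 1)) ≤ (m - 1) * (b - m * κ) :=
      mul_le_mul_of_nonneg_left h (by linarith)
    have h3 : 0 ≤ m * (n - 2) * κ := mul_nonneg (mul_nonneg (by linarith) (by linarith)) hκ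
    have : n = m + r := by linarith
    subst this
    nlinarith
  · left
    rw [le_div_iff₀ (by linarith)] at h
    nlinarith

end pure

lemma exp_neg_abs_log_le {c : ℝ} (hc : 0 < c) : Real.exp (-|Real.log c|) ≤ c := by
  rw [← Real.le_log_iff_exp_le hc]; exact neg_abs_le _

/-- Reduction of the supremum condition to inequalities between exponents. -/
lemma supCond_of (n : ℕ) (w l β ω C : ℝ) (hβ0 : 0 ≤ β) (hβ2 : β ≤ 2) (hw : (n : ℝ) ≤ w)
    (hl : 1 ≤ n * l) (hC : 0 ≤ C)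
    (h : ∀ κ : ℝ, 0 ≤ κ → 3 * Real.exp (-ω * κ) ≤ 1 → ∀ a b τ : ℝ,
      Box n w l a b τ → ∀ (r : ℕ) (M : Matrix (Fin (r + 1)) (Fin (n + 1)) ℤ), r + 1 ≤ n → Indep M →
      τ - C ≤ Real.log (mm (toR M)) + (r + 1) * (n - r) * κ - (r + 1) * b ∨
      ∃ η ∈ Icc β (β + 3 * Real.exp (-ω * κ)), ∃ e, Real.exp e ≤ ee (toR M) (toR M *ᵥ pw n η) ∧
        τ - C ≤ e + a - r * b + (r - 1) * (n - r) * κ) : SupCond n w l β ω := by
  obtain ⟨C', hC', hab⟩ := fact_ab n
  refine ⟨Real.exp (-(C + C')), Real.exp_pos _, Real.exp_le_one_iff.2 (by linarith), ?_⟩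
  intro κ hκ hδ a b τ hbox r M hr hM
  have hτ : τ ≤ 0 ∧ τ ≤ a - n * b := by
    rcases hbox with ⟨h1, h2, h3⟩ | ⟨h1, h2, h3⟩
    · rw [h3, h2]; exact ⟨le_rfl, by nlinarith⟩
    · rw [h3, h2]; exact ⟨by nlinarith, le_rfl⟩
  have hβ : β ∈ Icc β (β + 3 * Real.exp (-ω * κ)) :=
    ⟨le_rfl, by linarith [Real.exp_pos (-ω * κ)]⟩
  have hsub : ∀ η ∈ Icc β (β + 3 * Real.exp (-ω * κ)), η ∈ Icc (0 : ℝ) 3 :=
    fun η hη => ⟨hβ0.trans hη.1, by linarith [hη.2]⟩
  rw [← Real.exp_add]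
  rcases r with _ | r
  · refine ⟨β, hβ, -1, by norm_num, ?_⟩
    rw [mm_zero_rows]
    exact Real.exp_le_one_iff.2 (by linarith [hτ.1])
  rcases Nat.lt_or_ge r n with hrn | hrn
  · rcases h κ hκ hδ a b τ hbox r M hrn hM with h1 | ⟨η, hη, e, he, h1⟩
    · obtain ⟨y, hy, h2⟩ := (hab κ a b r (toR M) β (hsub β hβ)).1 hrn (Real.log (mm (toR M)))
        (by rw [Real.exp_log (lt_of_lt_of_le one_pos hM.one_le_mm)])
      exact ⟨β, hβ, y, hy, le_trans (Real.exp_le_exp.2 (by linarith)) h2⟩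
    · obtain ⟨y, hy, h2⟩ := (hab κ a b r (toR M) η (hsub η hη)).2 hrn.le e he
      exact ⟨η, hη, y, hy, le_trans (Real.exp_le_exp.2 (by linarith)) h2⟩
  · obtain rfl : r = n := by omega
    obtain ⟨y, hy, h2⟩ := (hab κ a b r (toR M) β (hsub β hβ)).2 le_rfl 0
      (by rw [Real.exp_zero]; exact ee_lower_full r M hM β)
    refine ⟨β, hβ, y, hy, le_trans (Real.exp_le_exp.2 ?_) h2⟩
    rw [sub_self, mul_zero, zero_mul]
    linarith [hτ.2]

theorem supCond_A (n : ℕ) (w l : ℝ) (hw : (n : ℝ) ≤ w) (hl : 1 ≤ n * l)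
    (hwl : n * l + n - 1 ≤ w) : SupCond n w l 0 (n * l + n - 2) := by
  obtain ⟨c, hc, hA⟩ := ee_lower_A n
  refine supCond_of n w l 0 _ |Real.log c| le_rfl (by norm_num) hw hl (abs_nonneg _) ?_
  intro κ hκ hδ a b τ hbox r M hr hM
  obtain ⟨η, hη, h1⟩ := hA r M hM (Real.exp (-(n * l + n - 2) * κ)) (Real.exp_pos _)
    (by linarith [Real.exp_pos (-(n * l + n - 2) * κ)])
  have hη' : η ∈ Icc 0 (0 + 3 * Real.exp (-(n * l + n - 2) * κ)) :=
    ⟨hη.1, by linarith [hη.2, Real.exp_pos (-(n * l + n - 2) * κ)]⟩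
  have hr' : (r : ℝ) + 1 ≤ n := by exact_mod_cast hr
  have hr0 : (0 : ℝ) ≤ r := Nat.cast_nonneg r
  have he : Real.exp (-|Real.log c| - (n - r) * (n * l + n - 2) * κ) ≤
      ee (toR M) (toR M *ᵥ pw n η) := by
    refine le_trans ?_ h1
    rw [← Real.exp_nat_mul, Nat.cast_sub (by omega), sub_eq_add_neg, Real.exp_add]
    refine mul_le_mul (exp_neg_abs_log_le hc) (le_of_eq ?_) (Real.exp_pos _).le hc.le
    congr 1; ring
  have hd : 0 ≤ Real.log (mm (toR M)) := Real.log_nonneg hM.one_le_mm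
  rcases hbox with ⟨h1, h2, h3⟩ | ⟨h1, h2, h3⟩
  · rcases pureW (m := n - r) (r := r) (κ := κ) (b := b) (C := |Real.log c|)
      (e := -|Real.log c| - (n - r) * (n * l + n - 2) * κ) rfl (by linarith) hr0 hw hd h2 (by
        have : (n - r) * (n * l + n - 2) * κ ≤ (n - r) * (w - 1) * κ :=
          mul_le_mul_of_nonneg_right (mul_le_mul_of_nonneg_left (by linarith) (by linarith)) hκ
        linarith) (abs_nonneg _) with h4 | h4
    · left; linarith
    · right; exact ⟨η, hη', _, he, by linarith⟩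
  · rcases pureLA (m := n - r) (r := r) (κ := κ) (C := |Real.log c|) rfl (by linarith) hr0 hl hκ hd
      h1 h2 le_rfl (abs_nonneg _) with h4 | h4
    · left; linarith
    · right; exact ⟨η, hη', _, he, by linarith⟩

theorem supCond_B (n : ℕ) (hn : 2 ≤ n) (w l β : ℝ) (hβ : β ^ n = 2) (hβ1 : 1 ≤ β) (hβ2 : β ≤ 2)
    (hw : (n : ℝ) ≤ w) (hl : 1 ≤ n * l) (hwl : w ≤ l * ((n - 1) * w + n)) :
    SupCond n w l β (n * (w - 1)) := by
  obtain ⟨m, rfl⟩ : ∃ m, n = m + 1 := ⟨n - 1, by omega⟩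
  obtain ⟨c, hc, hB⟩ := ee_lower_B hβ hβ1
  set C := |Real.log c| with hC
  have hC0 : 0 ≤ C := abs_nonneg _
  have hcC : Real.exp (-C) ≤ c := exp_neg_abs_log_le hc
  refine supCond_of (m + 1) w l β _ C (by linarith) hβ2 hw hl hC0 ?_
  intro κ hκ hδ a b τ hbox r M hr hM
  set n : ℝ := ((m + 1 : ℕ) : ℝ) with hn'
  have hnm : n = m + 1 := by rw [hn']; push_cast; ring
  have hn2 : (2 : ℝ) ≤ n := by rw [hn']; exact_mod_cast hn
  have hr' : (r : ℝ) + 1 ≤ n := by rw [hn']; exact_mod_cast hr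
  have hr0 : (0 : ℝ) ≤ r := Nat.cast_nonneg r
  set d := Real.log (mm (toR M)) with hd'
  have hd : 0 ≤ d := Real.log_nonneg hM.one_le_mm
  set δ := Real.exp (-(n * (w - 1)) * κ) with hδ'
  have hδ0 : 0 < δ := Real.exp_pos _
  have hβm : β ∈ Icc β (β + 3 * δ) := ⟨le_rfl, by linarith⟩
  have hβm' : β + δ ∈ Icc β (β + 3 * δ) := ⟨by linarith, by linarith⟩
  have hl0 : 0 < l := by
    by_contra h
    push Not at h
    nlinarith
  rcases hB r (by omega) M hM with h1 | ⟨h1, h2⟩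
  · have he : Real.exp (-C - (n - r - 1) * (d / (r + 1))) ≤
        ee (toR M) (toR M *ᵥ pw (m + 1) β) := by
      refine le_trans ?_ h1
      rw [sub_eq_add_neg, Real.exp_add]
      refine mul_le_mul hcC (le_of_eq ?_) (Real.exp_pos _).le hc.le
      congr 1; rw [hnm]; ring
    rcases hbox with ⟨h1, h2, h3⟩ | ⟨h1, h2, h3⟩
    · rcases pureW1 (m := n - r) (r := r) (κ := κ) (d := d) (C := C) rfl (by linarith) hr0 hw hn2 hκ
        h1 h2 le_rfl hC0 with h4 | h4
      · left; linarith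
      · right; exact ⟨β, hβm, _, he, by linarith⟩
    · rcases pureL1 (m := n - r) (r := r) (κ := κ) (d := d) (C := C) (a := a) (b := b) rfl
        (by linarith) hr0 hn2 hκ (by rw [h2]; positivity) (by rw [h2]; nlinarith) le_rfl hC0
        with h4 | h4
      · left; linarith
      · right; exact ⟨β, hβm, _, he, by linarith⟩
  · have he1 : Real.exp (-C + d - n * (w - 1) * κ) ≤ ee (toR M) (toR M *ᵥ pw (m + 1) (β + δ)) := by
      refine le_trans ?_ (h1 δ hδ0)
      have : -C + d - n * (w - 1) * κ = -C + (-(n * (w - 1)) * κ + d) := by ring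
      rw [this, Real.exp_add, Real.exp_add, hd', Real.exp_log (lt_of_lt_of_le one_pos hM.one_le_mm)]
      exact mul_le_mul_of_nonneg_right hcC (mul_nonneg hδ0.le (mm_nonneg _))
    have he2 : r = 0 ∨ (1 ≤ (r : ℝ) ∧ Real.exp (-C - (n - r) * (d / r)) ≤
        ee (toR M) (toR M *ᵥ pw (m + 1) β)) := by
      rcases Nat.eq_zero_or_pos r with h0 | h0
      · exact Or.inl h0
      right
      refine ⟨by exact_mod_cast h0, le_trans ?_ (h2.resolve_left h0.ne')⟩
      rw [sub_eq_add_neg, Real.exp_add]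
      refine mul_le_mul hcC (le_of_eq ?_) (Real.exp_pos _).le hc.le
      congr 1; rw [hnm]; ring
    have hcomb : ∃ η ∈ Icc β (β + 3 * δ), ∃ e, Real.exp e ≤ ee (toR M) (toR M *ᵥ pw (m + 1) η) ∧
        -C - (n - r) * (w - 1) * κ ≤ e := by
      rcases le_total (r * (w - 1) * κ) d with h3 | h3
      · exact ⟨β + δ, hβm', _, he1, by nlinarith⟩
      · rcases he2 with h0 | ⟨h0, h4⟩
        · refine ⟨β + δ, hβm', _, he1, ?_⟩
          rw [h0]; simp only [Nat.cast_zero, sub_zero]; linarith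
        · refine ⟨β, hβm, _, h4, ?_⟩
          have : d / r ≤ (w - 1) * κ := by rw [div_le_iff₀ (by linarith)]; linarith
          have := mul_le_mul_of_nonneg_left this (show 0 ≤ n - r by linarith)
          linarith
    obtain ⟨η, hη, e, he, he'⟩ := hcomb
    rcases hbox with ⟨h1, h2, h3⟩ | ⟨h1, h2, h3⟩
    · rcases pureW (m := n - r) (r := r) (κ := κ) (b := b) (C := C) (e := e) rfl (by linarith) hr0
        hw hd h2 he' hC0 with h4 | h4
      · left; linarith
      · right; exact ⟨η, hη, e, he, by linarith⟩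
    · have hb0 : 0 ≤ b := by rw [h2]; positivity
      rcases le_total ((w - r) * κ) b with h4 | h4
      · right
        refine ⟨η, hη, e, he, ?_⟩
        have := mul_le_mul_of_nonneg_left h4 (show 0 ≤ n - r by linarith)
        rw [h3]; nlinarith
      · have hw0 : 0 < w := by linarith
        have h5 : a - (n - 1) * b ≤ n * κ := by
          refine le_of_mul_le_mul_left ?_ hw0
          have h6 : w * a ≤ l * ((n - 1) * w + n) * a := mul_le_mul_of_nonneg_right hwl h1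
          have h7 : l * ((n - 1) * w + n) * a = ((n - 1) * w + n) * b := by rw [h2]; ring
          have h8 : b ≤ w * κ := h4.trans (by nlinarith)
          have h9 : n * b ≤ n * (w * κ) := mul_le_mul_of_nonneg_left h8 (by linarith)
          nlinarith
        have h6 : n * κ ≤ (r + 1) * (n - r) * κ := by
          refine mul_le_mul_of_nonneg_right ?_ hκ
          have := mul_nonneg hr0 (show 0 ≤ n - r - 1 by linarith)
          linarith
        rcases le_total (r * b) d with h7 | h7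
        · left; rw [h3]; linarith
        · rcases he2 with h0 | ⟨h0, h8⟩
          · left
            rw [h3]
            rw [h0] at h6 ⊢
            simp only [Nat.cast_zero, zero_add, sub_zero, one_mul] at h6 ⊢
            linarith
          · right
            refine ⟨β, hβm, _, h8, ?_⟩
            have h9 : d / r ≤ b := by rw [div_le_iff₀ (by linarith)]; linarith
            have h10 := mul_le_mul_of_nonneg_left h9 (show 0 ≤ n - r by linarith)
            have h11 : 0 ≤ (r - 1) * (n - r) * κ :=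
              mul_nonneg (mul_nonneg (by linarith) (by linarith)) hκ
            rw [h3]; linarith

end Pool.Agent.MP_b9de27_nt

end

-- part MP_b9de27_nt.Meas
section

/-!
Measure of the bad set in the two parameter family.
-/

set_option autoImplicit false

open Matrix Set Polynomial MeasureTheory

namespace Pool.Agent.MP_b9de27_nt

/-- There is a short integer vector. -/
def ShortV {k : ℕ} (h : Matrix (Fin k) (Fin k) ℝ) (ε : ℝ) : Prop :=
  ∃ v : Fin k → ℤ, v ≠ 0 ∧ ‖vR v ᵥ* h‖ ≤ ε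

/-- There is a short integer covector. -/
def ShortC {k : ℕ} (h : Matrix (Fin k) (Fin k) ℝ) (ε : ℝ) : Prop :=
  ∃ x : Fin k → ℤ, x ≠ 0 ∧ ∃ y : Fin k → ℝ, h *ᵥ y = vR x ∧ ‖y‖ ≤ ε

/-- Degree bound in each variable. -/
def dd (n : ℕ) : ℕ := (n + 1) * (4 * n)

/-- Degree bound along the curves. -/
def NN (n : ℕ) : ℕ := dd n + (dd n + 1) * dd n

lemma polyFun2_minor {n r : ℕ} (hr : r ≤ n + 1) (M : Matrix (Fin r) (Fin (n + 1)) ℝ)
    (κ a b β δ τ : ℝ) (J : Fin r → Fin (n + 1)) :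
    PolyFun2 (dd n)
      (fun σ t => ((M * hm n κ a b (β + δ * (τ + σ)) (-1 - t)).submatrix id J).det) := by
  refine (PolyFun2.det (d := 4 * n) fun i j => ?_).mono (Nat.mul_le_mul_right _ hr)
  simp only [submatrix_apply, id, hm, ← Matrix.mul_assoc, mul_diagonal]
  refine PolyFun2.mul_const _ ?_
  simp only [Matrix.mul_apply]
  refine PolyFun2.sum _ fun l _ => PolyFun2.const_mul _ ?_
  refine PolyFun2.sub_entry ?_ ?_ (PolyFun2.const 1 _) (PolyFun2.const 1 _) _ _
  · have := (PolyFun2.const 1 1).add PolyFun2.snd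
    refine (congrArg (PolyFun2 1) ?_).mp this
    funext a b; ring
  · exact (PolyFun2.const 1 β).add (((PolyFun2.const 1 τ).add PolyFun2.fst).const_mul δ)

lemma prod_dv (n : ℕ) (κ a b : ℝ) : ∏ j, dv n κ a b j = Real.exp (a - n * b) := by
  rw [Fin.prod_univ_succ]
  have h1 := prod_dv_top (le_refl n) κ a b
  have : ∀ i : Fin n, top ((le_refl n).trans (Nat.le_succ n)) i = i.succ := by
    intro i; apply Fin.ext; simp [top]
  simp only [this] at h1
  have e0 : dv n κ a b 0 = Real.exp (-n * κ + a) := by simp [dv]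
  rw [h1, e0, ← Real.exp_add]
  congr 1; ring

lemma mm_hm_le (n : ℕ) : ∃ L : ℝ, 0 < L ∧ ∀ κ a b η y : ℝ, |η| ≤ 3 → |y| ≤ 3 →
    mm (hm n κ a b η y) ≤ L * Real.exp (a - n * b) := by
  obtain ⟨K, hK, hKb⟩ := sub_bound n 3
  refine ⟨(n + 1).factorial * K ^ (n + 1), by positivity, fun κ a b η y hη hy => ?_⟩
  refine mm_le _ (by positivity) fun J => ?_
  by_cases hJ : Function.Injective J
  · have h1 := det_hm 1 κ a b η y J
    rw [Matrix.one_mul, Matrix.one_mul] at h1
    rw [h1, (Finite.injective_iff_bijective.1 hJ).prod_comp (dv n κ a b), prod_dv]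
    refine mul_le_mul_of_nonneg_right ?_ (Real.exp_pos _).le
    have := Matrix.det_le (abv := AbsoluteValue.abs) (A := (tm n η y).submatrix id J) (x := K)
      (fun i j => hKb _ _ _ _ (by rwa [abs_neg]) hη (by norm_num) (by norm_num) _ _)
    simpa using this
  · rw [Function.not_injective_iff] at hJ
    obtain ⟨i, j, h1, h2⟩ := hJ
    rw [det_zero_of_column_eq h2 (fun k => by simp [h1])]
    simp only [abs_zero]; positivity

lemma leaf_bound {n : ℕ} {w l β ω : ℝ} (hβ0 : 0 ≤ β) (hβ2 : β ≤ 2) (hS : SupCond n w l β ω) :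
    ∃ C ε : ℝ, 0 < C ∧ 0 < ε ∧ ∀ κ : ℝ, 0 ≤ κ → 3 * Real.exp (-ω * κ) ≤ 1 →
    ∀ u : ℝ, 0 < u → u ≤ 1 → ∀ τ ∈ Icc (0 : ℝ) 2, ∀ s : ℝ, 0 ≤ s →
      volume {t | t ∈ Icc (0 : ℝ) 1 ∧ ShortV (hm n κ (w * s) s
        (β + Real.exp (-ω * κ) * (τ + t ^ (dd n + 1))) (-1 - t)) (ε * u ^ NN n)} ≤
          ENNReal.ofReal (C * u) ∧
      volume {t | t ∈ Icc (0 : ℝ) 1 ∧ ShortC (hm n κ s (l * s)
        (β + Real.exp (-ω * κ) * (τ + t ^ (dd n + 1))) (-1 - t)) (ε * u ^ NN n)} ≤
          ENNReal.ofReal (C * u) := by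
  obtain ⟨ρ, hρ, -, hS⟩ := hS
  obtain ⟨c, hc, hkr⟩ := kronecker (dd n)
  obtain ⟨C, K, hC, hK, hkm⟩ := km_lattice (n + 1) (NN n)
  obtain ⟨L, hL, hmm⟩ := mm_hm_le n
  refine ⟨C, c * ρ / (2 * ((n + 1) * (K * (c * ρ) + 1 + L))), hC, by positivity, ?_⟩
  intro κ hκ hδ u hu hu1 τ hτ s hs
  set δ := Real.exp (-ω * κ) with hδ'
  have hδ0 : 0 < δ := Real.exp_pos _
  have key : ∀ a b τ' : ℝ, Box n w l a b τ' → volume {t | t ∈ Icc (0 : ℝ) 1 ∧
      ¬ Safe (hm n κ a b (β + δ * (τ + t ^ (dd n + 1))) (-1 - t)) (c * ρ * Real.exp τ')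
        (u ^ NN n) K} ≤ ENNReal.ofReal (C * u) := by
    intro a b τ' hbox
    refine hkm (fun t => hm n κ a b (β + δ * (τ + t ^ (dd n + 1))) (-1 - t)) _ u (by positivity)
      hu hu1 (fun r M J hr => (polyFun2_minor hr (toR M) κ a b β δ τ J).curve) ?_
    intro r M hr hM
    obtain ⟨η, hη, y, hy, h1⟩ := hS κ hκ hδ a b τ' hbox r M hr hM
    obtain ⟨J, hJ⟩ := exists_mm_eq _ (lt_of_lt_of_le (by positivity) h1)
    have h2 : 0 ≤ (η - β) / δ := div_nonneg (by linarith [hη.1]) hδ0.le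
    have h3 : (η - β) / δ ≤ 3 := by rw [div_le_iff₀ hδ0]; linarith [hη.2]
    obtain ⟨t, ht, h4⟩ := hkr _ (polyFun2_minor hr (toR M) κ a b β δ τ J) ((η - β) / δ - τ)
      (-1 - y) (by rw [abs_le]; constructor <;> linarith [hτ.1, hτ.2])
      (by rw [abs_le]; constructor <;> linarith [hy.1, hy.2])
    refine ⟨t, ht, le_trans ?_ (h4.trans (abs_det_le_mm _ J))⟩
    have e1 : β + δ * (τ + ((η - β) / δ - τ)) = η := by field_simp; ring
    have e2 : -1 - (-1 - y) = y := by ring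
    simp only [e1, e2]
    rw [← hJ, mul_assoc]
    exact mul_le_mul_of_nonneg_left h1 hc.le
  set D := K * (c * ρ) + 1 + L with hD
  have hD0 : 0 < D := by positivity
  have hu0 : 0 < u ^ NN n := pow_pos hu _
  have hcr : 0 < c * ρ := by positivity
  have hfin : (n + 1) * (c * ρ / (2 * ((n + 1) * D)) * u ^ NN n) * D < u ^ NN n * (c * ρ) := by
    have : (n + 1) * (c * ρ / (2 * ((n + 1) * D)) * u ^ NN n) * D = u ^ NN n * (c * ρ) / 2 := by
      field_simp
    rw [this]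
    have : 0 < u ^ NN n * (c * ρ) := by positivity
    linarith
  constructor
  · refine (measure_mono ?_).trans (key (w * s) s 0 (Or.inl ⟨hs, rfl, rfl⟩))
    rintro t ⟨ht, v, hv, h1⟩
    refine ⟨ht, fun hsafe => ?_⟩
    have h2 := hsafe.1 v hv
    rw [Real.exp_zero, mul_one] at h2
    have h3 : max (K * (c * ρ)) 1 ≤ D := by
      have : 0 < K * (c * ρ) := by positivity
      exact max_le (by linarith) (by linarith)
    push_cast at h2
    refine absurd (h2.trans ?_) (not_le.2 hfin)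
    gcongr
  · refine (measure_mono ?_).trans (key s (l * s) (s - n * (l * s)) (Or.inr ⟨hs, rfl, rfl⟩))
    rintro t ⟨ht, x, hx, y, hy, h1⟩
    refine ⟨ht, fun hsafe => ?_⟩
    have h2 := hsafe.2 x hx y hy
    set E := Real.exp (s - n * (l * s)) with hE
    have hE0 : 0 < E := Real.exp_pos _
    have ht1 : t ^ (dd n + 1) ≤ 1 := pow_le_one₀ ht.1 ht.2
    have ht0 : 0 ≤ t ^ (dd n + 1) := pow_nonneg ht.1 _
    have h4 := hmm κ s (l * s) (β + δ * (τ + t ^ (dd n + 1))) (-1 - t) (by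
      rw [abs_le]; constructor <;> nlinarith [hτ.1, hτ.2]) (by
      rw [abs_le]; constructor <;> linarith [ht.1, ht.2])
    have h3 : max (K * (c * ρ * E))
        (mm (hm n κ s (l * s) (β + δ * (τ + t ^ (dd n + 1))) (-1 - t))) ≤ D * E := by
      have : 0 < K * (c * ρ) * E := by positivity
      have : 0 < L * E := by positivity
      exact max_le (by rw [hD]; nlinarith) (h4.trans (by rw [hD]; nlinarith))
    push_cast at h2
    have h5 : u ^ NN n * (c * ρ * E) ≤
        (n + 1) * (c * ρ / (2 * ((n + 1) * D)) * u ^ NN n) * (D * E) := by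
      refine h2.trans ?_
      gcongr
    have h6 := mul_lt_mul_of_pos_right hfin hE0
    nlinarith

lemma shear (E : Set (ℝ × ℝ)) (hE : MeasurableSet E) (hsub : E ⊆ Icc 0 1 ×ˢ Icc 1 2) (m : ℕ)
    (B : ENNReal) (h : ∀ τ ∈ Icc (0 : ℝ) 2, volume {t : ℝ | (t, τ + t ^ m) ∈ E} ≤ B) :
    (volume : Measure ℝ).prod (volume : Measure ℝ) E ≤ 2 * B := by
  set E' : Set (ℝ × ℝ) := (fun p : ℝ × ℝ => (p.1, p.2 + p.1 ^ m)) ⁻¹' E with hE'
  have hE'm : MeasurableSet E' := hE.preimage (by fun_prop)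
  have h1 : (volume : Measure ℝ).prod (volume : Measure ℝ) E =
      (volume : Measure ℝ).prod (volume : Measure ℝ) E' := by
    rw [Measure.prod_apply hE, Measure.prod_apply hE'm]
    refine lintegral_congr fun t => ?_
    rw [← measure_preimage_add_right volume (t ^ m) (Prod.mk t ⁻¹' E)]
    rfl
  rw [h1, Measure.prod_apply_symm hE'm]
  calc ∫⁻ τ, volume ((fun t => (t, τ)) ⁻¹' E') ≤ ∫⁻ τ, (Icc (0 : ℝ) 2).indicator (fun _ => B) τ := by
        refine lintegral_mono fun τ => ?_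
        by_cases hτ : τ ∈ Icc (0 : ℝ) 2
        · simp only [indicator_of_mem hτ]; exact h τ hτ
        · have : (fun t => (t, τ)) ⁻¹' E' = ∅ := by
            ext t
            simp only [hE', mem_preimage, mem_empty_iff_false, iff_false]
            intro ht
            obtain ⟨h1, h2⟩ := hsub ht
            have ht1 : t ^ m ≤ 1 := pow_le_one₀ h1.1 h1.2
            have ht0 : 0 ≤ t ^ m := pow_nonneg h1.1 _
            exact hτ ⟨by linarith [h2.1], by linarith [h2.2]⟩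
          simp [this]
    _ = 2 * B := by
        rw [lintegral_indicator_const measurableSet_Icc, Real.volume_Icc, mul_comm]; simp

lemma measurableSet_shortV {k : ℕ} {H : ℝ × ℝ → Matrix (Fin k) (Fin k) ℝ} (hH : Continuous H)
    (ε : ℝ) : MeasurableSet {p | ShortV (H p) ε} := by
  have : {p | ShortV (H p) ε} = ⋃ v : Fin k → ℤ, ⋃ _ : v ≠ 0, {p | ‖vR v ᵥ* H p‖ ≤ ε} := by
    ext p; simp [ShortV]
  rw [this]
  refine MeasurableSet.iUnion fun v => MeasurableSet.iUnion fun _ => ?_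
  exact (isClosed_le (Continuous.norm (continuous_const.matrix_vecMul hH))
    continuous_const).measurableSet

lemma measurableSet_shortC {k : ℕ} {H : ℝ × ℝ → Matrix (Fin k) (Fin k) ℝ} (hH : Continuous H)
    (ε : ℝ) {K : Set (ℝ × ℝ)} (hK : IsCompact K) : MeasurableSet {p | p ∈ K ∧ ShortC (H p) ε} := by
  have : {p | p ∈ K ∧ ShortC (H p) ε} = ⋃ x : Fin k → ℤ, ⋃ _ : x ≠ 0, Prod.fst ''
      ((K ×ˢ Metric.closedBall (0 : Fin k → ℝ) ε) ∩ {z | H z.1 *ᵥ z.2 = vR x}) := by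
    ext p
    simp only [ShortC, mem_ofPred_eq, mem_iUnion, mem_image, mem_inter_iff, mem_prod,
      mem_closedBall_zero_iff, Prod.exists, exists_and_right, exists_eq_right, exists_prop]
    constructor
    · rintro ⟨h1, x, hx, y, h2, h3⟩
      exact ⟨x, hx, y, ⟨h1, h3⟩, h2⟩
    · rintro ⟨x, hx, y, ⟨h1, h3⟩, h2⟩
      exact ⟨h1, x, hx, y, h2, h3⟩
  rw [this]
  refine MeasurableSet.iUnion fun x => MeasurableSet.iUnion fun _ => ?_
  refine (IsCompact.image ?_ continuous_fst).measurableSet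
  refine (hK.prod (isCompact_closedBall _ _)).inter_right ?_
  exact isClosed_eq ((hH.comp continuous_fst).matrix_mulVec continuous_snd) continuous_const

lemma tsum_tail (T : ℕ) (C : ℝ) (hC : 0 ≤ C) :
    ∑' i : ℕ, ENNReal.ofReal (C * (1 / (((T + 1 + i : ℕ) : ℝ) + 1) ^ 2)) ≤
      ENNReal.ofReal (C / (T + 1)) := by
  refine ENNReal.tsum_le_of_sum_range_le fun m => ?_
  rw [← ENNReal.ofReal_sum_of_nonneg (fun i _ => by positivity), ← Finset.mul_sum]
  refine ENNReal.ofReal_le_ofReal ?_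
  have : ∑ i ∈ Finset.range m, (1 : ℝ) / (((T + 1 + i : ℕ) : ℝ) + 1) ^ 2 ≤
      1 / ((T : ℝ) + 1) - 1 / ((T : ℝ) + 1 + m) := by
    induction m with
    | zero => simp
    | succ m ih =>
      rw [Finset.sum_range_succ]
      push_cast at ih ⊢
      have : 1 / ((T : ℝ) + 1 + m + 1) ^ 2 ≤ 1 / (T + 1 + m) - 1 / (T + 1 + (m + 1)) := by
        rw [div_sub_div _ _ (by positivity) (by positivity), div_le_div_iff₀ (by positivity)
          (by positivity)]
        have : (0 : ℝ) ≤ T + m := by positivity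
        nlinarith
      linarith
  have h2 : (0 : ℝ) ≤ 1 / (T + 1 + m) := by positivity
  rw [div_eq_mul_one_div C]
  exact mul_le_mul_of_nonneg_left (by linarith) hC

/-- The two parameter family is bad at time `j`. -/
def Bad2 (n : ℕ) (w l κ ε η y : ℝ) (j : ℕ) : Prop :=
  ShortV (hm n κ (w * j) j η y) (ε * (1 / ((j : ℝ) + 1) ^ 2) ^ NN n) ∨
    ShortC (hm n κ j (l * j) η y) (ε * (1 / ((j : ℝ) + 1) ^ 2) ^ NN n)

theorem bad_t_small {n : ℕ} {w l β ω : ℝ} (hβ0 : 0 ≤ β) (hβ2 : β ≤ 2) (hS : SupCond n w l β ω) :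
    ∃ C ε : ℝ, 0 < C ∧ 0 < ε ∧ ∀ κ : ℝ, 0 ≤ κ → 3 * Real.exp (-ω * κ) ≤ 1 → ∀ T : ℕ,
      ∃ Z : Set ℝ, volume Z ≤ ENNReal.ofReal (C / (T + 1)) ∧ ∀ t ∈ Icc (0 : ℝ) 1, t ∉ Z →
        volume {τ | τ ∈ Icc (1 : ℝ) 2 ∧ ∃ j, T < j ∧
          Bad2 n w l κ ε (β + Real.exp (-ω * κ) * τ) (-1 - t) j} ≤ ENNReal.ofReal (1 / 50) := by
  obtain ⟨C, ε, hC, hε, h⟩ := leaf_bound hβ0 hβ2 hS
  refine ⟨50 * (4 * C), ε, by positivity, hε, fun κ hκ hδ T => ?_⟩
  set δ := Real.exp (-ω * κ) with hδ'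
  set K : Set (ℝ × ℝ) := Icc 0 1 ×ˢ Icc 1 2 with hK
  have hKc : IsCompact K := isCompact_Icc.prod isCompact_Icc
  set E : ℕ → Set (ℝ × ℝ) := fun j => {p | p ∈ K ∧ Bad2 n w l κ ε (β + δ * p.2) (-1 - p.1) j}
    with hE
  have hcont : ∀ a b : ℝ, Continuous (fun p : ℝ × ℝ => hm n κ a b (β + δ * p.2) (-1 - p.1)) :=
    fun a b => (continuous_tm n (by fun_prop) (by fun_prop)).matrix_mul continuous_const
  have hEm : ∀ j, MeasurableSet (E j) := by
    intro j
    have : E j = (K ∩ {p | ShortV (hm n κ (w * j) j (β + δ * p.2) (-1 - p.1))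
        (ε * (1 / ((j : ℝ) + 1) ^ 2) ^ NN n)}) ∪ {p | p ∈ K ∧ ShortC (hm n κ j (l * j)
        (β + δ * p.2) (-1 - p.1)) (ε * (1 / ((j : ℝ) + 1) ^ 2) ^ NN n)} := by
      ext p; simp only [hE, Bad2, mem_ofPred_eq, mem_union, mem_inter_iff, and_or_left]
    rw [this]
    exact (hKc.measurableSet.inter (measurableSet_shortV (hcont _ _) _)).union
      (measurableSet_shortC (hcont _ _) _ hKc)
  have hEle : ∀ j : ℕ, (volume : Measure ℝ).prod (volume : Measure ℝ) (E j) ≤
      ENNReal.ofReal (4 * C * (1 / ((j : ℝ) + 1) ^ 2)) := by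
    intro j
    have hu : (0 : ℝ) < 1 / ((j : ℝ) + 1) ^ 2 := by positivity
    have hu1 : 1 / ((j : ℝ) + 1) ^ 2 ≤ 1 := by
      rw [div_le_one (by positivity)]
      exact one_le_pow₀ (by linarith [Nat.cast_nonneg (α := ℝ) j])
    refine (shear (E j) (hEm j) (fun p hp => hp.1) (dd n + 1)
      (ENNReal.ofReal (2 * C * (1 / ((j : ℝ) + 1) ^ 2))) ?_).trans (le_of_eq ?_)
    · intro τ hτ
      obtain ⟨h1, h2⟩ := h κ hκ hδ _ hu hu1 τ hτ j (Nat.cast_nonneg j)
      refine le_trans (measure_mono ?_) ((measure_union_le _ _).trans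
        ((add_le_add h1 h2).trans (le_of_eq ?_)))
      · rintro t ⟨ht, h3 | h3⟩
        · exact Or.inl ⟨ht.1, h3⟩
        · exact Or.inr ⟨ht.1, h3⟩
      · rw [← ENNReal.ofReal_add (by positivity) (by positivity)]
        congr 1; ring
    · rw [← ENNReal.ofReal_ofNat 2, ← ENNReal.ofReal_mul (by norm_num)]
      congr 1; ring
  set F : Set (ℝ × ℝ) := ⋃ i, E (T + 1 + i) with hF
  have hFm : MeasurableSet F := MeasurableSet.iUnion fun i => hEm _
  have hFle : (volume : Measure ℝ).prod (volume : Measure ℝ) F ≤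
      ENNReal.ofReal (4 * C / (T + 1)) :=
    (measure_iUnion_le _).trans ((ENNReal.tsum_le_tsum fun i => hEle _).trans
      (tsum_tail T _ (by positivity)))
  refine ⟨{t | ENNReal.ofReal (1 / 50) ≤ volume (Prod.mk t ⁻¹' F)}, ?_, ?_⟩
  · have h1 := mul_meas_ge_le_lintegral₀ (μ := (volume : Measure ℝ))
      (measurable_measure_prodMk_left (ν := (volume : Measure ℝ)) hFm).aemeasurable
      (ENNReal.ofReal (1 / 50))
    rw [← Measure.prod_apply hFm] at h1
    have h2 := h1.trans hFle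
    have h3 : ENNReal.ofReal 50 * ENNReal.ofReal (1 / 50) = 1 := by
      rw [← ENNReal.ofReal_mul (by norm_num)]; norm_num
    calc _ = ENNReal.ofReal 50 * (ENNReal.ofReal (1 / 50) *
          volume {t | ENNReal.ofReal (1 / 50) ≤ volume (Prod.mk t ⁻¹' F)}) := by
          rw [← mul_assoc, h3, one_mul]
      _ ≤ ENNReal.ofReal 50 * ENNReal.ofReal (4 * C / (T + 1)) := by gcongr
      _ = _ := by rw [← ENNReal.ofReal_mul (by norm_num)]; congr 1; ring
  · intro t ht hZ
    simp only [mem_ofPred_eq, not_le] at hZ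
    refine le_trans (measure_mono ?_) hZ.le
    rintro τ ⟨hτ, j, hj, hb⟩
    simp only [hF, mem_preimage, mem_iUnion]
    refine ⟨j - (T + 1), ?_⟩
    rw [show T + 1 + (j - (T + 1)) = j by omega]
    exact ⟨⟨ht, hτ⟩, hb⟩

end Pool.Agent.MP_b9de27_nt

end

-- part MP_b9de27_nt.Transfer
section

/-!
Transfer from the natural boxes at a point to the two parameter family.
-/

set_option autoImplicit false

open Matrix Set Polynomial MeasureTheory

namespace Pool.Agent.MP_b9de27_nt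

/-- Moebius transformation with integer coefficients. -/
noncomputable def mob (p q r s : ℤ) (η : ℝ) : ℝ := (p * η + r) / (q * η + s)

/-- Admissible unimodular matrices at scale `Q`. -/
structure Adm (θ Q : ℝ) (p q r s : ℤ) : Prop where
  det : p * s - q * r = 1
  lo : θ * Q ≤ q
  hi : (q : ℝ) ≤ Q
  q1 : 1 ≤ q
  p0 : 0 ≤ p
  pq : p ≤ q
  qs : q ≤ s
  sq : s ≤ 2 * q

namespace Adm
variable {θ Q : ℝ} {p q r s : ℤ}

lemma detR (h : Adm θ Q p q r s) : (p : ℝ) * s - q * r = 1 := by exact_mod_cast h.det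
lemma q1R (h : Adm θ Q p q r s) : (1 : ℝ) ≤ q := by exact_mod_cast h.q1
lemma p0R (h : Adm θ Q p q r s) : (0 : ℝ) ≤ p := by exact_mod_cast h.p0
lemma pqR (h : Adm θ Q p q r s) : (p : ℝ) ≤ q := by exact_mod_cast h.pq
lemma qsR (h : Adm θ Q p q r s) : (q : ℝ) ≤ s := by exact_mod_cast h.qs
lemma sqR (h : Adm θ Q p q r s) : (s : ℝ) ≤ 2 * q := by exact_mod_cast h.sq

lemma den_ge (h : Adm θ Q p q r s) {η : ℝ} (hη : 0 ≤ η) : (q : ℝ) ≤ q * η + s := by
  nlinarith [h.q1R, h.qsR]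

lemma den_pos (h : Adm θ Q p q r s) {η : ℝ} (hη : 0 ≤ η) : (0 : ℝ) < q * η + s := by
  linarith [h.den_ge hη, h.q1R]

lemma den_le (h : Adm θ Q p q r s) {η : ℝ} (hη : η ≤ 3) : (q : ℝ) * η + s ≤ 5 * q := by
  nlinarith [h.q1R, h.sqR]

lemma mob_sub (h : Adm θ Q p q r s) {η η' : ℝ} (hη : 0 ≤ η) (hη' : 0 ≤ η') :
    mob p q r s η - mob p q r s η' = (η - η') / ((q * η + s) * (q * η' + s)) := by
  have h1 := h.den_pos hη
  have h2 := h.den_pos hη'
  unfold mob
  rw [div_sub_div _ _ h1.ne' h2.ne']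
  congr 1
  linear_combination (η - η') * h.detR

lemma mob_eq (h : Adm θ Q p q r s) {η : ℝ} (hη : 0 ≤ η) :
    mob p q r s η = p / q - 1 / (q * (q * η + s)) := by
  have h1 := h.den_pos hη
  have h2 : (0 : ℝ) < q := by linarith [h.q1R]
  unfold mob
  rw [div_eq_iff h1.ne', sub_mul, div_mul_eq_mul_div, div_mul_eq_mul_div, one_mul,
    ← div_div, div_div_cancel_left' h1.ne', eq_sub_iff_add_eq, eq_div_iff h2.ne', add_mul,
    inv_mul_cancel₀ h2.ne']
  linear_combination -h.detR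

lemma abs_mob_sub_le (h : Adm θ Q p q r s) {η : ℝ} (hη : 0 ≤ η) :
    |mob p q r s η - p / q| ≤ 1 / (q : ℝ) ^ 2 := by
  have h1 := h.den_pos hη
  have h2 : (0 : ℝ) < q := by linarith [h.q1R]
  rw [h.mob_eq hη, sub_sub_cancel_left, abs_neg, abs_of_pos (by positivity), pow_two]
  exact one_div_le_one_div_of_le (by positivity) (mul_le_mul_of_nonneg_left (h.den_ge hη) h2.le)

lemma abs_mob_le (h : Adm θ Q p q r s) {η : ℝ} (hη : 0 ≤ η) : |mob p q r s η| ≤ 1 := by
  have h1 := h.den_pos hη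
  have h2 : (0 : ℝ) < q := by linarith [h.q1R]
  have h3 : (p : ℝ) / q ≤ 1 := (div_le_one h2).2 h.pqR
  have h4 : (0 : ℝ) ≤ p / q := div_nonneg h.p0R h2.le
  have h5 : 1 / (q * (q * η + s)) ≤ (1 : ℝ) := by
    rw [div_le_one (by positivity)]
    nlinarith [h.den_ge hη, h.q1R]
  have h6 : (0 : ℝ) < 1 / (q * (q * η + s)) := by positivity
  rw [h.mob_eq hη, abs_le]
  constructor <;> linarith

end Adm

lemma sub_one (n : ℕ) : sub n (1 : ℝ) 0 0 1 = 1 := by rw [sub_scalar]; simp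

lemma hm_eq (n : ℕ) {Q : ℝ} (hQ : 0 < Q) (a b η y : ℝ) :
    hm n (Real.log Q) a b η y = tm n η y * sub n Q 0 0 Q⁻¹ *
      diagonal (fun j : Fin (n + 1) => Real.exp (if j = 0 then a else -b)) := by
  rw [hm, sub_diag, Matrix.mul_assoc, diagonal_mul_diagonal]
  congr 2
  funext j
  rw [dv, Real.exp_add]
  congr 1
  have e1 : Q ^ (j : ℕ) = Real.exp (j * Real.log Q) := by
    rw [Real.exp_nat_mul, Real.exp_log hQ]
  have e2 : Q⁻¹ ^ (n - j) = Real.exp (((n - j : ℕ) : ℝ) * (-Real.log Q)) := by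
    rw [Real.exp_nat_mul, Real.exp_neg, Real.exp_log hQ]
  rw [e1, e2, ← Real.exp_add, Nat.cast_sub (Nat.le_of_lt_succ j.2)]
  congr 1; ring

lemma abs_sum_mul_le {k : ℕ} (f g : Fin k → ℝ) (A B : ℝ) (hf : ∀ i, |f i| ≤ A)
    (hg : ∀ i, |g i| ≤ B) : |∑ i, f i * g i| ≤ k * (A * B) := by
  refine (Finset.abs_sum_le_sum_abs _ _).trans ?_
  have : ∀ i, |f i * g i| ≤ A * B := fun i => by
    rw [abs_mul]; exact mul_le_mul (hf i) (hg i) (abs_nonneg _) ((abs_nonneg _).trans (hf i))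
  refine (Finset.sum_le_sum fun i _ => this i).trans ?_
  simp

theorem transfer (n : ℕ) (θ : ℝ) (hθ : 0 < θ) : ∃ K : ℝ, 0 < K ∧
    ∀ (Q : ℝ) (p q r s : ℤ), Adm θ Q p q r s → ∀ η ∈ Icc (0 : ℝ) 3, ∀ y ∈ Icc (-2 : ℝ) (-1),
    |y + s / q| ≤ 1 / Q ^ 2 → ∀ a b e : ℝ, 0 ≤ a → 0 ≤ b →
    (∀ v : Fin (n + 1) → ℤ, v ≠ 0 → ‖vR v‖ ≤ e * Real.exp b →
      |vR v ⬝ᵥ pw n (mob p q r s η)| ≤ e * Real.exp (-a) →
      ShortV (hm n (Real.log Q) a b η y) (K * e)) ∧
    (∀ z : Fin (n + 1) → ℤ, z ≠ 0 → |(z 0 : ℝ)| ≤ e * Real.exp a →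
      (∀ i : Fin (n + 1), |(z 0 : ℝ) * mob p q r s η ^ (i : ℕ) - z i| ≤ e * Real.exp (-b)) →
      ShortC (hm n (Real.log Q) a b η y) (K * e)) := by
  obtain ⟨K₀, hK₀, hKb⟩ := sub_bound n (5 + 1 / θ)
  refine ⟨2 * ((n + 1) * K₀) + 5 ^ n, by positivity, ?_⟩
  intro Q p q r s h η hη y hy hys a b e ha hb
  have hq : (0 : ℝ) < q := by linarith [h.q1R]
  have hQ : 0 < Q := by linarith [h.hi]
  have hθ' : 0 < 1 / θ := by positivity
  set x := mob p q r s η with hx
  have hx1 : |x| ≤ 1 := h.abs_mob_le hη.1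
  have hden := h.den_pos hη.1
  set a₀ := -(p * y + r) * Q with ha₀
  set d₀ := (q * η + s) / Q with hd₀
  set c₀ := -(q * y + s) * Q with hc₀
  have hd₀0 : 0 < d₀ := by positivity
  have hd₀5 : d₀ ≤ 5 := by
    rw [hd₀, div_le_iff₀ hQ]; linarith [h.den_le hη.2, h.hi]
  have hb₀ : (p * η + r) / Q = x * d₀ := by
    rw [hx, mob, hd₀, div_mul_div_cancel₀ hden.ne']
  have ba : |a₀| ≤ 5 + 1 / θ := by
    have e : a₀ = -(p * Q * (y + s / q)) + Q / q := by
      rw [ha₀]; field_simp; linear_combination h.detR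
    have h1 : |p * Q * (y + s / q)| ≤ 1 := by
      rw [abs_mul, abs_of_nonneg (mul_nonneg h.p0R hQ.le)]
      calc p * Q * |y + s / q| ≤ Q * Q * (1 / Q ^ 2) := by
            gcongr; exact h.pqR.trans h.hi
        _ = 1 := by field_simp
    have h2 : Q / q ≤ 1 / θ := by
      rw [div_le_div_iff₀ hq hθ]; linarith [h.lo]
    have h3 : 0 < Q / q := by positivity
    rw [e, abs_le]
    rw [abs_le] at h1
    constructor <;> linarith [h1.1, h1.2]
  have bc : |c₀| ≤ 5 + 1 / θ := by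
    have e : c₀ = -(q * Q * (y + s / q)) := by rw [hc₀]; field_simp
    have h1 : |q * Q * (y + s / q)| ≤ 1 := by
      rw [abs_mul, abs_of_nonneg (mul_nonneg hq.le hQ.le)]
      calc q * Q * |y + s / q| ≤ Q * Q * (1 / Q ^ 2) := by
            gcongr; exact h.hi
        _ = 1 := by field_simp
    rw [e, abs_neg]; linarith
  have bd : |d₀| ≤ 5 + 1 / θ := by rw [abs_of_pos hd₀0]; linarith
  have bb : |x * d₀| ≤ 5 + 1 / θ := by
    rw [abs_mul]; nlinarith [abs_nonneg x, abs_nonneg d₀]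
  set db : Fin (n + 1) → ℝ := fun j => Real.exp (if j = 0 then a else -b) with hdb
  have key : toR (sub n p r q s) * hm n (Real.log Q) a b η y =
      sub n a₀ (x * d₀) c₀ d₀ * diagonal db := by
    rw [hm_eq n hQ, toR_sub, tm, ← Matrix.mul_assoc, ← Matrix.mul_assoc, sub_mul_sub, sub_mul_sub,
      ← hb₀]
    congr 2
    · rw [ha₀]; ring
    · field_simp; ring
    · rw [hc₀]; ring
    · rw [hd₀]; field_simp; ring
  have inv1 : toR (sub n p r q s) * toR (sub n s (-r) (-q) p) = 1 := by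
    rw [toR_sub, toR_sub, sub_mul_sub, ← sub_one]
    push_cast
    congr 1
    · linear_combination h.detR
    · ring
    · ring
    · linear_combination h.detR
  have inv2 : toR (sub n s (-r) (-q) p) * toR (sub n p r q s) = 1 := mul_eq_one_comm.1 inv1
  have hvR : ∀ v : Fin (n + 1) → ℤ, vR v = 0 → v = 0 := by
    intro v hv; funext i
    have := congrFun hv i
    simpa [vR] using this
  have h5n : (0 : ℝ) < 5 ^ n := by positivity
  constructor
  · intro v hv h1 h2
    have he : 0 ≤ e := by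
      have := (norm_nonneg _).trans h1
      exact nonneg_of_mul_nonneg_left this (Real.exp_pos _)
    refine ⟨v ᵥ* sub n p r q s, ?_, ?_⟩
    · intro h0
      apply hv
      apply hvR
      have := congrArg (fun u => vR u ᵥ* toR (sub n s (-r) (-q) p)) h0
      rw [← vR_vecMul, vecMul_vecMul, inv1, vecMul_one] at this
      rw [this]
      funext i; simp [vR, Matrix.vecMul, dotProduct]
    · rw [← vR_vecMul, vecMul_vecMul, key, ← vecMul_vecMul,
        pi_norm_le_iff_of_nonneg (by positivity)]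
      intro j
      rw [vecMul_diagonal, Real.norm_eq_abs, abs_mul, abs_of_pos (Real.exp_pos _)]
      by_cases hj : j = 0
      · subst hj
        have e1 : (vR v ᵥ* sub n a₀ (x * d₀) c₀ d₀) 0 = d₀ ^ n * (vR v ⬝ᵥ pw n x) := by
          simp only [Matrix.vecMul, dotProduct, sub_col_zero, pw, Finset.mul_sum]
          refine Finset.sum_congr rfl fun i _ => ?_
          have : d₀ ^ n = d₀ ^ (i : ℕ) * d₀ ^ (n - i) := by
            rw [← pow_add]; congr 1; have := i.2; omega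
          rw [this, mul_pow]; ring
        rw [e1, abs_mul, abs_of_pos (pow_pos hd₀0 n), if_pos rfl]
        calc d₀ ^ n * |vR v ⬝ᵥ pw n x| * Real.exp a
            ≤ 5 ^ n * (e * Real.exp (-a)) * Real.exp a := by gcongr
          _ = 5 ^ n * e := by rw [Real.exp_neg]; field_simp
          _ ≤ _ := by gcongr; linarith [show (0 : ℝ) ≤ 2 * ((n + 1) * K₀) by positivity]
      · rw [if_neg hj]
        have h3 := abs_sum_mul_le (vR v) (fun i => sub n a₀ (x * d₀) c₀ d₀ i j) _ K₀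
          (fun i => (norm_le_pi_norm (vR v) i).trans h1) (fun i => hKb _ _ _ _ ba bb bc bd i j)
        push_cast at h3
        calc _ ≤ (n + 1) * (e * Real.exp b * K₀) * Real.exp (-b) :=
              mul_le_mul_of_nonneg_right h3 (Real.exp_pos _).le
          _ = ((n + 1) * K₀) * e := by rw [Real.exp_neg]; field_simp
          _ ≤ _ := by gcongr; linarith [show (0 : ℝ) ≤ ((n + 1) * K₀) by positivity]
  · intro z hz h1 h2
    have he : 0 ≤ e := by
      have := (abs_nonneg _).trans h1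
      exact nonneg_of_mul_nonneg_left this (Real.exp_pos _)
    set Δ := η - y with hΔ
    have hΔ1 : 1 ≤ Δ := by linarith [hη.1, hy.2]
    have hΔe : a₀ * d₀ - x * d₀ * c₀ = Δ := by
      rw [← hb₀, ha₀, hd₀, hc₀, hΔ]; field_simp; linear_combination (η - y) * h.detR
    set S₁ := sub n (d₀ / Δ) (-(x * d₀) / Δ) (-c₀ / Δ) (a₀ / Δ) with hS₁
    have inv3 : sub n a₀ (x * d₀) c₀ d₀ * S₁ = 1 := by
      rw [hS₁, sub_mul_sub, ← sub_one]
      congr 1
      · field_simp; linear_combination hΔe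
      · field_simp; ring
      · field_simp; ring
      · field_simp; linear_combination hΔe
    have hdiv : ∀ u : ℝ, |u| ≤ 5 + 1 / θ → |u / Δ| ≤ 5 + 1 / θ := by
      intro u hu
      rw [abs_div, abs_of_pos (show 0 < Δ by linarith)]
      exact (div_le_self (abs_nonneg _) hΔ1).trans hu
    have hS₁b : ∀ i j, |S₁ i j| ≤ K₀ :=
      hKb _ _ _ _ (hdiv _ bd) (hdiv _ (by rwa [abs_neg])) (hdiv _ (by rwa [abs_neg])) (hdiv _ ba)
    refine ⟨sub n s (-r) (-q) p *ᵥ z, ?_, fun j => (S₁ *ᵥ vR z) j / db j, ?_, ?_⟩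
    · intro h0
      apply hz
      apply hvR
      have := congrArg (fun u => toR (sub n p r q s) *ᵥ vR u) h0
      rw [← toR_mulVec, mulVec_mulVec, inv1, one_mulVec] at this
      rw [this]
      funext i; simp [vR, Matrix.mulVec, dotProduct]
    · have e1 : hm n (Real.log Q) a b η y =
          toR (sub n s (-r) (-q) p) * (sub n a₀ (x * d₀) c₀ d₀ * diagonal db) := by
        rw [← key, ← Matrix.mul_assoc, inv2, Matrix.one_mul]
      have e2 : diagonal db *ᵥ (fun j => (S₁ *ᵥ vR z) j / db j) = S₁ *ᵥ vR z := by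
        funext j
        rw [mulVec_diagonal, mul_div_cancel₀ _ (Real.exp_pos _).ne']
      rw [e1, ← mulVec_mulVec, ← mulVec_mulVec, e2, mulVec_mulVec (vR z), inv3, one_mulVec,
        toR_mulVec]
    · rw [pi_norm_le_iff_of_nonneg (by positivity)]
      intro j
      have e1 : (S₁ *ᵥ vR z) j =
          z 0 * (∑ i, S₁ j i * x ^ (i : ℕ)) - ∑ i, S₁ j i * (z 0 * x ^ (i : ℕ) - z i) := by
        simp only [Matrix.mulVec, dotProduct, vR, Finset.mul_sum, ← Finset.sum_sub_distrib]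
        refine Finset.sum_congr rfl fun i _ => by ring
      have h3 := abs_sum_mul_le (S₁ j) (fun i => z 0 * x ^ (i : ℕ) - z i) K₀ _ (hS₁b j) h2
      have h4 := abs_sum_mul_le (S₁ j) (fun i => x ^ (i : ℕ)) K₀ 1 (hS₁b j)
        (fun i => by rw [abs_pow]; exact pow_le_one₀ (abs_nonneg _) hx1)
      push_cast at h3 h4
      have hdb0 : 0 < db j := Real.exp_pos _
      rw [Real.norm_eq_abs, abs_div, abs_of_pos hdb0, div_le_iff₀ hdb0, e1]
      have hP : (0 : ℝ) ≤ (n + 1) * K₀ * e := by positivity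
      by_cases hj : j = 0
      · have h5 : db j = Real.exp a := by simp [hdb, hj]
        have h6 : Real.exp (-b) ≤ Real.exp a := Real.exp_le_exp.2 (by linarith)
        rw [h5]
        refine (abs_sub _ _).trans ?_
        rw [abs_mul]
        calc _ ≤ e * Real.exp a * ((n + 1) * (K₀ * 1)) + (n + 1) * (K₀ * (e * Real.exp a)) := by
              refine add_le_add (mul_le_mul h1 h4 (abs_nonneg _) (by positivity)) (h3.trans ?_)
              gcongr
          _ = 2 * ((n + 1) * K₀) * e * Real.exp a := by ring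
          _ ≤ _ := by gcongr; linarith
      · have h5 : db j = Real.exp (-b) := by simp [hdb, hj]
        have h6 : ∑ i, S₁ j i * x ^ (i : ℕ) = 0 := by
          have := hev_row n (d₀ / Δ) (-(x * d₀) / Δ) (-c₀ / Δ) (a₀ / Δ) j x 1
          simp only [hev, one_pow, mul_one] at this
          rw [hS₁, this]
          have h7 : d₀ / Δ * x + -(x * d₀) / Δ = 0 := by ring
          rw [h7, zero_pow (fun h => hj (Fin.ext h)), zero_mul]
        rw [h5, h6, mul_zero, zero_sub, abs_neg]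
        calc _ ≤ (n + 1) * (K₀ * (e * Real.exp (-b))) := h3
          _ = ((n + 1) * K₀) * e * Real.exp (-b) := by ring
          _ ≤ _ := by gcongr; linarith [show (0 : ℝ) ≤ ((n + 1) * K₀) by positivity]

end Pool.Agent.MP_b9de27_nt

end
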